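import Pool.Agent.H87.ST.Reach

namespace Pool.Agent.H87.ST

open Finset

/-- 0/1 indicator of membership -/
def mem1 {α : Type*} [DecidableEq α] (x : α) (X : Finset α) : ℤ := if x ∈ X then 1 else 0

lemma ind_sub_ind {V : Type*} [Fintype V] [DecidableEq V] (X : Finset V) (u v : V) :
    ind X u v - ind X v u = mem1 v X - mem1 u X := by
  unfold ind mem1
  by_cases hu : u ∈ X <;> by_cases hv : v ∈ X <;> simp [hu, hv]

theorem aug_spec {n : ℕ} (src snk : Fin n) (G : Fin n → Fin n → ℤ) (s : Mem) (B : ℕ)
    (hB : s.v vB = B) (hnB : n ≤ B) (hsnk : s.v vE = (snk : ℕ))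
    (hG : ∀ u v : Fin n, s.a aG (u : ℕ) (v : ℕ) = G u v) (hG0 : ∀ u v, 0 ≤ G u v)
    (h : RF n src G s) (hpos : 0 < re s snk) :
    ∃ G' : Fin n → Fin n → ℤ, (∀ u v : Fin n, (augC.run s).a aG (u : ℕ) (v : ℕ) = G' u v) ∧
      (∀ u v, 0 ≤ G' u v) ∧
      ∀ X : Finset (Fin n), cutw G' X = cutw G X - (mem1 snk X - mem1 src X) := by
  unfold augC
  simp only [Cmd.run]
  have hval : (Exp.var vE).val s = (snk : ℕ) := hsnk
  rw [hval]
  have key := loop_inv vR vB augB (s.setv vCur (snk : ℕ)) B
    (by rw [setv_ne _ _ (by decide), hB])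
    (fun j s' => ∃ (cur : Fin n) (G' : Fin n → Fin n → ℤ), s'.v vCur = (cur : ℕ) ∧
      0 < re s cur ∧ (∀ u v : Fin n, s'.a aG (u : ℕ) (v : ℕ) = G' u v) ∧ (∀ u v, 0 ≤ G' u v) ∧
      (∀ X : Finset (Fin n), cutw G' X = cutw G X - (mem1 snk X - mem1 cur X)) ∧
      (∀ u v, re s u ≤ re s cur → re s v ≤ re s cur → 0 < re s u → 0 < re s v →
        G' u v = G u v) ∧ (cur = src ∨ re s cur + j ≤ n))
    ⟨snk, G, by simp [setv_v], hpos, hG, hG0, fun X => by ring, fun _ _ _ _ _ _ => rfl,
      Or.inr (by simpa using h.len snk)⟩ ?_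
  · simp only [Cmd.run] at key
    obtain ⟨cur, G', -, hc, hG', hG0', hcut, -, hend⟩ := key
    have hcs : cur = src := by
      rcases hend with h1 | h1
      · exact h1
      · exfalso
        have : (n : ℤ) ≤ B := by exact_mod_cast hnB
        omega
    subst hcs
    exact ⟨G', hG', hG0', hcut⟩
  · rintro j hj s' hv ha ⟨cur, G', hcur, hc, hG', hG0', hcut, hun, hend⟩
    have haRe : s'.a aRe = s.a aRe := by rw [ha aRe (by decide)]; rfl
    have haPa : s'.a aPa = s.a aPa := by rw [ha aPa (by decide)]; rfl
    have hcur' : (s'.setv vR j).v vCur = (cur : ℕ) := by rw [setv_ne _ _ (by decide), hcur]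
    have e1 : (get1 aRe (.var vCur)).val (s'.setv vR j) = re s cur := by
      simp only [get1, Exp.val, setv_a]
      rw [hcur', haRe]; rfl
    unfold augB
    rw [Cmd.run, e1]
    by_cases h1 : 1 < re s cur
    · have h1' : (Exp.lit 1).val (s'.setv vR j) < re s cur := h1
      rw [if_pos h1']
      have hne : cur ≠ src := by rintro rfl; rw [h.one] at h1; exact lt_irrefl _ h1
      obtain ⟨-, p, hp1, hp2, hp3, hp4⟩ := h.par cur hne hc
      have hpc : p ≠ cur := by rintro rfl; omega
      have e2 : (get1 aPa (.var vCur)).val (s'.setv vR j) = (p : ℕ) := by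
        simp only [get1, Exp.val, setv_a]
        rw [hcur', haPa]; exact hp1
      simp only [Cmd.run, e2]
      -- the new memory
      set s1 := (s'.setv vR j).setv vPre (p : ℕ) with hs1
      have f1 : s1.v vPre = (p : ℕ) := by simp [hs1, setv_v]
      have f2 : s1.v vCur = (cur : ℕ) := by rw [hs1, setv_ne _ _ (by decide), hcur']
      have f3 : s1.a = s'.a := rfl
      have e3 : (Exp.sub (.get aG (.var vPre) (.var vCur)) (.lit 1)).val s1 = G' p cur - 1 := by
        simp only [Exp.val]; rw [f1, f2, f3, hG']
      have e4 : (Exp.var vPre).val s1 = (p : ℕ) := f1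
      have e5 : (Exp.var vCur).val s1 = (cur : ℕ) := f2
      rw [e3, e4, e5]
      set s2 := s1.seta aG (p : ℕ) (cur : ℕ) (G' p cur - 1) with hs2
      have e6 : (Exp.add (.get aG (.var vCur) (.var vPre)) (.lit 1)).val s2 = G' cur p + 1 := by
        simp only [Exp.val]
        rw [hs2, seta_v, f1, f2, seta_a, if_neg, f3, hG']
        rintro ⟨_, h2, _⟩
        exact hpc (Fin.ext (by exact_mod_cast h2.symm))
      have e7 : (Exp.var vPre).val s2 = (p : ℕ) := f1
      have e8 : (Exp.var vCur).val s2 = (cur : ℕ) := f2
      rw [e6, e7, e8]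
      set s3 := s2.seta aG (cur : ℕ) (p : ℕ) (G' cur p + 1) with hs3
      have e9 : (Exp.var vPre).val s3 = (p : ℕ) := f1
      rw [e9]
      refine ⟨p, fun u v => G' u v + (single cur p u v - single p cur u v), ?_, hp2, ?_, ?_, ?_,
        ?_, Or.inr (by push_cast; rcases hend with h2 | h2; exact absurd h2 hne; omega)⟩
      · simp [setv_v]
      · intro u v
        rw [setv_a, hs3, seta_a, hs2, seta_a, f3, hG']
        simp only [true_and, Nat.cast_inj, ← Fin.ext_iff, single]
        by_cases hA : u = cur ∧ v = p
        · obtain ⟨rfl, rfl⟩ := hA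
          simp [Ne.symm hpc]
        · rw [if_neg hA, if_neg hA]
          by_cases hB' : u = p ∧ v = cur
          · obtain ⟨rfl, rfl⟩ := hB'
            simp; ring
          · rw [if_neg hB', if_neg hB']; ring
      · intro u v
        have h2 := hG0' u v
        have h3 := single_nonneg cur p u v
        by_cases hB' : u = p ∧ v = cur
        · obtain ⟨rfl, rfl⟩ := hB'
          have h4 := hun u v (by omega) le_rfl hp2 hc
          simp only [single, if_true, and_self]
          simp only [single] at h3
          omega
        · have h4 : single p cur u v = 0 := by unfold single; rw [if_neg hB']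
          simp only [h4]; omega
      · intro X
        have h2 : cutw (fun u v => G' u v + (single cur p u v - single p cur u v)) X =
            cutw G' X + (ind X cur p - ind X p cur) := by
          rw [cutw_add G', ← cutw_single cur p X, ← cutw_single p cur X]
          have : cutw (single cur p) X = cutw (fun u v => single cur p u v - single p cur u v) X +
              cutw (single p cur) X := by
            rw [← cutw_add]; simp
          rw [this]; ring
        rw [h2, ind_sub_ind, hcut X]; ring
      · intro u v hu hv' hu0 hv0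
        have hu' : u ≠ cur := by rintro rfl; omega
        have hv'' : v ≠ cur := by rintro rfl; omega
        have : single cur p u v - single p cur u v = 0 := by
          unfold single
          rw [if_neg (fun h => hu' h.1), if_neg (fun h => hv'' h.2)]; ring
        simp only [this, add_zero]
        exact hun u v (by omega) (by omega) hu0 hv0
    · have h1' : ¬ (Exp.lit 1).val (s'.setv vR j) < re s cur := h1
      rw [if_neg h1']
      have hcs : cur = src := by
        by_contra hne
        have := (h.par cur hne hc).1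
        omega
      exact ⟨cur, G', hcur', hc, hG', hG0', hcut, hun, Or.inl hcs⟩

end Pool.Agent.H87.ST
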