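import Mathlib

/-!
# S-T edge-connectivity augmentation: the problem, the machine model and the algorithm

All definitions used in the statement of the main theorem.
-/

namespace Pool.Agent.H87.ST

open Finset

/-! ## The problem -/

section Problem
variable {V : Type*} [Fintype V] [DecidableEq V]

/-- `p` is the vertex list of a directed path (without repeated vertices) from `s` to `t`. -/
def IsPath (s t : V) (p : List V) : Prop :=
  p.head? = some s ∧ p.getLast? = some t ∧ p.Nodup

/-- How often the path `p` traverses an arc from `u` to `v`. -/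
def uses (p : List V) (u v : V) : ℕ := (p.zip p.tail).count (u, v)

/-- There are `k` pairwise arc-disjoint directed paths from `s` to `t` in the digraph having
`G u v` parallel arcs from `u` to `v`. -/
def DisjointPaths (G : V → V → ℕ) (s t : V) (k : ℕ) : Prop :=
  ∃ P : Fin k → List V, (∀ i, IsPath s t (P i)) ∧ ∀ u v, ∑ i, uses (P i) u v ≤ G u v

/-- The digraph with multiplicities `G` is `k`-edge-connected from `S` to `T`. -/
def ConnectedFromTo (G : V → V → ℕ) (S T : Finset V) (k : ℕ) : Prop :=
  ∀ s ∈ S, ∀ t ∈ T, s ≠ t → DisjointPaths G s t k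

end Problem

/-- Number of arcs from `u` to `v` in the digraph on `Fin n` with the arcs `(tail i, head i)`. -/
def mult {n m : ℕ} (tail head : Fin m → Fin n) (u v : Fin n) : ℕ :=
  (univ.filter fun i => tail i = u ∧ head i = v).card

/-- `x` is a vector of new arcs from `S` to `T` whose addition makes the digraph
`k`-edge-connected from `S` to `T`. -/
def Augments {n m : ℕ} (tail head : Fin m → Fin n) (S T : Finset (Fin n)) (k : ℕ)
    (x : Fin n → Fin n → ℕ) : Prop :=
  (∀ u v, x u v ≠ 0 → u ∈ S ∧ v ∈ T) ∧
    ConnectedFromTo (fun u v => mult tail head u v + x u v) S T k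

/-- `x` is such a vector with the minimum number of new arcs. -/
def IsMinimumAugmentation {n m : ℕ} (tail head : Fin m → Fin n) (S T : Finset (Fin n)) (k : ℕ)
    (x : Fin n → Fin n → ℕ) : Prop :=
  Augments tail head S T k x ∧
    ∀ y, Augments tail head S T k y → ∑ u, ∑ v, x u v ≤ ∑ u, ∑ v, y u v

/-! ## The machine model -/

/-- Memory of the machine: integer variables and two-dimensional integer arrays. -/
structure Mem where
  v : ℕ → ℤ
  a : ℕ → ℤ → ℤ → ℤ

/-- write a variable -/
def Mem.setv (s : Mem) (x : ℕ) (z : ℤ) : Mem :=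
  ⟨fun y => if y = x then z else s.v y, s.a⟩

/-- write an array entry -/
def Mem.seta (s : Mem) (b : ℕ) (i j z : ℤ) : Mem :=
  ⟨s.v, fun c i' j' => if c = b ∧ i' = i ∧ j' = j then z else s.a c i' j'⟩

/-- Expressions: integer constants, variables, array entries, sums and differences. -/
inductive Exp
  | lit (z : ℤ)
  | var (x : ℕ)
  | get (b : ℕ) (i j : Exp)
  | add (e f : Exp)
  | sub (e f : Exp)

/-- value of an expression -/
def Exp.val (s : Mem) : Exp → ℤ
  | .lit z => z
  | .var x => s.v x
  | .get b i j => s.a b (i.val s) (j.val s)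
  | .add e f => e.val s + f.val s
  | .sub e f => e.val s - f.val s

/-- number of elementary operations performed in evaluating an expression (one per node) -/
def Exp.ops : Exp → ℕ
  | .lit _ => 1
  | .var _ => 1
  | .get _ i j => i.ops + j.ops + 1
  | .add e f => e.ops + f.ops + 1
  | .sub e f => e.ops + f.ops + 1

/-- largest absolute value of a number met in evaluating an expression -/
def Exp.peak (s : Mem) : Exp → ℕ
  | .lit z => z.natAbs
  | .var x => (s.v x).natAbs
  | .get b i j => max (max (i.peak s) (j.peak s)) (s.a b (i.val s) (j.val s)).natAbs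
  | .add e f => max (max (e.peak s) (f.peak s)) (e.val s + f.val s).natAbs
  | .sub e f => max (max (e.peak s) (f.peak s)) (e.val s - f.val s).natAbs

/-- Programs. `set x e` is `x := e`; `put b i j e` is `b[i,j] := e`; `ifLt e f c d` is
`if e < f then c else d`; `loop x y c` is `for x := 0, 1, ..., y₀ - 1 do c`, where `y₀` is the
value of the variable `y` when the loop is entered. -/
inductive Cmd
  | skip
  | set (x : ℕ) (e : Exp)
  | put (b : ℕ) (i j e : Exp)
  | seq (c d : Cmd)
  | ifLt (e f : Exp) (c d : Cmd)
  | loop (x y : ℕ) (c : Cmd)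

/-- iterate `f 0`, `f 1`, ..., `f (N-1)` -/
def iter (f : ℕ → Mem → Mem) : ℕ → Mem → Mem
  | 0, s => s
  | N + 1, s => f N (iter f N s)

/-- effect of a program on the memory -/
def Cmd.run : Cmd → Mem → Mem
  | .skip, s => s
  | .set x e, s => s.setv x (e.val s)
  | .put b i j e, s => s.seta b (i.val s) (j.val s) (e.val s)
  | .seq c d, s => d.run (c.run s)
  | .ifLt e f c d, s => if e.val s < f.val s then c.run s else d.run s
  | .loop x y c, s => iter (fun j s' => c.run (s'.setv x j)) (s.v y).toNat s

/-- number of elementary operations (arithmetic operations, comparisons, memory accesses and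
loop steps) performed by a program -/
def Cmd.cost : Cmd → Mem → ℕ
  | .skip, _ => 1
  | .set _ e, _ => e.ops + 1
  | .put _ i j e, _ => i.ops + j.ops + e.ops + 1
  | .seq c d, s => c.cost s + d.cost (c.run s)
  | .ifLt e f c d, s => e.ops + f.ops + 1 + if e.val s < f.val s then c.cost s else d.cost s
  | .loop x y c, s => 1 + ∑ j ∈ Finset.range (s.v y).toNat,
      (1 + c.cost ((iter (fun j s' => c.run (s'.setv x j)) j s).setv x j))

/-- largest absolute value of a number met in running a program -/
def Cmd.peak : Cmd → Mem → ℕ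
  | .skip, _ => 0
  | .set _ e, s => e.peak s
  | .put _ i j e, s => max (max (i.peak s) (j.peak s)) (e.peak s)
  | .seq c d, s => max (c.peak s) (d.peak (c.run s))
  | .ifLt e f c d, s => max (max (e.peak s) (f.peak s))
      (if e.val s < f.val s then c.peak s else d.peak s)
  | .loop x y c, s => max (s.v y).natAbs ((Finset.range (s.v y).toNat).sup
      (fun j => max j (c.peak ((iter (fun j s' => c.run (s'.setv x j)) j s).setv x j))))

/-! ## The algorithm -/

/-! ### names of variables -/

/-- input: number of vertices -/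
abbrev vN : ℕ := 0
/-- input: number of arcs -/
abbrev vM : ℕ := 1
/-- input: the requirement -/
abbrev vK : ℕ := 2
abbrev vP : ℕ := 3
abbrev vP2 : ℕ := 4
abbrev vP4 : ℕ := 5
abbrev vP8 : ℕ := 6
abbrev vP16 : ℕ := 7
/-- number of rounds of the test -/
abbrev vT : ℕ := 8
/-- bound for auxiliary loops -/
abbrev vB : ℕ := 9
abbrev vZ : ℕ := 10
abbrev vMi : ℕ := 11
abbrev vMa : ℕ := 12
abbrev vMb : ℕ := 13
/-- source of the current search -/
abbrev vS : ℕ := 14
/-- sink of the current search -/
abbrev vE : ℕ := 15
abbrev vC : ℕ := 16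
abbrev vR : ℕ := 17
abbrev vU : ℕ := 18
abbrev vV : ℕ := 19
abbrev vCur : ℕ := 20
abbrev vPre : ℕ := 21
abbrev vStuck : ℕ := 22
abbrev vIt : ℕ := 23
abbrev vL : ℕ := 24
abbrev vFound : ℕ := 25
abbrev vDec : ℕ := 26
abbrev vPos : ℕ := 27
abbrev vRd : ℕ := 28
abbrev vW : ℕ := 29
abbrev vW2 : ℕ := 30
abbrev vX : ℕ := 31
abbrev vY : ℕ := 32
abbrev vD : ℕ := 33
abbrev vQ : ℕ := 34
abbrev vKK : ℕ := 35
abbrev vMM : ℕ := 36
abbrev vJ : ℕ := 37
abbrev vA : ℕ := 38
abbrev vA' : ℕ := 39
abbrev vDone : ℕ := 40
abbrev vRest : ℕ := 41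
abbrev vNN : ℕ := 42
abbrev vK0 : ℕ := 43
abbrev vCS : ℕ := 44
abbrev vCT : ℕ := 45

/-! ### names of arrays -/

/-- input: tails of the arcs -/
abbrev aTail : ℕ := 0
/-- input: heads of the arcs -/
abbrev aHead : ℕ := 1
/-- input: indicator of `S` -/
abbrev aS : ℕ := 2
/-- input: indicator of `T` -/
abbrev aT : ℕ := 3
/-- output: the augmenting vector -/
abbrev aOut : ℕ := 4
/-- multiplicities of the arcs of the current digraph -/
abbrev aD : ℕ := 5
/-- capacities -/
abbrev aC : ℕ := 6
/-- residual capacities -/
abbrev aG : ℕ := 7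
/-- time stamps of reached vertices -/
abbrev aRe : ℕ := 8
/-- parents in the search tree -/
abbrev aPa : ℕ := 9
/-- the deficient cut that was found -/
abbrev aX : ℕ := 10
/-- potentials of the arcs from `S` to `T` -/
abbrev aR : ℕ := 11
/-- weights -/
abbrev aW : ℕ := 12
/-- new arcs chosen so far -/
abbrev aXO : ℕ := 13

/-- `for u < n, for v < n do c` -/
def for2 (c : Cmd) : Cmd := .loop vU vN (.loop vV vN c)

/-- entry of a one-dimensional array -/
def get1 (b : ℕ) (i : Exp) : Exp := .get b i (.lit 0)

/-- `dst := src * src` by repeated addition -/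
def sqC (dst src : ℕ) : Cmd :=
  .seq (.set dst (.lit 0)) (.loop vZ src (.set dst (.add (.var dst) (.var src))))

/-- `dst := x * y` by repeated addition, correct if `0 ≤ x ≤ vB` -/
def mulC (dst : ℕ) (x y : Exp) : Cmd :=
  .seq (.set vMa x) (.seq (.set vMb y) (.seq (.set dst (.lit 0))
    (.loop vMi vB (.ifLt (.var vMi) (.var vMa) (.set dst (.add (.var dst) (.var vMb))) .skip))))

/-- one step of the search: use the arc from `vU` to `vV` -/
def reachB : Cmd :=
  .ifLt (.lit 0) (get1 aRe (.var vU))
    (.ifLt (get1 aRe (.var vV)) (.lit 1)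
      (.ifLt (.lit 0) (.get aG (.var vU) (.var vV))
        (.seq (.set vC (.add (.var vC) (.lit 1)))
        (.seq (.put aRe (.var vV) (.lit 0) (.var vC))
          (.put aPa (.var vV) (.lit 0) (.var vU))))
        .skip) .skip) .skip

/-- search from `vS` in the residual digraph `aG` -/
def reachC : Cmd :=
  .seq (.loop vU vN (.put aRe (.var vU) (.lit 0) (.lit 0)))
  (.seq (.put aRe (.var vS) (.lit 0) (.lit 1))
  (.seq (.set vC (.lit 1))
  (.loop vR vN (for2 reachB))))

/-- go back one arc along the path found and update the residual capacities -/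
def augB : Cmd :=
  .ifLt (.lit 1) (get1 aRe (.var vCur))
    (.seq (.set vPre (get1 aPa (.var vCur)))
    (.seq (.put aG (.var vPre) (.var vCur) (.sub (.get aG (.var vPre) (.var vCur)) (.lit 1)))
    (.seq (.put aG (.var vCur) (.var vPre) (.add (.get aG (.var vCur) (.var vPre)) (.lit 1)))
      (.set vCur (.var vPre)))))
    .skip

/-- push one unit along the path found from `vS` to `vE` -/
def augC : Cmd :=
  .seq (.set vCur (.var vE)) (.loop vR vB augB)

def ffB : Cmd :=
  .ifLt (.var vIt) (.var vL) (.ifLt (.var vStuck) (.lit 1)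
    (.seq reachC
      (.ifLt (.lit 0) (get1 aRe (.var vE)) augC (.set vStuck (.lit 1)))) .skip) .skip

/-- try to push `vL` units from `vS` to `vE` in the digraph with capacities `aC`;
`vStuck` becomes 1 if this is impossible -/
def ffC : Cmd :=
  .seq (for2 (.put aG (.var vU) (.var vV) (.get aC (.var vU) (.var vV))))
  (.seq (.set vStuck (.lit 0)) (.loop vIt vB ffB))

/-- record in `aX` the set of vertices not reached -/
def recC : Cmd :=
  .loop vU vN (.ifLt (get1 aRe (.var vU)) (.lit 1)
    (.put aX (.var vU) (.lit 0) (.lit 1)) (.put aX (.var vU) (.lit 0) (.lit 0)))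

def findB : Cmd :=
  .ifLt (.var vFound) (.lit 1)
    (.ifLt (.lit 0) (get1 aS (.var vS)) (.ifLt (.lit 0) (get1 aT (.var vE))
      (.seq ffC (.ifLt (.lit 0) (.var vStuck) (.seq (.set vFound (.lit 1)) recC) .skip))
      .skip) .skip) .skip

/-- look for a cut `aX` of capacity less than `vL` separating some `s` in `S` from some `t` in `T` -/
def findC : Cmd :=
  .seq (.set vFound (.lit 0)) (.loop vS vN (.loop vE vN findB))

def weightB : Cmd :=
  .seq (.set vX (.lit 0))
    (.seq (.ifLt (.lit 0) (get1 aS (.var vU)) (.ifLt (.lit 0) (get1 aT (.var vV))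
      (.ifLt (.lit 0) (.get aR (.var vU) (.var vV))
        (.set vX (.get aR (.var vU) (.var vV))) .skip) .skip) .skip)
    (.seq (.put aW (.var vU) (.var vV) (.var vX))
      (.set vW (.add (.var vW) (.var vX)))))

/-- compute the weights `aW` (positive parts of the potentials) and their sum `vW` -/
def weightC : Cmd :=
  .seq (.set vW (.lit 0)) (for2 weightB)

def capB : Cmd :=
  .seq (mulC vX (.var vQ) (.get aW (.var vU) (.var vV)))
    (.seq (mulC vY (.get aD (.var vU) (.var vV)) (.var vW2))
      (.put aC (.var vU) (.var vV) (.add (.var vX) (.var vY))))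

/-- capacities `aC = q * weight + 2 W * multiplicity` and threshold `vL = 2 W * kk` -/
def capC : Cmd :=
  .seq (.set vW2 (.add (.var vW) (.var vW)))
  (.seq (for2 capB) (mulC vL (.var vKK) (.var vW2)))

/-- in-degree of `aX` -/
def degB : Cmd :=
  .ifLt (get1 aX (.var vU)) (.lit 1) (.ifLt (.lit 0) (get1 aX (.var vV))
      (.set vD (.add (.var vD) (.get aD (.var vU) (.var vV)))) .skip) .skip

def potB : Cmd :=
  .seq
    (.put aR (.var vU) (.var vV) (.sub (.sub (.get aR (.var vU) (.var vV)) (.var vX)) (.var vX)))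
    (.ifLt (get1 aX (.var vU)) (.lit 1) (.ifLt (.lit 0) (get1 aX (.var vV))
      (.put aR (.var vU) (.var vV) (.add (.get aR (.var vU) (.var vV)) (.var vQ)))
      .skip) .skip)

/-- update the potentials with the deficient cut found -/
def updC : Cmd :=
  .seq (.set vD (.lit 0))
  (.seq (for2 degB)
  (.seq (.set vX (.sub (.var vKK) (.var vD))) (for2 potB)))

/-- one round of the test -/
def roundC : Cmd :=
  .seq weightC
    (.ifLt (.var vW) (.lit 1)
      (.seq (.set vDec (.lit 1)) (.ifLt (.lit 0) (.var vRd) .skip (.set vPos (.lit 1))))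
      (.seq capC (.seq findC
        (.ifLt (.lit 0) (.var vFound) updC
          (.seq (.set vDec (.lit 1)) (.set vPos (.lit 1)))))))

/-- Test whether `2 * (minimum number of new arcs) ≤ vQ` for the digraph `aD` and the requirement
`vKK` (`vQ` odd): answer in `vPos`. -/
def testC : Cmd :=
  .seq (for2 (.put aR (.var vU) (.var vV) (.lit 1)))
  (.seq (.set vDec (.lit 0)) (.seq (.set vPos (.lit 0))
  (.loop vRd vT (.ifLt (.var vDec) (.lit 1) roundC .skip))))

def optB : Cmd :=
  .ifLt (.var vDone) (.lit 1)
    (.seq (.set vQ (.add (.add (.var vJ) (.var vJ)) (.lit 1)))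
      (.seq testC
        (.ifLt (.lit 0) (.var vPos) (.seq (.set vDone (.lit 1)) (.set vMM (.var vJ))) .skip)))
    .skip

/-- Compute in `vMM` the minimum number of new arcs for `aD` and `vKK`. -/
def optC : Cmd :=
  .seq (.set vDone (.lit 0)) (.seq (.set vMM (.lit 0)) (.loop vJ vB optB))

/-- add the arc from `vA` to `vA'` if this decreases the minimum `vMM` -/
def tryB : Cmd :=
  .ifLt (.lit 0) (.var vMM)
    (.seq (.put aD (.var vA) (.var vA') (.add (.get aD (.var vA) (.var vA')) (.lit 1)))
    (.seq (.set vQ (.sub (.add (.var vMM) (.var vMM)) (.lit 1)))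
    (.seq testC
      (.ifLt (.lit 0) (.var vPos)
        (.seq (.set vMM (.sub (.var vMM) (.lit 1)))
          (.put aXO (.var vA) (.var vA') (.add (.get aXO (.var vA) (.var vA')) (.lit 1))))
        (.put aD (.var vA) (.var vA') (.sub (.get aD (.var vA) (.var vA')) (.lit 1)))))))
    .skip

def greedyB : Cmd :=
  .ifLt (.lit 0) (get1 aS (.var vA)) (.ifLt (.lit 0) (get1 aT (.var vA'))
    (.loop vJ vB tryB) .skip) .skip

/-- Choose new arcs greedily: add an arc whenever this decreases the minimum. -/
def greedyC : Cmd :=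
  .seq (for2 (.put aXO (.var vU) (.var vV) (.lit 0))) (.loop vA vN (.loop vA' vN greedyB))

/-- Optimal augmentation `aXO` of `aD` for the requirement `vKK`. -/
def solveC : Cmd := .seq optC greedyC

/-- compute `P = n + m + 2` and its powers `vT = P ^ 32`, `vB = P ^ 64` -/
def initC : Cmd :=
  .seq (.set vP (.add (.add (.var vN) (.var vM)) (.lit 2)))
  (.seq (sqC vP2 vP) (.seq (sqC vP4 vP2) (.seq (sqC vP8 vP4) (.seq (sqC vP16 vP8)
    (.seq (sqC vT vP16) (sqC vB vT))))))

/-- build the matrix of multiplicities -/
def readC : Cmd :=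
  .seq (for2 (.put aD (.var vU) (.var vV) (.lit 0)))
    (.loop vU vM (.put aD (get1 aTail (.var vU)) (get1 aHead (.var vU))
      (.add (.get aD (get1 aTail (.var vU)) (get1 aHead (.var vU))) (.lit 1))))

/-- `vK0 := |S| |T| m + 1`, `vKK := min(k, vK0)`, `vRest := k - vKK` -/
def boundC : Cmd :=
  .seq (.set vCS (.lit 0)) (.seq (.set vCT (.lit 0))
  (.seq (.loop vU vN (.seq (.set vCS (.add (.var vCS) (get1 aS (.var vU))))
    (.set vCT (.add (.var vCT) (get1 aT (.var vU))))))
  (.seq (mulC vNN (.var vCS) (.var vCT))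
  (.seq (mulC vK0 (.var vNN) (.var vM))
  (.seq (.set vK0 (.add (.var vK0) (.lit 1)))
    (.ifLt (.var vK) (.var vK0)
      (.seq (.set vKK (.var vK)) (.set vRest (.lit 0)))
      (.seq (.set vKK (.var vK0)) (.set vRest (.sub (.var vK) (.var vK0))))))))))

/-- the part of the algorithm following the computation of the loop bounds -/
def mainC : Cmd :=
  .seq readC (.seq boundC
  (.seq solveC
  (.seq (for2 (.put aOut (.var vU) (.var vV) (.get aXO (.var vU) (.var vV))))
  (.seq (for2 (.put aD (.var vU) (.var vV) (.lit 0)))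
  (.seq (.set vKK (.lit 1))
  (.seq solveC
    (for2 (.seq (mulC vX (.get aXO (.var vU) (.var vV)) (.var vRest))
      (.put aOut (.var vU) (.var vV) (.add (.get aOut (.var vU) (.var vV)) (.var vX)))))))))))

/-- the complete algorithm -/
def algorithm : Cmd := .seq initC mainC

/-! ## The input -/

/-- The input: a digraph on `Fin n` with arcs `(tail i, head i)`, `i < m`, vertex sets `S`, `T` and
the requirement `k`. -/
def input {n m : ℕ} (tail head : Fin m → Fin n) (S T : Finset (Fin n)) (k : ℕ) : Mem where
  v x := if x = vN then n else if x = vM then m else if x = vK then k else 0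
  a b i j :=
    if j = 0 ∧ 0 ≤ i then
      (if b = aTail then (if h : i.toNat < m then ((tail ⟨i.toNat, h⟩ : ℕ) : ℤ) else 0)
      else if b = aHead then (if h : i.toNat < m then ((head ⟨i.toNat, h⟩ : ℕ) : ℤ) else 0)
      else if b = aS then (if h : i.toNat < n then (if (⟨i.toNat, h⟩ : Fin n) ∈ S then 1 else 0)
        else 0)
      else if b = aT then (if h : i.toNat < n then (if (⟨i.toNat, h⟩ : Fin n) ∈ T then 1 else 0)
        else 0)
      else 0)
    else 0

end Pool.Agent.H87.ST
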