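import Pool.Agent.H87.ST.Core
import Pool.Agent.H87.ST.Defs

set_option linter.unusedSectionVars false

namespace Pool.Agent.H87.ST

open Finset

section Menger
variable {V : Type*} [Fintype V] [DecidableEq V]

lemma uses_cons_cons (a b : V) (l : List V) (u v : V) :
    uses (a :: b :: l) u v = uses (b :: l) u v + (if a = u ∧ b = v then 1 else 0) := by
  unfold uses
  simp only [List.tail_cons, List.zip_cons_cons, List.count_cons]
  congr 1
  simp [Prod.ext_iff]

lemma uses_le_one {p : List V} (hp : p.Nodup) (u v : V) : uses p u v ≤ 1 := by
  unfold uses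
  have h1 : (p.zip p.tail).Nodup := by
    apply List.Nodup.of_map Prod.snd
    rw [List.map_snd_zip]
    · exact hp.tail
    · simp
  exact List.nodup_iff_count_le_one.1 h1 _

/-- net crossing of a path -/
lemma net_uses (X : Finset V) (p : List V) : ∀ s t, p.head? = some s → p.getLast? = some t →
    cutw (fun u v => (uses p u v : ℤ)) X - cutw (fun u v => (uses p v u : ℤ)) X =
      (if t ∈ X then 1 else 0) - (if s ∈ X then 1 else 0) := by
  induction p with
  | nil => intro s t h; simp at h
  | cons a l ih =>
    intro s t hs ht
    cases l with
    | nil =>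
      simp only [List.head?_cons, Option.some.injEq] at hs
      simp only [List.getLast?_singleton, Option.some.injEq] at ht
      subst hs; subst ht
      simp [cutw, uses]
    | cons b l =>
      simp only [List.head?_cons, Option.some.injEq] at hs
      subst hs
      rw [List.getLast?_cons_cons] at ht
      have h1 := ih b t (by simp) ht
      have h2 : (fun u v => (uses (a :: b :: l) u v : ℤ)) =
          fun u v => (uses (b :: l) u v : ℤ) + single a b u v := by
        funext u v
        rw [uses_cons_cons]
        unfold single
        by_cases h : u = a ∧ v = b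
        · obtain ⟨rfl, rfl⟩ := h; simp
        · have h' : ¬ (a = u ∧ b = v) := fun h'' => h ⟨h''.1.symm, h''.2.symm⟩
          rw [if_neg h, if_neg h']; simp
      have h3 : (fun u v => (uses (a :: b :: l) v u : ℤ)) =
          fun u v => (uses (b :: l) v u : ℤ) + single b a u v := by
        funext u v
        rw [uses_cons_cons]
        unfold single
        by_cases h : u = b ∧ v = a
        · obtain ⟨rfl, rfl⟩ := h; simp
        · have h' : ¬ (a = v ∧ b = u) := fun h'' => h ⟨h''.2.symm, h''.1.symm⟩
          rw [if_neg h, if_neg h']; simp
      rw [h2, h3, cutw_add, cutw_add, cutw_single, cutw_single]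
      have h4 : ind X a b - ind X b a = (if b ∈ X then 1 else 0) - (if a ∈ X then 1 else 0) := by
        unfold ind
        by_cases ha : a ∈ X <;> by_cases hb : b ∈ X <;> simp [ha, hb]
      linarith

/-- reachability by a path without repetitions along a relation -/
def PathR (r : V → V → Prop) (s t : V) (p : List V) : Prop :=
  IsPath s t p ∧ ∀ u v, 0 < uses p u v → r u v

lemma uses_append_singleton (p : List V) (w : V) (z : V) (hz : p.getLast? = some z) (u v : V) :
    uses (p ++ [w]) u v = uses p u v + (if z = u ∧ w = v then 1 else 0) := by
  induction p with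
  | nil => simp at hz
  | cons a l ih =>
    cases l with
    | nil =>
      simp only [List.getLast?_singleton, Option.some.injEq] at hz
      subst hz
      simp only [List.cons_append, List.nil_append]
      rw [uses_cons_cons]
      simp [uses]
    | cons b l =>
      rw [List.getLast?_cons_cons] at hz
      have h1 := ih hz
      simp only [List.cons_append] at h1 ⊢
      rw [uses_cons_cons, uses_cons_cons, h1]
      ring

lemma uses_prefix_le (p q : List V) (u v : V) : uses p u v ≤ uses (p ++ q) u v := by
  induction p with
  | nil => simp [uses]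
  | cons a l ih =>
    cases l with
    | nil => simp [uses]
    | cons b l =>
      simp only [List.cons_append] at ih ⊢
      rw [uses_cons_cons, uses_cons_cons]
      omega

lemma PathR.refl (r : V → V → Prop) (s : V) : PathR r s s [s] :=
  ⟨⟨by simp, by simp, by simp⟩, by simp [uses]⟩

lemma PathR.extend {r : V → V → Prop} {s u w : V} {p : List V} (hp : PathR r s u p)
    (huw : r u w) : ∃ q, PathR r s w q := by
  by_cases hw : w ∈ p
  · obtain ⟨l1, l2, h⟩ := List.append_of_mem hw
    refine ⟨l1 ++ [w], ⟨⟨?_, by simp, ?_⟩, ?_⟩⟩
    · have := hp.1.1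
      rw [h] at this
      cases l1 with
      | nil => simpa using this
      | cons a l => simpa using this
    · have := hp.1.2.2
      rw [h] at this
      have h2 : l1 ++ w :: l2 = (l1 ++ [w]) ++ l2 := by simp
      rw [h2] at this
      exact (List.nodup_append.1 this).1
    · intro a b hab
      refine hp.2 a b ?_
      rw [h]
      have h2 : l1 ++ w :: l2 = (l1 ++ [w]) ++ l2 := by simp
      rw [h2]
      exact lt_of_lt_of_le hab (uses_prefix_le _ _ _ _)
  · refine ⟨p ++ [w], ⟨⟨?_, by simp, ?_⟩, ?_⟩⟩
    · have := hp.1.1
      cases p with
      | nil => simp at this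
      | cons a l => simpa using this
    · rw [List.nodup_append]
      refine ⟨hp.1.2.2, by simp, ?_⟩
      intro a ha b hb
      simp only [List.mem_singleton] at hb
      subst hb
      rintro rfl
      exact hw ha
    · intro a b hab
      rw [uses_append_singleton p w u hp.1.2.1] at hab
      by_cases h : u = a ∧ w = b
      · obtain ⟨rfl, rfl⟩ := h; exact huw
      · rw [if_neg h] at hab
        exact hp.2 a b (by omega)

/-- either there is a path or a closed set separates -/
lemma path_or_closed (r : V → V → Prop) (s t : V) :
    (∃ p, PathR r s t p) ∨ ∃ X : Finset V, s ∉ X ∧ t ∈ X ∧ ∀ u v, u ∉ X → v ∈ X → ¬ r u v := by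
  classical
  by_cases h : ∃ p, PathR r s t p
  · exact Or.inl h
  · refine Or.inr ⟨univ.filter fun v => ¬ ∃ p, PathR r s v p, ?_, ?_, ?_⟩
    · simp only [Finset.mem_filter, Finset.mem_univ, true_and, not_not]
      exact ⟨[s], PathR.refl r s⟩
    · simpa using h
    · intro u v hu hv huv
      simp only [Finset.mem_filter, Finset.mem_univ, true_and, not_not] at hu hv
      obtain ⟨p, hp⟩ := hu
      exact hv (hp.extend huv)

/-- decomposition of a flow into paths -/
lemma flow_decomp (s t : V) (k : ℕ) : ∀ f : V → V → ℤ, (∀ u v, f u v = - f v u) →
    (∀ X, cutw f X = k * ((if t ∈ X then 1 else 0) - (if s ∈ X then 1 else 0))) →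
    ∃ P : Fin k → List V, (∀ i, IsPath s t (P i)) ∧
      ∀ u v, ((∑ i, uses (P i) u v : ℕ) : ℤ) ≤ max (f u v) 0 := by
  induction k with
  | zero =>
    intro f _ _
    exact ⟨fun i => i.elim0, fun i => i.elim0, fun u v => by simp⟩
  | succ k ih =>
    intro f hf hcut
    rcases path_or_closed (fun u v => 0 < f u v) s t with ⟨p, hp⟩ | ⟨X, hs, ht, hX⟩
    · have hU1 : ∀ u v, 0 < uses p u v → uses p u v = 1 ∧ 0 < f u v := by
        intro u v h
        have := uses_le_one hp.1.2.2 u v
        exact ⟨by omega, hp.2 u v h⟩
      obtain ⟨P, hP, hPf⟩ := ih (fun u v => f u v + (uses p v u - uses p u v)) (by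
        intro u v; rw [hf u v]; ring) (by
        intro X
        have h1 := net_uses X p s t hp.1.1 hp.1.2.1
        have h2 : cutw (fun u v => f u v + ((uses p v u : ℤ) - uses p u v)) X =
            cutw f X + cutw (fun u v => (uses p v u : ℤ)) X - cutw (fun u v => (uses p u v : ℤ)) X := by
          rw [cutw_add f]
          have : cutw (fun u v => (uses p v u : ℤ)) X =
              cutw (fun u v => (uses p v u : ℤ) - uses p u v) X +
              cutw (fun u v => (uses p u v : ℤ)) X := by
            rw [← cutw_add]; simp
          linarith
        rw [h2, hcut X]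
        push_cast
        linarith)
      refine ⟨Fin.cons p P, ?_, ?_⟩
      · intro i
        refine Fin.cases ?_ (fun j => ?_) i
        · simpa using hp.1
        · simpa using hP j
      · intro u v
        rw [Fin.sum_univ_succ]
        simp only [Fin.cons_zero, Fin.cons_succ]
        have h1 := hPf u v
        have h2 := uses_le_one hp.1.2.2 u v
        have h3 := uses_le_one hp.1.2.2 v u
        have h4 := hf u v
        push_cast at h1 ⊢
        rcases Nat.eq_zero_or_pos (uses p u v) with h5 | h5
        · rcases Nat.eq_zero_or_pos (uses p v u) with h6 | h6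
          · rw [h5, h6] at h1
            rw [h5]
            simpa using h1
          · obtain ⟨h7, h8⟩ := hU1 v u h6
            rw [h5, h7] at h1
            rw [h5]
            have h9 : max (f u v + ((1 : ℕ) - (0 : ℕ) : ℤ)) 0 = 0 := by
              apply max_eq_right
              push_cast
              omega
            rw [h9] at h1
            have := le_max_right (f u v) 0
            push_cast
            linarith
        · obtain ⟨h7, h8⟩ := hU1 u v h5
          have h6 : uses p v u = 0 := by
            by_contra h6
            have := (hU1 v u (Nat.pos_of_ne_zero h6)).2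
            omega
          rw [h7, h6] at h1
          rw [h7]
          have h9 : max (f u v + ((0 : ℕ) - (1 : ℕ) : ℤ)) 0 = f u v - 1 := by
            push_cast
            rw [max_eq_left] <;> omega
          rw [h9] at h1
          have := le_max_left (f u v) 0
          push_cast
          linarith
    · exfalso
      have h1 := hcut X
      rw [if_pos ht, if_neg hs] at h1
      have h2 : cutw f X ≤ 0 := by
        unfold cutw
        refine Finset.sum_nonpos fun u _ => Finset.sum_nonpos fun v _ => ?_
        split_ifs with h
        · have := hX u v h.1 h.2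
          push Not at this
          exact this
        · exact le_refl _
      push_cast at h1
      have : (0 : ℤ) ≤ k := Int.natCast_nonneg k
      linarith

/-- existence of a flow of value `k` -/
lemma exists_flow (G : V → V → ℤ) (hG : ∀ u v, 0 ≤ G u v) (s t : V) (k : ℕ)
    (hcut : ∀ X : Finset V, s ∉ X → t ∈ X → (k : ℤ) ≤ cutw G X) :
    ∀ j : ℕ, j ≤ k → ∃ f : V → V → ℤ, (∀ u v, f u v = - f v u) ∧ (∀ u v, f u v ≤ G u v) ∧
    (∀ X, cutw f X = j * ((if t ∈ X then 1 else 0) - (if s ∈ X then 1 else 0))) := by
  intro j
  induction j with
  | zero =>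
    intro _
    exact ⟨fun _ _ => 0, fun _ _ => by simp, hG, fun X => by simp [cutw]⟩
  | succ j ih =>
    intro hj
    obtain ⟨f, hf, hfG, hfc⟩ := ih (by omega)
    rcases path_or_closed (fun u v => f u v < G u v) s t with ⟨p, hp⟩ | ⟨X, hs, ht, hX⟩
    · refine ⟨fun u v => f u v + (uses p u v - uses p v u), ?_, ?_, ?_⟩
      · intro u v; simp only; rw [hf u v]; ring
      · intro u v
        have h2 := uses_le_one hp.1.2.2 u v
        simp only
        rcases Nat.eq_zero_or_pos (uses p u v) with h5 | h5
        · rw [h5]
          have := hfG u v
          push_cast; linarith [Int.natCast_nonneg (uses p v u)]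
        · have h6 : uses p u v = 1 := by omega
          rw [h6]
          have := hp.2 u v h5
          push_cast; linarith [Int.natCast_nonneg (uses p v u)]
      · intro X
        have h1 := net_uses X p s t hp.1.1 hp.1.2.1
        have h2 : cutw (fun u v => f u v + ((uses p u v : ℤ) - uses p v u)) X =
            cutw f X + cutw (fun u v => (uses p u v : ℤ)) X - cutw (fun u v => (uses p v u : ℤ)) X := by
          rw [cutw_add f]
          have : cutw (fun u v => (uses p u v : ℤ)) X =
              cutw (fun u v => (uses p u v : ℤ) - uses p v u) X +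
              cutw (fun u v => (uses p v u : ℤ)) X := by
            rw [← cutw_add]; simp
          linarith
        rw [h2, hfc X]
        push_cast
        linarith
    · exfalso
      have h1 := hfc X
      rw [if_pos ht, if_neg hs] at h1
      have h2 := hcut X hs ht
      have h3 : cutw G X ≤ cutw f X := by
        unfold cutw
        refine Finset.sum_le_sum fun u _ => Finset.sum_le_sum fun v _ => ?_
        split_ifs with h
        · have := hX u v h.1 h.2
          push Not at this
          exact this
        · exact le_refl _
      have h4 : ((j : ℤ) + 1) ≤ k := by exact_mod_cast hj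
      linarith

/-- Menger's theorem (arc version, directed). -/
theorem menger (G : V → V → ℕ) (s t : V) (k : ℕ) :
    DisjointPaths G s t k ↔
      ∀ X : Finset V, s ∉ X → t ∈ X → (k : ℤ) ≤ cutw (fun u v => (G u v : ℤ)) X := by
  constructor
  · rintro ⟨P, hP, hPG⟩ X hs ht
    have h1 : ∀ i, (1 : ℤ) ≤ cutw (fun u v => (uses (P i) u v : ℤ)) X := by
      intro i
      have h2 := net_uses X (P i) s t (hP i).1 (hP i).2.1
      rw [if_pos ht, if_neg hs] at h2
      have h3 := cutw_nonneg (c := fun u v => (uses (P i) v u : ℤ)) (fun _ _ => by positivity) X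
      linarith
    calc (k : ℤ) = ∑ _i : Fin k, (1 : ℤ) := by simp
      _ ≤ ∑ i, cutw (fun u v => (uses (P i) u v : ℤ)) X := Finset.sum_le_sum fun i _ => h1 i
      _ = cutw (fun u v => ((∑ i, uses (P i) u v : ℕ) : ℤ)) X := by
        simp only [cutw_eq]
        push_cast
        rw [Finset.sum_comm]
        refine Finset.sum_congr rfl fun u _ => ?_
        rw [Finset.sum_comm]
        refine Finset.sum_congr rfl fun v _ => ?_
        rw [Finset.mul_sum]
      _ ≤ _ := by
        simp only [cutw_eq]
        refine Finset.sum_le_sum fun u _ => Finset.sum_le_sum fun v _ => ?_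
        exact mul_le_mul_of_nonneg_left (by exact_mod_cast hPG u v) (ind_nonneg _ _ _)
  · intro h
    obtain ⟨f, hf, hfG, hfc⟩ := exists_flow (fun u v => (G u v : ℤ)) (fun _ _ => by positivity)
      s t k h k le_rfl
    obtain ⟨P, hP, hPf⟩ := flow_decomp s t k f hf hfc
    refine ⟨P, hP, fun u v => ?_⟩
    have h1 := hPf u v
    have h2 : max (f u v) 0 ≤ (G u v : ℤ) := max_le (hfG u v) (by positivity)
    exact_mod_cast h1.trans h2

end Menger
end Pool.Agent.H87.ST
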