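import Pool.Agent.H87.ST.Prog
import Pool.Agent.H87.ST.Menger

namespace Pool.Agent.H87.ST

lemma run_seq (c d : Cmd) (s : Mem) : (Cmd.seq c d).run s = d.run (c.run s) := rfl

lemma run_set (x : ℕ) (e : Exp) (s : Mem) : (Cmd.set x e).run s = s.setv x (e.val s) := rfl

lemma run_put (b : ℕ) (i j e : Exp) (s : Mem) :
    (Cmd.put b i j e).run s = s.seta b (i.val s) (j.val s) (e.val s) := rfl

lemma run_if (e f : Exp) (c d : Cmd) (s : Mem) :
    (Cmd.ifLt e f c d).run s = if e.val s < f.val s then c.run s else d.run s := rfl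

lemma run_skip (s : Mem) : Cmd.skip.run s = s := rfl

lemma val_lit (z : ℤ) (s : Mem) : (Exp.lit z).val s = z := rfl

lemma val_var (x : ℕ) (s : Mem) : (Exp.var x).val s = s.v x := rfl

lemma setv_v (s : Mem) (x : ℕ) (z : ℤ) (y : ℕ) :
    (s.setv x z).v y = if y = x then z else s.v y := rfl

lemma seta_a (s : Mem) (b : ℕ) (i j z : ℤ) (c : ℕ) (i' j' : ℤ) :
    (s.seta b i j z).a c i' j' = if c = b ∧ i' = i ∧ j' = j then z else s.a c i' j' := rfl

lemma seta_ne (s : Mem) {b c : ℕ} (i j z : ℤ) (h : c ≠ b) : (s.seta b i j z).a c = s.a c := by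
  funext i' j'; simp [seta_a, h]

theorem loop2_inv (x1 x2 : ℕ) (hx : x1 ≠ x2) (h1 : vN ≠ x1) (h2 : vN ≠ x2) (c : Cmd)
    (hw : c.wr vN = false) (hw1 : c.wr x1 = false) (s : Mem) (n : ℕ) (hn : s.v vN = n)
    (P : ℕ → ℕ → Mem → Prop) (h0 : P 0 0 s)
    (hU : ∀ i < n, ∀ s', P i 0 s' → P i 0 (s'.setv x1 i))
    (hstep : ∀ i < n, ∀ j < n, ∀ s' : Mem,
      (∀ z, z ≠ x1 → z ≠ x2 → c.wr z = false → s'.v z = s.v z) →
      (∀ b, c.wra b = false → s'.a b = s.a b) → s'.v x1 = i → P i j s' →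
      P i (j + 1) (c.run (s'.setv x2 j)))
    (hwrap : ∀ i < n, ∀ s', P i n s' → P (i + 1) 0 s') :
    P n 0 ((Cmd.loop x1 vN (.loop x2 vN c)).run s) := by
  refine loop_inv x1 vN _ s n hn (fun i s' => P i 0 s') h0 ?_
  intro i hi s' hv ha hP
  have hn' : (s'.setv x1 i).v vN = n := by
    rw [setv_ne _ _ h1, hv vN h1 ?_, hn]
    simp only [Cmd.wr, hw, Bool.or_false, beq_eq_false_iff_ne]
    exact h2
  refine hwrap i hi _ (loop_inv x2 vN _ _ n hn' (fun j s'' => P i j s'') (hU i hi _ hP) ?_)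
  intro j hj s'' hv' ha' hP'
  refine hstep i hi j hj s'' ?_ ?_ ?_ hP'
  · intro z hz1 hz2 hwz
    rw [hv' z hz2 hwz, setv_ne _ _ hz1, hv z hz1 ?_]
    simp only [Cmd.wr, hwz, Bool.or_false, beq_eq_false_iff_ne]
    exact hz2
  · intro b hb
    rw [ha' b hb, setv_a, ha b ?_]
    simp only [Cmd.wra, hb]
  · rw [hv' x1 hx hw1, setv_v, if_pos rfl]

/-- loop over all entries, each updating its own entry of array `b` -/
theorem loop2_map (x1 x2 : ℕ) (hx : x1 ≠ x2) (h1 : vN ≠ x1) (h2 : vN ≠ x2) (c : Cmd)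
    (hw : c.wr vN = false) (hw1 : c.wr x1 = false) (s : Mem) (n : ℕ) (hn : s.v vN = n)
    (b : ℕ) (F : ℕ → ℕ → ℤ)
    (hc : ∀ i < n, ∀ j < n, ∀ s' : Mem,
      (∀ z, z ≠ x1 → z ≠ x2 → c.wr z = false → s'.v z = s.v z) →
      (∀ b, c.wra b = false → s'.a b = s.a b) → s'.v x1 = i →
      (s'.a b i j = s.a b i j) →
      ∀ i' j' : ℕ, (c.run (s'.setv x2 j)).a b i' j' =
        if i' = i ∧ j' = j then F i j else s'.a b i' j') :
    ∀ i < n, ∀ j < n, ((Cmd.loop x1 vN (.loop x2 vN c)).run s).a b (i : ℕ) (j : ℕ) = F i j := by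
  have key := loop2_inv x1 x2 hx h1 h2 c hw hw1 s n hn
    (fun i j s' => ∀ i' < n, ∀ j' < n, s'.a b (i' : ℕ) (j' : ℕ) =
      if i' < i ∨ (i' = i ∧ j' < j) then F i' j' else s.a b i' j')
    (by intro i' _ j' _; simp) (by intro i _ s' h; exact h)
    (by
      intro i hi j hj s' hv ha hs hP i' hi' j' hj'
      rw [hc i hi j hj s' hv ha hs (by rw [hP i hi j hj]; simp) i' j', hP i' hi' j' hj']
      by_cases h3 : i' = i
      · subst h3
        by_cases h4 : j' = j
        · subst h4; simp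
        · by_cases h5 : j' < j
          · have : j' < j + 1 := by omega
            simp [h4, h5, this]
          · have : ¬ j' < j + 1 := by omega
            simp [h4, h5, this]
      · simp [h3])
    (by
      intro i hi s' hP i' hi' j' hj'
      rw [hP i' hi' j' hj']
      by_cases h3 : i' < i
      · have : i' < i + 1 := by omega
        simp [h3, this]
      · by_cases h4 : i' = i
        · subst h4; simp [hj']
        · have : ¬ i' < i + 1 := by omega
          have h5 : ¬ (i' = i + 1 ∧ j' < 0) := by omega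
          simp [h3, h4, this])
  intro i hi j hj
  have := key i hi j hj
  rw [this, if_pos (Or.inl hi)]

/-- multiplication by repeated addition -/
theorem mul_spec (dst : ℕ) (x y : Exp) (s : Mem) (B : ℕ) (hB : s.v vB = B)
    (hd1 : dst ≠ vMa) (hd2 : dst ≠ vMb) (hd3 : dst ≠ vMi) (hd4 : dst ≠ vB)
    (hy : y.val (s.setv vMa (x.val s)) = y.val s) (h0 : 0 ≤ x.val s) (h1 : x.val s ≤ B) :
    ((mulC dst x y).run s).v dst = x.val s * y.val s := by
  unfold mulC
  simp only [Cmd.run, hy]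
  set s3 : Mem := (((s.setv vMa (x.val s)).setv vMb (y.val s)).setv dst ((Exp.lit 0).val
    ((s.setv vMa (x.val s)).setv vMb (y.val s)))) with hs3
  have h3B : s3.v vB = B := by
    rw [hs3, setv_ne _ _ (Ne.symm hd4), setv_ne _ _ (by decide), setv_ne _ _ (by decide), hB]
  have key := loop_inv vMi vB (.ifLt (.var vMi) (.var vMa) (.set dst (.add (.var dst) (.var vMb)))
    .skip) s3 B h3B (fun j s' => s'.v dst = min (j : ℤ) (x.val s) * y.val s)
    (by
      simp only [hs3]
      rw [setv_v, if_pos rfl]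
      simp [Exp.val, h0]) ?_
  · simp only [Cmd.run] at key
    rw [key, min_eq_right h1]
  · intro j hj s' hv ha hP
    have hMa : s'.v vMa = x.val s := by
      rw [hv vMa (by decide) (by simp [Cmd.wr]; simpa using Ne.symm hd1), hs3,
        setv_ne _ _ (Ne.symm hd1), setv_ne _ _ (by decide), setv_v, if_pos rfl]
    have hMb : s'.v vMb = y.val s := by
      rw [hv vMb (by decide) (by simp [Cmd.wr]; simpa using Ne.symm hd2), hs3,
        setv_ne _ _ (Ne.symm hd2), setv_v, if_pos rfl]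
    have e1 : (Exp.var vMi).val (s'.setv vMi j) = j := by simp [Exp.val, setv_v]
    have e2 : (Exp.var vMa).val (s'.setv vMi j) = x.val s := by
      rw [← hMa]; simp [Exp.val, setv_v]
    have e3 : (Exp.add (.var dst) (.var vMb)).val (s'.setv vMi j) = s'.v dst + y.val s := by
      rw [← hMb]
      simp only [Exp.val]
      rw [setv_ne _ _ hd3, setv_ne _ _ (by decide)]
    simp only [Cmd.run]
    rw [e1, e2, e3]
    split_ifs with h
    · rw [setv_v, if_pos rfl, hP, min_eq_left h.le, min_eq_left (by push_cast; omega)]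
      push_cast; ring
    · rw [setv_ne _ _ hd3, hP, min_eq_right (by omega), min_eq_right (by push_cast; omega)]

end Pool.Agent.H87.ST
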