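import Mathlib

set_option linter.unusedSectionVars false

namespace Pool.Agent.H87.ST

open Finset

section Core
variable {V : Type*} [Fintype V] [DecidableEq V]

/-- Total weight of the arcs entering `X`. -/
def cutw (c : V → V → ℤ) (X : Finset V) : ℤ :=
  ∑ u, ∑ v, if u ∉ X ∧ v ∈ X then c u v else 0

/-- `X` separates some element of `S` (outside) from some element of `T` (inside). -/
def IsCut (S T X : Finset V) : Prop := (∃ s ∈ S, s ∉ X) ∧ (∃ t ∈ T, t ∈ X)

/-- `x` is a feasible vector of new arcs from `S` to `T`. -/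
def Covers (S T : Finset V) (D : V → V → ℤ) (k : ℤ) (x : V → V → ℤ) : Prop :=
  (∀ u v, 0 ≤ x u v) ∧ (∀ u v, ¬ (u ∈ S ∧ v ∈ T) → x u v = 0) ∧
    ∀ X, IsCut S T X → k ≤ cutw D X + cutw x X

/-- number of new arcs -/
def tot (x : V → V → ℤ) : ℤ := ∑ u, ∑ v, x u v

/-- the unit vector of one arc -/
def single (a b : V) : V → V → ℤ := fun u v => if u = a ∧ v = b then 1 else 0

/-- no arc from `S` to `T` covers two distinct members -/
def Indep (S T : Finset V) (F : Finset (Finset V)) : Prop :=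
  (∀ X ∈ F, IsCut S T X) ∧
  ∀ X ∈ F, ∀ Y ∈ F, X ≠ Y → ∀ u ∈ S, ∀ v ∈ T, ¬ (u ∉ X ∧ v ∈ X ∧ u ∉ Y ∧ v ∈ Y)

/-- indicator that `(u,v)` enters `X` -/
def ind (X : Finset V) (u v : V) : ℤ := if u ∉ X ∧ v ∈ X then 1 else 0

lemma ind_nonneg (X : Finset V) (u v : V) : 0 ≤ ind X u v := by
  unfold ind; split_ifs <;> norm_num

lemma ind_le_one (X : Finset V) (u v : V) : ind X u v ≤ 1 := by
  unfold ind; split_ifs <;> norm_num

lemma cutw_eq (c : V → V → ℤ) (X : Finset V) : cutw c X = ∑ u, ∑ v, ind X u v * c u v := by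
  unfold cutw ind
  refine Finset.sum_congr rfl fun u _ => Finset.sum_congr rfl fun v _ => ?_
  split_ifs <;> simp

lemma cutw_add (c d : V → V → ℤ) (X : Finset V) :
    cutw (fun u v => c u v + d u v) X = cutw c X + cutw d X := by
  simp only [cutw_eq, mul_add, Finset.sum_add_distrib]

lemma cutw_smul (r : ℤ) (c : V → V → ℤ) (X : Finset V) :
    cutw (fun u v => r * c u v) X = r * cutw c X := by
  simp only [cutw_eq, Finset.mul_sum]
  refine Finset.sum_congr rfl fun u _ => Finset.sum_congr rfl fun v _ => ?_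
  ring

lemma cutw_single (a b : V) (X : Finset V) : cutw (single a b) X = ind X a b := by
  rw [cutw_eq]
  rw [Finset.sum_eq_single a, Finset.sum_eq_single b]
  · simp [single]
  · intro v _ hv; simp [single, hv]
  · simp
  · intro u _ hu
    refine Finset.sum_eq_zero fun v _ => ?_
    simp [single, hu]
  · simp

lemma cutw_nonneg {c : V → V → ℤ} (hc : ∀ u v, 0 ≤ c u v) (X : Finset V) : 0 ≤ cutw c X := by
  rw [cutw_eq]
  exact Finset.sum_nonneg fun u _ => Finset.sum_nonneg fun v _ =>
    mul_nonneg (ind_nonneg _ _ _) (hc u v)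

lemma tot_nonneg {c : V → V → ℤ} (hc : ∀ u v, 0 ≤ c u v) : 0 ≤ tot c :=
  Finset.sum_nonneg fun u _ => Finset.sum_nonneg fun v _ => hc u v

lemma cutw_le_tot {c : V → V → ℤ} (hc : ∀ u v, 0 ≤ c u v) (X : Finset V) : cutw c X ≤ tot c := by
  rw [cutw_eq]
  refine Finset.sum_le_sum fun u _ => Finset.sum_le_sum fun v _ => ?_
  have := ind_le_one X u v
  nlinarith [hc u v]

lemma tot_add (c d : V → V → ℤ) : tot (fun u v => c u v + d u v) = tot c + tot d := by
  simp only [tot, Finset.sum_add_distrib]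

lemma tot_smul (r : ℤ) (c : V → V → ℤ) : tot (fun u v => r * c u v) = r * tot c := by
  simp only [tot, Finset.mul_sum]

lemma tot_single (a b : V) : tot (single a b) = 1 := by
  unfold tot
  rw [Finset.sum_eq_single a, Finset.sum_eq_single b]
  · simp [single]
  · intro v _ hv; simp [single, hv]
  · simp
  · intro u _ hu
    refine Finset.sum_eq_zero fun v _ => ?_
    simp [single, hu]
  · simp

lemma ind_inter_union (X Y : Finset V) (u v : V) :
    ind (X ∩ Y) u v + ind (X ∪ Y) u v ≤ ind X u v + ind Y u v := by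
  unfold ind
  simp only [Finset.mem_inter, Finset.mem_union]
  by_cases h1 : u ∈ X <;> by_cases h2 : u ∈ Y <;> by_cases h3 : v ∈ X <;> by_cases h4 : v ∈ Y <;>
    simp [h1, h2, h3, h4]

lemma cutw_submod {c : V → V → ℤ} (hc : ∀ u v, 0 ≤ c u v) (X Y : Finset V) :
    cutw c (X ∩ Y) + cutw c (X ∪ Y) ≤ cutw c X + cutw c Y := by
  simp only [cutw_eq, ← Finset.sum_add_distrib, ← add_mul]
  exact Finset.sum_le_sum fun u _ => Finset.sum_le_sum fun v _ =>
    mul_le_mul_of_nonneg_right (ind_inter_union X Y u v) (hc u v)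

/-- weak duality for an indexed family -/
lemma weak_dual_fam {ι : Type*} (I : Finset ι) (S T : Finset V) {D : V → V → ℤ} {k : ℤ}
    {x : V → V → ℤ} (hx : Covers S T D k x) (Y : ι → Finset V) (hY : ∀ i ∈ I, IsCut S T (Y i)) :
    ∑ i ∈ I, (k - cutw D (Y i)) ≤ ∑ u, ∑ v, x u v * ∑ i ∈ I, ind (Y i) u v := by
  calc ∑ i ∈ I, (k - cutw D (Y i)) ≤ ∑ i ∈ I, cutw x (Y i) := by
        refine Finset.sum_le_sum fun i hi => ?_
        have := hx.2.2 (Y i) (hY i hi)
        linarith
    _ = ∑ u, ∑ v, x u v * ∑ i ∈ I, ind (Y i) u v := by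
        simp only [cutw_eq]
        rw [Finset.sum_comm]
        refine Finset.sum_congr rfl fun u _ => ?_
        rw [Finset.sum_comm]
        refine Finset.sum_congr rfl fun v _ => ?_
        rw [Finset.mul_sum]
        exact Finset.sum_congr rfl fun i _ => by ring

lemma indep_sum_ind_le {S T : Finset V} {F : Finset (Finset V)} (hF : Indep S T F) {u v : V}
    (hu : u ∈ S) (hv : v ∈ T) : ∑ X ∈ F, ind X u v ≤ 1 := by
  by_cases h : ∃ X ∈ F, u ∉ X ∧ v ∈ X
  · obtain ⟨X, hX, h1, h2⟩ := h
    rw [Finset.sum_eq_single X]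
    · exact ind_le_one _ _ _
    · intro Y hY hne
      unfold ind
      rw [if_neg]
      rintro ⟨h3, h4⟩
      exact hF.2 X hX Y hY (Ne.symm hne) u hu v hv ⟨h1, h2, h3, h4⟩
    · intro h; exact absurd hX h
  · push Not at h
    rw [Finset.sum_eq_zero]
    · norm_num
    · intro X hX
      unfold ind
      rw [if_neg]
      rintro ⟨h3, h4⟩
      exact h X hX h3 h4

/-- weak duality -/
lemma weak_dual {S T : Finset V} {D : V → V → ℤ} {k : ℤ} {x : V → V → ℤ}
    (hx : Covers S T D k x) {F : Finset (Finset V)} (hF : Indep S T F) :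
    ∑ X ∈ F, (k - cutw D X) ≤ tot x := by
  refine (weak_dual_fam F S T hx id hF.1).trans ?_
  refine Finset.sum_le_sum fun u _ => Finset.sum_le_sum fun v _ => ?_
  by_cases h : u ∈ S ∧ v ∈ T
  · have := indep_sum_ind_le hF h.1 h.2
    have h0 := hx.1 u v
    simp only [id]
    nlinarith
  · rw [hx.2.1 u v h]; simp

/-! ### uncrossing -/

lemma sum_update2 {ι α : Type*} [Fintype ι] [DecidableEq ι] (f : α → ℤ) (Y : ι → α) {i j : ι}
    (hij : i ≠ j) (a b : α) :
    ∑ l, f (Function.update (Function.update Y i a) j b l) =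
      ∑ l, f (Y l) - f (Y i) - f (Y j) + f a + f b := by
  have h1 : ∀ g : ι → ℤ, ∑ l, g l = g i + g j + ∑ l ∈ (univ.erase i).erase j, g l := by
    intro g
    rw [← Finset.add_sum_erase univ g (Finset.mem_univ i),
      ← Finset.add_sum_erase (univ.erase i) g (Finset.mem_erase.2 ⟨hij.symm, Finset.mem_univ j⟩)]
    ring
  rw [h1, h1 (fun l => f (Y l))]
  have h2 : ∑ l ∈ (univ.erase i).erase j, f (Function.update (Function.update Y i a) j b l) =
      ∑ l ∈ (univ.erase i).erase j, f (Y l) := by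
    refine Finset.sum_congr rfl fun l hl => ?_
    simp only [Finset.mem_erase] at hl
    rw [Function.update_of_ne hl.1, Function.update_of_ne hl.2.1]
  rw [h2]
  simp [Function.update_of_ne hij]
  ring

lemma exists_crossfree {ι : Type*} [Fintype ι] [DecidableEq ι] (S T : Finset V)
    {D : V → V → ℤ} (hD : ∀ u v, 0 ≤ D u v) (k : ℤ) (c : ℤ) (Y : ι → Finset V)
    (hY : ∀ i, IsCut S T (Y i)) (hc : ∀ u ∈ S, ∀ v ∈ T, ∑ i, ind (Y i) u v ≤ c) :
    ∃ Z : ι → Finset V, (∀ i, IsCut S T (Z i)) ∧ (∀ u ∈ S, ∀ v ∈ T, ∑ i, ind (Z i) u v ≤ c) ∧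
      ∑ i, (k - cutw D (Y i)) ≤ ∑ i, (k - cutw D (Z i)) ∧
      ∀ i j, (∃ u ∈ S, ∃ v ∈ T, u ∉ Z i ∧ v ∈ Z i ∧ u ∉ Z j ∧ v ∈ Z j) →
        Z i ⊆ Z j ∨ Z j ⊆ Z i := by
  classical
  let P : (ι → Finset V) → Prop := fun Z => (∀ i, IsCut S T (Z i)) ∧
    (∀ u ∈ S, ∀ v ∈ T, ∑ i, ind (Z i) u v ≤ c) ∧
      ∑ i, (k - cutw D (Y i)) ≤ ∑ i, (k - cutw D (Z i))
  obtain ⟨Z, hZ, hmax⟩ := Finset.exists_max_image (univ.filter P)
    (fun Z => ∑ i, ((Z i).card : ℤ) ^ 2) ⟨Y, by simp [P]; exact ⟨hY, hc⟩⟩
  have hPZ : P Z := (Finset.mem_filter.1 hZ).2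
  refine ⟨Z, hPZ.1, hPZ.2.1, hPZ.2.2, ?_⟩
  rintro i j ⟨u, hu, v, hv, h1, h2, h3, h4⟩
  by_contra hcon
  push Not at hcon
  have hij : i ≠ j := by
    rintro rfl; exact hcon.1 (Finset.Subset.refl _)
  let Z' : ι → Finset V := Function.update (Function.update Z i (Z i ∩ Z j)) j (Z i ∪ Z j)
  have hP' : P Z' := by
    refine ⟨?_, ?_, ?_⟩
    · intro l
      by_cases hlj : l = j
      · subst hlj
        simp only [Z', Function.update_self]
        exact ⟨⟨u, hu, by simp [h1, h3]⟩, ⟨v, hv, by simp [h2]⟩⟩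
      · by_cases hli : l = i
        · subst hli
          simp only [Z', Function.update_of_ne hlj, Function.update_self]
          exact ⟨⟨u, hu, by simp [h1]⟩, ⟨v, hv, by simp [h2, h4]⟩⟩
        · simp only [Z', Function.update_of_ne hlj, Function.update_of_ne hli]
          exact hPZ.1 l
    · intro a ha b hb
      have := sum_update2 (fun X => ind X a b) Z hij (Z i ∩ Z j) (Z i ∪ Z j)
      have h5 := ind_inter_union (Z i) (Z j) a b
      have h6 := hPZ.2.1 a ha b hb
      simp only [Z']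
      linarith
    · have := sum_update2 (fun X => k - cutw D X) Z hij (Z i ∩ Z j) (Z i ∪ Z j)
      have h5 := cutw_submod hD (Z i) (Z j)
      have h6 := hPZ.2.2
      simp only [Z']
      linarith
  have hle := hmax Z' (Finset.mem_filter.2 ⟨Finset.mem_univ _, hP'⟩)
  have heq := sum_update2 (fun X : Finset V => (X.card : ℤ) ^ 2) Z hij (Z i ∩ Z j) (Z i ∪ Z j)
  have hcard : ((Z i ∪ Z j).card : ℤ) + ((Z i ∩ Z j).card : ℤ) = (Z i).card + (Z j).card := by
    exact_mod_cast Finset.card_union_add_card_inter (Z i) (Z j)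
  have hlt1 : ((Z i ∩ Z j).card : ℤ) < (Z i).card := by
    have : (Z i ∩ Z j).card < (Z i).card := by
      apply Finset.card_lt_card
      refine ⟨Finset.inter_subset_left, fun h => hcon.1 fun x hx => ?_⟩
      exact (Finset.mem_inter.1 (h hx)).2
    exact_mod_cast this
  have hlt2 : ((Z i ∩ Z j).card : ℤ) < (Z j).card := by
    have : (Z i ∩ Z j).card < (Z j).card := by
      apply Finset.card_lt_card
      refine ⟨Finset.inter_subset_right, fun h => hcon.2 fun x hx => ?_⟩
      exact (Finset.mem_inter.1 (h hx)).1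
    exact_mod_cast this
  have : (∑ l, ((Z' l).card : ℤ) ^ 2) > ∑ l, ((Z l).card : ℤ) ^ 2 := by
    simp only [Z']
    rw [heq]
    nlinarith [mul_pos (sub_pos.2 hlt1) (sub_pos.2 hlt2)]
  linarith

/-- Integrality of the dual: every family of cuts in which every arc enters at most `c` members
yields an independent family with at least a `1/c` fraction of the value. -/
theorem dual_integral {r : ℕ} (S T : Finset V)
    {D : V → V → ℤ} (hD : ∀ u v, 0 ≤ D u v) (k : ℤ) (c : ℕ) (Y : Fin r → Finset V)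
    (hY : ∀ i, IsCut S T (Y i)) (hc : ∀ u ∈ S, ∀ v ∈ T, ∑ i, ind (Y i) u v ≤ c) :
    ∃ F, Indep S T F ∧ ∑ i, (k - cutw D (Y i)) ≤ c * ∑ X ∈ F, (k - cutw D X) := by
  classical
  obtain ⟨Z, hZ, hZc, hZval, hcf⟩ := exists_crossfree S T hD k c Y hY hc
  -- the strict order
  let R : Fin r → Fin r → Prop := fun i j => Z i ⊂ Z j ∨ (Z i = Z j ∧ i < j)
  have Rtrans : ∀ {a b d}, R a b → R b d → R a d := by
    rintro a b d (h1 | ⟨h1, h1'⟩) (h2 | ⟨h2, h2'⟩)
    · exact Or.inl (h1.trans h2)
    · exact Or.inl (h2 ▸ h1)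
    · exact Or.inl (h1 ▸ h2)
    · exact Or.inr ⟨h1.trans h2, h1'.trans h2'⟩
  have Rirr : ∀ a, ¬ R a a := by
    rintro a (h | ⟨_, h⟩)
    · exact (lt_irrefl _ h)
    · exact lt_irrefl _ h
  have Rsub : ∀ {a b}, R a b → Z a ⊆ Z b := by
    rintro a b (h | ⟨h, _⟩)
    · exact h.1
    · rw [h]
  let Ch : Fin r → Finset (Finset (Fin r)) := fun i => univ.filter fun C =>
    i ∈ C ∧ (∀ a ∈ C, a = i ∨ R a i) ∧ ∀ a ∈ C, ∀ b ∈ C, a = b ∨ R a b ∨ R b a
  let h : Fin r → ℕ := fun i => (Ch i).sup Finset.card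
  have hmem : ∀ i, {i} ∈ Ch i := by
    intro i
    simp only [Ch, Finset.mem_filter, Finset.mem_univ, true_and, Finset.mem_singleton]
    refine ⟨fun a ha => Or.inl ha, ?_⟩
    rintro a rfl b rfl
    exact Or.inl rfl
  have hlt : ∀ i j, R i j → h i < h j := by
    intro i j hij
    obtain ⟨C, hC, hCc⟩ := Finset.exists_mem_eq_sup (Ch i) ⟨_, hmem i⟩ Finset.card
    have hCi := (Finset.mem_filter.1 hC).2
    have hj : j ∉ C := by
      intro hj
      rcases hCi.2.1 j hj with h1 | h1
      · exact Rirr i (h1 ▸ hij)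
      · exact Rirr _ (Rtrans hij h1)
    have h2 : insert j C ∈ Ch j := by
      simp only [Ch, Finset.mem_filter, Finset.mem_univ, true_and, Finset.mem_insert]
      refine ⟨Or.inl trivial, ?_, ?_⟩
      · rintro a (rfl | ha)
        · exact Or.inl rfl
        · rcases hCi.2.1 a ha with h1 | h1
          · exact Or.inr (h1 ▸ hij)
          · exact Or.inr (Rtrans h1 hij)
      · have hkey : ∀ a ∈ C, R a j := by
          intro a ha
          rcases hCi.2.1 a ha with h1 | h1
          · exact h1 ▸ hij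
          · exact Rtrans h1 hij
        rintro a (rfl | ha) b (rfl | hb)
        · exact Or.inl rfl
        · exact Or.inr (Or.inr (hkey b hb))
        · exact Or.inr (Or.inl (hkey a ha))
        · exact hCi.2.2 a ha b hb
    have h3 : (insert j C).card ≤ h j := Finset.le_sup (f := Finset.card) h2
    rw [Finset.card_insert_of_notMem hj] at h3
    change (Ch i).sup Finset.card < h j
    rw [hCc]
    omega
  have hpos : ∀ i, 1 ≤ h i := fun i => by
    have : ({i} : Finset (Fin r)).card ≤ h i := Finset.le_sup (f := Finset.card) (hmem i)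
    simpa using this
  have hle : ∀ i, h i ≤ c := by
    intro i
    obtain ⟨C, hC, hCc⟩ := Finset.exists_mem_eq_sup (Ch i) ⟨_, hmem i⟩ Finset.card
    have hCi := (Finset.mem_filter.1 hC).2
    change (Ch i).sup Finset.card ≤ c
    rw [hCc]
    obtain ⟨a0, ha0, hmin⟩ := Finset.exists_min_image C (fun a => (Z a).card) ⟨i, hCi.1⟩
    obtain ⟨u, hu, hui⟩ := (hZ i).1
    obtain ⟨v, hv, hva⟩ := (hZ a0).2
    have hall : ∀ a ∈ C, ind (Z a) u v = 1 := by
      intro a ha
      have hsub : Z a ⊆ Z i := by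
        rcases hCi.2.1 a ha with h1 | h1
        · rw [h1]
        · exact Rsub h1
      have hva' : v ∈ Z a := by
        rcases hCi.2.2 a ha a0 ha0 with h1 | h1 | h1
        · rw [h1]; exact hva
        · have := Finset.eq_of_subset_of_card_le (Rsub h1) (hmin a ha)
          rw [this]; exact hva
        · exact Rsub h1 hva
      unfold ind
      rw [if_pos ⟨fun h => hui (hsub h), hva'⟩]
    have h1 : (C.card : ℤ) = ∑ a ∈ C, ind (Z a) u v := by
      rw [Finset.sum_congr rfl hall]; simp
    have h2 : ∑ a ∈ C, ind (Z a) u v ≤ ∑ a, ind (Z a) u v :=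
      Finset.sum_le_sum_of_subset_of_nonneg (Finset.subset_univ _) fun a _ _ => ind_nonneg _ _ _
    have h3 := hZc u hu v hv
    have : (C.card : ℤ) ≤ c := by linarith
    exact_mod_cast this
  -- classes
  have hclass : ∀ m : ℕ, ∃ F, Indep S T F ∧
      ∑ i ∈ univ.filter (fun i => h i = m), (k - cutw D (Z i)) = ∑ X ∈ F, (k - cutw D X) := by
    intro m
    refine ⟨(univ.filter (fun i => h i = m)).image Z, ⟨?_, ?_⟩, ?_⟩
    · intro X hX
      obtain ⟨i, _, rfl⟩ := Finset.mem_image.1 hX
      exact hZ i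
    · intro X hX X' hX' hne u hu v hv hcov
      obtain ⟨i, hi, rfl⟩ := Finset.mem_image.1 hX
      obtain ⟨j, hj, rfl⟩ := Finset.mem_image.1 hX'
      have hi' := (Finset.mem_filter.1 hi).2
      have hj' := (Finset.mem_filter.1 hj).2
      rcases hcf i j ⟨u, hu, v, hv, hcov⟩ with h1 | h1
      · have : R i j := Or.inl (lt_of_le_of_ne h1 hne)
        have := hlt i j this
        omega
      · have : R j i := Or.inl (lt_of_le_of_ne h1 (Ne.symm hne))
        have := hlt j i this
        omega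
    · rw [Finset.sum_image]
      intro i hi j hj hij
      have hi' := (Finset.mem_filter.1 hi).2
      have hj' := (Finset.mem_filter.1 hj).2
      by_contra hne
      rcases lt_or_gt_of_ne hne with h1 | h1
      · have := hlt i j (Or.inr ⟨hij, h1⟩)
        omega
      · have := hlt j i (Or.inr ⟨hij.symm, h1⟩)
        omega
  rcases Nat.eq_zero_or_pos c with hc0 | hc0
  · -- no members
    refine ⟨∅, ⟨by simp, by simp⟩, ?_⟩
    have hr : IsEmpty (Fin r) := ⟨fun i => by
      have h1 := hpos i; have h2 := hle i; omega⟩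
    simp
  · choose F hF hFs using hclass
    obtain ⟨m, hm, hmmax⟩ := Finset.exists_max_image (Finset.Icc 1 c)
      (fun m => ∑ X ∈ F m, (k - cutw D X)) ⟨1, by simp; omega⟩
    refine ⟨F m, hF m, hZval.trans ?_⟩
    calc ∑ i, (k - cutw D (Z i))
        = ∑ m ∈ Finset.Icc 1 c, ∑ i ∈ univ.filter (fun i => h i = m), (k - cutw D (Z i)) := by
          rw [Finset.sum_fiberwise_of_maps_to]
          intro i _
          exact Finset.mem_Icc.2 ⟨hpos i, hle i⟩
      _ ≤ ∑ _m' ∈ Finset.Icc 1 c, ∑ X ∈ F m, (k - cutw D X) := by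
          refine Finset.sum_le_sum fun m' hm' => ?_
          rw [hFs m']
          exact hmmax m' hm'
      _ = c * ∑ X ∈ F m, (k - cutw D X) := by
          rw [Finset.sum_const, Nat.card_Icc, nsmul_eq_mul]
          simp


/-- value of a family -/
def val (D : V → V → ℤ) (k : ℤ) (F : Finset (Finset V)) : ℤ := ∑ X ∈ F, (k - cutw D X)

lemma Covers.add_single {S T : Finset V} {D : V → V → ℤ} {k : ℤ} {x : V → V → ℤ} {a b : V}
    (ha : a ∈ S) (hb : b ∈ T)
    (hx : Covers S T (fun u v => D u v + single a b u v) k x) :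
    Covers S T D k (fun u v => x u v + single a b u v) := by
  refine ⟨fun u v => ?_, fun u v huv => ?_, fun X hX => ?_⟩
  · have := hx.1 u v
    simp only [single]; split_ifs <;> linarith
  · simp only
    rw [hx.2.1 u v huv]
    unfold single
    rw [if_neg]
    · simp
    · rintro ⟨rfl, rfl⟩; exact huv ⟨ha, hb⟩
  · have := hx.2.2 X hX
    rw [cutw_add] at this ⊢
    linarith

/-- The min-max theorem (Frank and Jordan), upper bound: if every independent family has value at
most `N`, then `N` new arcs suffice. -/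
theorem minmax (S T : Finset V) (k : ℤ) (N : ℕ) : ∀ D : V → V → ℤ, (∀ u v, 0 ≤ D u v) →
    (∀ F, Indep S T F → val D k F ≤ N) → ∃ x, Covers S T D k x ∧ tot x ≤ N := by
  rcases Finset.eq_empty_or_nonempty (S ×ˢ T) with hemp | ⟨p0, hp0⟩
  · intro D hD hF
    refine ⟨fun _ _ => 0, ⟨fun _ _ => le_refl _, fun _ _ _ => rfl, fun X hX => ?_⟩, ?_⟩
    · obtain ⟨⟨s, hs, _⟩, ⟨t, ht, _⟩⟩ := hX
      exact absurd (Finset.mem_product.2 ⟨hs, ht⟩ : (s, t) ∈ S ×ˢ T) (by rw [hemp]; simp)
    · simp [tot]
  induction N with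
  | zero =>
    intro D hD hF
    refine ⟨fun _ _ => 0, ⟨fun _ _ => le_refl _, fun _ _ _ => rfl, fun X hX => ?_⟩, ?_⟩
    · have h1 := hF {X} ⟨by simpa using hX, by
        intro A hA B hB hne
        rw [Finset.mem_singleton] at hA hB
        exact absurd (hA.trans hB.symm) hne⟩
      have h2 : 0 ≤ cutw (fun _ _ => (0 : ℤ)) X := cutw_nonneg (fun _ _ => le_refl _) X
      simp only [val, Finset.sum_singleton, Nat.cast_zero] at h1
      linarith
    · simp [tot]
  | succ N ih =>
    intro D hD hF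
    by_cases hex : ∃ a ∈ S, ∃ b ∈ T, ∀ F, Indep S T F →
        val (fun u v => D u v + single a b u v) k F ≤ N
    · obtain ⟨a, ha, b, hb, hab⟩ := hex
      obtain ⟨x, hx, hxN⟩ := ih (fun u v => D u v + single a b u v)
        (fun u v => by
          have := hD u v
          simp only [single]; split_ifs <;> linarith) hab
      refine ⟨_, hx.add_single ha hb, ?_⟩
      rw [tot_add, tot_single]
      push_cast; linarith
    · exfalso
      push Not at hex
      -- for each arc, an optimal independent family missed by the arc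
      have hfam : ∀ p : V × V, p ∈ S ×ˢ T → ∃ F, Indep S T F ∧ val D k F = N + 1 ∧
          ∀ X ∈ F, ind X p.1 p.2 = 0 := by
        rintro ⟨a, b⟩ hp
        rw [Finset.mem_product] at hp
        obtain ⟨F, hFi, hFv⟩ := hex a hp.1 b hp.2
        have h1 := hF F hFi
        have h2 : val (fun u v => D u v + single a b u v) k F =
            val D k F - ∑ X ∈ F, ind X a b := by
          unfold val
          rw [← Finset.sum_sub_distrib]
          refine Finset.sum_congr rfl fun X _ => ?_
          rw [cutw_add, cutw_single]; ring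
        have h3 : 0 ≤ ∑ X ∈ F, ind X a b := Finset.sum_nonneg fun X _ => ind_nonneg _ _ _
        push_cast at h1
        have h4 : val D k F = N + 1 := by omega
        have h5 : ∑ X ∈ F, ind X a b = 0 := by omega
        exact ⟨F, hFi, h4, fun X hX =>
          (Finset.sum_eq_zero_iff_of_nonneg (fun X _ => ind_nonneg _ _ _)).1 h5 X hX⟩
      choose! F hFi hFv hFz using hfam
      -- the union of all these families, as an indexed family
      let I : Finset (Σ _ : V × V, Finset V) := (S ×ˢ T).sigma (fun p => F p)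
      have e := I.equivFin
      let Y : Fin I.card → Finset V := fun i => (e.symm i).1.2
      have hsum : ∀ g : Finset V → ℤ, ∑ i, g (Y i) = ∑ p ∈ S ×ˢ T, ∑ X ∈ F p, g X := by
        intro g
        have h1 : ∑ q ∈ I, g q.2 = ∑ p ∈ S ×ˢ T, ∑ X ∈ F p, g X := by
          simp only [I]
          rw [Finset.sum_sigma]
        rw [← h1, ← Finset.sum_coe_sort I (fun q => g q.2)]
        exact Equiv.sum_comp e.symm (fun q : I => g q.1.2)
      have hcut : ∀ i, IsCut S T (Y i) := by
        intro i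
        have := (e.symm i).2
        rw [Finset.mem_sigma] at this
        exact (hFi _ this.1).1 _ this.2
      obtain ⟨G, hG, hGv⟩ := dual_integral S T hD k ((S ×ˢ T).card - 1) Y hcut (by
        intro u hu v hv
        have h0 := hsum (fun X => ind X u v)
        rw [h0]
        have hmem : (u, v) ∈ S ×ˢ T := Finset.mem_product.2 ⟨hu, hv⟩
        rw [← Finset.add_sum_erase _ _ hmem]
        have h1 : ∑ X ∈ F (u, v), ind X u v = 0 :=
          Finset.sum_eq_zero fun X hX => hFz (u, v) hmem X hX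
        rw [h1, zero_add]
        calc ∑ p ∈ (S ×ˢ T).erase (u, v), ∑ X ∈ F p, ind X u v
            ≤ ∑ p ∈ (S ×ˢ T).erase (u, v), 1 := by
              refine Finset.sum_le_sum fun p hp => ?_
              exact indep_sum_ind_le (hFi p (Finset.mem_of_mem_erase hp)) hu hv
          _ = (((S ×ˢ T).card - 1 : ℕ) : ℤ) := by
              rw [Finset.sum_const, Finset.card_erase_of_mem hmem]; simp)
      have h0 := hsum (fun X => k - cutw D X)
      rw [h0] at hGv
      have h1 : ∑ p ∈ S ×ˢ T, ∑ X ∈ F p, (k - cutw D X) = (S ×ˢ T).card * ((N : ℤ) + 1) := by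
        refine (Finset.sum_congr rfl fun p hp => hFv p hp).trans ?_
        simp
      have h2 := hF G hG
      unfold val at h2
      rw [h1] at hGv
      have hc : 1 ≤ (S ×ˢ T).card := Finset.card_pos.2 ⟨p0, hp0⟩
      have h3 : (((S ×ˢ T).card - 1 : ℕ) : ℤ) = ((S ×ˢ T).card : ℤ) - 1 := by
        push_cast [hc]; ring
      rw [h3] at hGv
      have h4 : ((S ×ˢ T).card : ℤ) ≥ 1 := by exact_mod_cast hc
      push_cast at h2
      nlinarith

/-- Minimum number of new arcs. -/
def IsMin (S T : Finset V) (D : V → V → ℤ) (k m : ℤ) : Prop :=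
  (∃ x, Covers S T D k x ∧ tot x = m) ∧ ∀ x, Covers S T D k x → m ≤ tot x

/-- strong duality with integral solutions -/
theorem exists_opt (S T : Finset V) (k : ℤ) (D : V → V → ℤ) (hD : ∀ u v, 0 ≤ D u v) :
    ∃ m, IsMin S T D k m ∧ ∃ F, Indep S T F ∧ val D k F = m := by
  classical
  obtain ⟨F, hF, hmax⟩ := Finset.exists_max_image (univ.filter (Indep S T)) (val D k)
    ⟨∅, by simp [Indep]⟩
  have hFi := (Finset.mem_filter.1 hF).2
  have h0 : 0 ≤ val D k F := by
    have := hmax ∅ (by simp [Indep])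
    simpa [val] using this
  obtain ⟨x, hx, hxm⟩ := minmax S T k (val D k F).toNat D hD (by
    intro G hG
    rw [Int.toNat_of_nonneg h0]
    exact hmax G (by simpa using hG))
  rw [Int.toNat_of_nonneg h0] at hxm
  refine ⟨val D k F, ⟨⟨x, hx, le_antisymm hxm (weak_dual hx hFi)⟩, fun y hy => weak_dual hy hFi⟩,
    F, hFi, rfl⟩

lemma IsMin.unique {S T : Finset V} {D : V → V → ℤ} {k m m' : ℤ} (h : IsMin S T D k m)
    (h' : IsMin S T D k m') : m = m' := by
  obtain ⟨x, hx, hm⟩ := h.1
  obtain ⟨x', hx', hm'⟩ := h'.1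
  have h1 := h.2 x' hx'
  have h2 := h'.2 x hx
  linarith

lemma IsMin.nonneg {S T : Finset V} {D : V → V → ℤ} {k m : ℤ} (h : IsMin S T D k m) : 0 ≤ m := by
  obtain ⟨x, hx, hm⟩ := h.1
  rw [← hm]; exact tot_nonneg hx.1

/-- **Test, positive outcome.** A fractional cover of total weight less than `m + 1` forces the
minimum to be at most `m`. -/
theorem test_pos {S T : Finset V} {D : V → V → ℤ} (hD : ∀ u v, 0 ≤ D u v) {k m q : ℤ}
    (hm : IsMin S T D k m) {w : V → V → ℤ} (hw : ∀ u v, 0 ≤ w u v)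
    (hws : ∀ u v, ¬ (u ∈ S ∧ v ∈ T) → w u v = 0) (hW : 0 < tot w) (hq : 0 ≤ q)
    (h : ∀ X, IsCut S T X → k * (2 * tot w) ≤ q * cutw w X + 2 * tot w * cutw D X) :
    2 * m ≤ q := by
  obtain ⟨m', hm', F, hF, hFv⟩ := exists_opt S T k D hD
  have hmm := hm.unique hm'
  subst hmm
  have h1 : ∑ X ∈ F, (2 * tot w) * (k - cutw D X) ≤ ∑ X ∈ F, q * cutw w X := by
    refine Finset.sum_le_sum fun X hX => ?_
    have := h X (hF.1 X hX)
    linarith
  rw [← Finset.mul_sum, ← Finset.mul_sum] at h1
  have h2 : ∑ X ∈ F, cutw w X ≤ tot w := by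
    simp only [cutw_eq, tot]
    rw [Finset.sum_comm]
    refine Finset.sum_le_sum fun u _ => ?_
    rw [Finset.sum_comm]
    refine Finset.sum_le_sum fun v _ => ?_
    rw [← Finset.sum_mul]
    by_cases huv : u ∈ S ∧ v ∈ T
    · have := indep_sum_ind_le hF huv.1 huv.2
      nlinarith [hw u v]
    · rw [hws u v huv]; simp
  change 2 * tot w * val D k F ≤ _ at h1
  rw [hFv] at h1
  have h3 : 2 * tot w * m ≤ q * tot w := h1.trans (mul_le_mul_of_nonneg_left h2 hq)
  nlinarith

/-- weights of the arcs in the test -/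
def wt (S T : Finset V) (R : V → V → ℤ) : V → V → ℤ :=
  fun u v => if u ∈ S ∧ v ∈ T then max 0 (R u v) else 0

lemma wt_nonneg (S T : Finset V) (R : V → V → ℤ) (u v : V) : 0 ≤ wt S T R u v := by
  unfold wt; split_ifs
  · exact le_max_left _ _
  · exact le_refl _

lemma wt_supp (S T : Finset V) (R : V → V → ℤ) (u v : V) (h : ¬ (u ∈ S ∧ v ∈ T)) :
    wt S T R u v = 0 := by
  unfold wt; rw [if_neg h]

/-- Invariant of the test loop after `j` rounds. -/
def TInv (S T : Finset V) (D : V → V → ℤ) (k q L : ℤ) (R : V → V → ℤ) (j : ℕ) : Prop :=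
  ∃ (cov : V → V → ℤ) (vl : ℤ),
    (∀ u ∈ S, ∀ v ∈ T, R u v = 1 + q * cov u v - 2 * vl) ∧
    (∀ x, Covers S T D k x → vl ≤ ∑ u, ∑ v, x u v * cov u v) ∧
    (j : ℤ) ≤ vl ∧
    ∑ u, ∑ v, wt S T R u v ^ 2 ≤ (Fintype.card V : ℤ) ^ 2 * (1 + j * L ^ 2)

lemma TInv.zero (S T : Finset V) (D : V → V → ℤ) (k q L : ℤ) (R : V → V → ℤ)
    (hR : ∀ u ∈ S, ∀ v ∈ T, R u v = 1) : TInv S T D k q L R 0 := by
  refine ⟨fun _ _ => 0, 0, fun u hu v hv => by rw [hR u hu v hv]; ring, fun x _ => by simp,
    by simp, ?_⟩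
  calc ∑ u, ∑ v, wt S T R u v ^ 2 ≤ ∑ _u : V, ∑ _v : V, (1 : ℤ) := by
        refine Finset.sum_le_sum fun u _ => Finset.sum_le_sum fun v _ => ?_
        unfold wt
        split_ifs with h
        · rw [hR u h.1 v h.2]; norm_num
        · norm_num
    _ = _ := by simp [sq]

lemma TInv.step {S T : Finset V} {D : V → V → ℤ} (hD : ∀ u v, 0 ≤ D u v) {k q L : ℤ}
    {R : V → V → ℤ} {j : ℕ} (h : TInv S T D k q L R j) (hq : 0 ≤ q) (hL : q + 2 * k ≤ L)
    {X : Finset V} (hX : IsCut S T X)
    (hviol : q * cutw (wt S T R) X + 2 * tot (wt S T R) * cutw D X < k * (2 * tot (wt S T R)))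
    {R' : V → V → ℤ}
    (hR' : ∀ u ∈ S, ∀ v ∈ T, R' u v = R u v - 2 * (k - cutw D X) + q * ind X u v) :
    TInv S T D k q L R' (j + 1) := by
  obtain ⟨cov, vl, hR, hx, hj, hn⟩ := h
  have hW0 : 0 ≤ tot (wt S T R) := tot_nonneg (wt_nonneg S T R)
  have hc0 : 0 ≤ cutw (wt S T R) X := cutw_nonneg (wt_nonneg S T R) X
  have hd0 : 0 ≤ cutw D X := cutw_nonneg hD X
  set p := k - cutw D X with hp
  have hp1 : 1 ≤ p := by
    by_contra hcon
    push Not at hcon
    have h1 : p ≤ 0 := by omega
    have h2 : 0 ≤ q * cutw (wt S T R) X := mul_nonneg hq hc0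
    nlinarith
  have hpk : p ≤ k := by linarith
  refine ⟨fun u v => cov u v + ind X u v, vl + p, ?_, ?_, ?_, ?_⟩
  · intro u hu v hv
    rw [hR' u hu v hv, hR u hu v hv]; ring
  · intro x hx'
    have h1 := hx x hx'
    have h2 := hx'.2.2 X hX
    have h3 : cutw x X = ∑ u, ∑ v, x u v * ind X u v := by
      rw [cutw_eq]
      exact Finset.sum_congr rfl fun u _ => Finset.sum_congr rfl fun v _ => by ring
    simp only [mul_add, Finset.sum_add_distrib]
    linarith
  · push_cast; linarith
  · have hpt : ∀ u v, wt S T R' u v ^ 2 ≤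
        wt S T R u v ^ 2 + 2 * (q * (ind X u v * wt S T R u v) - 2 * p * wt S T R u v) + L ^ 2 := by
      intro u v
      by_cases huv : u ∈ S ∧ v ∈ T
      · have hw : wt S T R u v = max 0 (R u v) := by unfold wt; rw [if_pos huv]
        have hw' : wt S T R' u v = max 0 (R' u v) := by unfold wt; rw [if_pos huv]
        have hr := hR' u huv.1 v huv.2
        have hi0 := ind_nonneg X u v
        have hi1 := ind_le_one X u v
        rw [hw, hw']
        set w := max 0 (R u v) with hwdef
        set i := ind X u v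
        have hwR : R u v ≤ w := le_max_right _ _
        have hw0 : 0 ≤ w := le_max_left _ _
        have ha1 : q * i - 2 * p ≤ L := by nlinarith
        have ha2 : -L ≤ q * i - 2 * p := by nlinarith
        have ha : (q * i - 2 * p) ^ 2 ≤ L ^ 2 := by nlinarith
        have hmain : max 0 (R' u v) ^ 2 ≤ (w + (q * i - 2 * p)) ^ 2 := by
          rcases le_total (R' u v) 0 with h0 | h0
          · rw [max_eq_left h0]; nlinarith [sq_nonneg (w + (q * i - 2 * p))]
          · rw [max_eq_right h0]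
            have : R' u v ≤ w + (q * i - 2 * p) := by rw [hr]; linarith
            nlinarith
        nlinarith
      · rw [wt_supp S T R' u v huv, wt_supp S T R u v huv]
        nlinarith [sq_nonneg L]
    calc ∑ u, ∑ v, wt S T R' u v ^ 2 ≤ ∑ u, ∑ v, (wt S T R u v ^ 2 +
          2 * (q * (ind X u v * wt S T R u v) - 2 * p * wt S T R u v) + L ^ 2) :=
          Finset.sum_le_sum fun u _ => Finset.sum_le_sum fun v _ => hpt u v
      _ = ∑ u, ∑ v, wt S T R u v ^ 2 + 2 * (q * cutw (wt S T R) X - 2 * p * tot (wt S T R)) +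
            (Fintype.card V : ℤ) ^ 2 * L ^ 2 := by
          rw [cutw_eq, tot]
          simp only [Finset.sum_add_distrib, Finset.mul_sum, ← Finset.mul_sum,
            Finset.sum_sub_distrib]
          simp only [Finset.sum_const, Finset.card_univ, nsmul_eq_mul]
          ring
      _ ≤ _ := by
          push_cast
          nlinarith

lemma test_neg_aux {S T : Finset V} {D : V → V → ℤ} {k q L m : ℤ} {R : V → V → ℤ} {j : ℕ}
    (h : TInv S T D k q L R j) (hm : IsMin S T D k m) (hq : 0 ≤ q) (C : ℤ)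
    (hC : ∀ u ∈ S, ∀ v ∈ T, m * R u v ≤ C) (hC0 : 0 ≤ C) (hjC : C < j) : q ≤ 2 * m := by
  obtain ⟨cov, vl, hR, hx, hj, hn⟩ := h
  obtain ⟨x, hxc, hxm⟩ := hm.1
  have h0 := hm.nonneg
  by_contra hcon
  push Not at hcon
  have h1 := hx x hxc
  have hvl : 1 ≤ vl := by omega
  -- multiply by m * q
  have h2 : m * q * vl ≤ ∑ u, ∑ v, x u v * (C - m + 2 * m * vl) := by
    calc m * q * vl ≤ m * q * ∑ u, ∑ v, x u v * cov u v :=
          mul_le_mul_of_nonneg_left h1 (mul_nonneg h0 hq)
      _ = ∑ u, ∑ v, x u v * (m * q * cov u v) := by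
          simp only [Finset.mul_sum]
          exact Finset.sum_congr rfl fun u _ => Finset.sum_congr rfl fun v _ => by ring
      _ ≤ _ := by
          refine Finset.sum_le_sum fun u _ => Finset.sum_le_sum fun v _ => ?_
          by_cases huv : u ∈ S ∧ v ∈ T
          · refine mul_le_mul_of_nonneg_left ?_ (hxc.1 u v)
            have h3 := hC u huv.1 v huv.2
            have h4 := hR u huv.1 v huv.2
            have h5 : m * q * cov u v = m * R u v - m + 2 * m * vl := by rw [h4]; ring
            linarith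
          · rw [hxc.2.1 u v huv]; simp
  have h3 : ∑ u, ∑ v, x u v * (C - m + 2 * m * vl) = m * (C - m + 2 * m * vl) := by
    simp only [← Finset.sum_mul]
    rw [← hxm]; rfl
  rw [h3] at h2
  rcases h0.eq_or_lt with h00 | hpos
  · -- m = 0
    rw [← h00] at hxm hcon
    have hx0 : ∀ u v, x u v = 0 := by
      intro u v
      have := (Finset.sum_eq_zero_iff_of_nonneg (fun u _ =>
        Finset.sum_nonneg fun v _ => hxc.1 u v)).1 hxm u (Finset.mem_univ _)
      exact (Finset.sum_eq_zero_iff_of_nonneg (fun v _ => hxc.1 u v)).1 this v (Finset.mem_univ _)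
    have : ∑ u, ∑ v, x u v * cov u v = 0 := by
      simp [hx0]
    rw [this] at h1
    omega
  · have h4 : q * vl ≤ C - m + 2 * m * vl := by
      have : m * (q * vl) ≤ m * (C - m + 2 * m * vl) := by linarith
      exact le_of_mul_le_mul_left this hpos
    nlinarith

/-- **Test, negative outcome**: all weights vanish. -/
theorem test_neg_zero {S T : Finset V} {D : V → V → ℤ} {k q L m : ℤ} {R : V → V → ℤ} {j : ℕ}
    (h : TInv S T D k q L R j) (hm : IsMin S T D k m) (hq : 0 ≤ q) (hj : 1 ≤ j)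
    (hW : tot (wt S T R) = 0) : q ≤ 2 * m := by
  refine test_neg_aux h hm hq 0 ?_ le_rfl (by exact_mod_cast hj)
  intro u hu v hv
  have h1 : wt S T R u v = 0 := by
    have := (Finset.sum_eq_zero_iff_of_nonneg (fun u _ =>
      Finset.sum_nonneg fun v _ => wt_nonneg S T R u v)).1 hW u (Finset.mem_univ _)
    exact (Finset.sum_eq_zero_iff_of_nonneg (fun v _ => wt_nonneg S T R u v)).1 this v
      (Finset.mem_univ _)
  unfold wt at h1
  rw [if_pos ⟨hu, hv⟩] at h1
  have h2 : R u v ≤ 0 := by rw [← h1]; exact le_max_right _ _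
  nlinarith [hm.nonneg]

/-- **Test, negative outcome**: many rounds. -/
theorem test_neg_many {S T : Finset V} {D : V → V → ℤ} {k q L m : ℤ} {R : V → V → ℤ} {j : ℕ}
    (h : TInv S T D k q L R j) (hm : IsMin S T D k m) (hq : 0 ≤ q)
    (hj : m ^ 2 * ((Fintype.card V : ℤ) ^ 2 * (1 + L ^ 2)) < j) : q ≤ 2 * m := by
  have hj0 : (0 : ℤ) < j := lt_of_le_of_lt (by positivity) hj
  refine test_neg_aux h hm hq (j - 1) ?_ (by omega) (by omega)
  obtain ⟨cov, vl, hR, hx, hjv, hn⟩ := h
  intro u hu v hv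
  have h1 : wt S T R u v ^ 2 ≤ (Fintype.card V : ℤ) ^ 2 * (1 + j * L ^ 2) := by
    refine le_trans ?_ hn
    refine le_trans ?_ (Finset.single_le_sum (f := fun u => ∑ v, wt S T R u v ^ 2)
      (fun u _ => Finset.sum_nonneg fun v _ => sq_nonneg _) (Finset.mem_univ u))
    exact Finset.single_le_sum (f := fun v => wt S T R u v ^ 2)
      (fun v _ => sq_nonneg _) (Finset.mem_univ v)
  have hw : wt S T R u v = max 0 (R u v) := by unfold wt; rw [if_pos ⟨hu, hv⟩]
  rcases le_total (R u v) 0 with h0 | h0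
  · have := mul_nonpos_of_nonneg_of_nonpos hm.nonneg h0
    omega
  · rw [hw, max_eq_right h0] at h1
    have h2 : (m * R u v) ^ 2 < (j : ℤ) ^ 2 := by
      calc (m * R u v) ^ 2 = m ^ 2 * (R u v) ^ 2 := by ring
        _ ≤ m ^ 2 * ((Fintype.card V : ℤ) ^ 2 * (1 + j * L ^ 2)) :=
            mul_le_mul_of_nonneg_left h1 (sq_nonneg _)
        _ ≤ m ^ 2 * ((Fintype.card V : ℤ) ^ 2 * (1 + L ^ 2)) * j := by
            have h3 : (1 : ℤ) + j * L ^ 2 ≤ (1 + L ^ 2) * j := by nlinarith [sq_nonneg L]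
            have h4 : 0 ≤ m ^ 2 * (Fintype.card V : ℤ) ^ 2 := by positivity
            nlinarith
        _ < j * j := mul_lt_mul_of_pos_right hj hj0
        _ = (j : ℤ) ^ 2 := by ring
    have := abs_lt_of_sq_lt_sq h2 hj0.le
    have := (abs_lt.1 this).2
    omega

/-! ### greedy choice of arcs -/

lemma single_nonneg (a b u v : V) : 0 ≤ single a b u v := by
  unfold single; split_ifs <;> norm_num

lemma Covers.mono_single {S T : Finset V} {D : V → V → ℤ} {k : ℤ} {x : V → V → ℤ} (a b : V)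
    (hx : Covers S T D k x) : Covers S T (fun u v => D u v + single a b u v) k x := by
  refine ⟨hx.1, hx.2.1, fun X hX => ?_⟩
  rw [cutw_add]
  have := hx.2.2 X hX
  have := cutw_nonneg (single_nonneg a b) X
  linarith

lemma IsMin.single_bounds {S T : Finset V} {D : V → V → ℤ} {k m m' : ℤ} {a b : V}
    (ha : a ∈ S) (hb : b ∈ T) (h : IsMin S T D k m)
    (h' : IsMin S T (fun u v => D u v + single a b u v) k m') : m - 1 ≤ m' ∧ m' ≤ m := by
  constructor
  · obtain ⟨x, hx, hxm⟩ := h'.1
    have := h.2 _ (hx.add_single ha hb)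
    rw [tot_add, tot_single] at this
    linarith
  · obtain ⟨x, hx, hxm⟩ := h.1
    have := h'.2 _ (hx.mono_single a b)
    linarith

lemma IsMin.exists_useful {S T : Finset V} {D : V → V → ℤ} {k m : ℤ}
    (h : IsMin S T D k m) (hm : 0 < m) : ∃ a ∈ S, ∃ b ∈ T,
      IsMin S T (fun u v => D u v + single a b u v) k (m - 1) := by
  obtain ⟨x, hx, hxm⟩ := h.1
  have hpos : ∃ a b, 0 < x a b := by
    by_contra hcon
    push Not at hcon
    have : tot x ≤ 0 := by
      unfold tot
      exact Finset.sum_nonpos fun u _ => Finset.sum_nonpos fun v _ => hcon u v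
    omega
  obtain ⟨a, b, hab⟩ := hpos
  have hST : a ∈ S ∧ b ∈ T := by
    by_contra hcon
    rw [hx.2.1 a b hcon] at hab
    exact lt_irrefl _ hab
  refine ⟨a, hST.1, b, hST.2, ⟨fun u v => x u v - single a b u v, ⟨fun u v => ?_, fun u v huv => ?_,
    fun X hX => ?_⟩, ?_⟩, fun y hy => ?_⟩
  · simp only [single]
    split_ifs with h1
    · obtain ⟨rfl, rfl⟩ := h1; omega
    · have := hx.1 u v; omega
  · simp only [single]
    rw [hx.2.1 u v huv, if_neg]
    · simp
    · rintro ⟨rfl, rfl⟩; exact huv hST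
  · have h1 := hx.2.2 X hX
    have h2 : cutw x X = cutw (fun u v => x u v - single a b u v) X + cutw (single a b) X := by
      rw [← cutw_add]; simp
    rw [cutw_add]
    linarith
  · have h2 : tot x = tot (fun u v => x u v - single a b u v) + tot (single a b) := by
      rw [← tot_add]; simp
    rw [tot_single] at h2
    linarith
  · have := h.2 _ (hy.add_single hST.1 hST.2)
    rw [tot_add, tot_single] at this
    linarith

lemma single_add_comm (D : V → V → ℤ) (a b c d : V) :
    (fun u v => (D u v + single a b u v) + single c d u v) =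
      (fun u v => (D u v + single c d u v) + single a b u v) := by
  funext u v; ring

/-- an arc which does not decrease the minimum will not do so later -/
lemma IsMin.persist {S T : Finset V} {D : V → V → ℤ} (hD : ∀ u v, 0 ≤ D u v) {k m : ℤ}
    {a b c d : V} (ha : a ∈ S) (hb : b ∈ T) (hc : c ∈ S) (hd : d ∈ T)
    (h' : IsMin S T (fun u v => D u v + single a b u v) k m)
    (h'' : IsMin S T (fun u v => D u v + single c d u v) k (m - 1)) :
    IsMin S T (fun u v => (D u v + single c d u v) + single a b u v) k (m - 1) := by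
  obtain ⟨m', hm', -⟩ := exists_opt S T k
    (fun u v => (D u v + single c d u v) + single a b u v) (fun u v => by
      have := hD u v
      have := single_nonneg a b u v
      have := single_nonneg c d u v
      linarith)
  have h1 := h''.single_bounds ha hb hm'
  have h3 : IsMin S T (fun u v => (D u v + single a b u v) + single c d u v) k m' := by
    rw [single_add_comm]; exact hm'
  have h4 := h'.single_bounds hc hd h3
  have : m' = m - 1 := le_antisymm h1.2 h4.1
  rw [← this]; exact hm'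

/-! ### large requirements -/

/-- For `k ≥ K0` an optimal solution is obtained from one for `K0` by adding `k - K0` copies of an
optimal solution for the arcless digraph with requirement one. -/
theorem slope {S T : Finset V} {D : V → V → ℤ} (hD : ∀ u v, 0 ≤ D u v) {K0 k : ℤ}
    (hK : (S.card : ℤ) * T.card * tot D < K0) (hk : K0 ≤ k) {x0 y : V → V → ℤ}
    (hx : Covers S T D K0 x0) (hxm : ∀ x, Covers S T D K0 x → tot x0 ≤ tot x)
    (hy : Covers S T (fun _ _ => 0) 1 y) (hym : ∀ x, Covers S T (fun _ _ => 0) 1 x → tot y ≤ tot x) :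
    Covers S T D k (fun u v => x0 u v + (k - K0) * y u v) ∧
      ∀ x, Covers S T D k x → tot (fun u v => x0 u v + (k - K0) * y u v) ≤ tot x := by
  have hkk : 0 ≤ k - K0 := by linarith
  refine ⟨⟨fun u v => ?_, fun u v huv => ?_, fun X hX => ?_⟩, ?_⟩
  · have := hx.1 u v; have := mul_nonneg hkk (hy.1 u v); linarith
  · simp only
    rw [hx.2.1 u v huv, hy.2.1 u v huv]; simp
  · rw [cutw_add, cutw_smul]
    have h1 := hx.2.2 X hX
    have h2 := hy.2.2 X hX
    have h3 : cutw (fun _ _ => (0 : ℤ)) X = 0 := by rw [cutw_eq]; simp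
    rw [h3] at h2
    nlinarith
  · intro x' hx'
    obtain ⟨m, hm, F, hF, hFv⟩ := exists_opt S T K0 D hD
    have hmx : m = tot x0 := hm.unique ⟨⟨x0, hx, rfl⟩, hxm⟩
    obtain ⟨c, hc, G, hG, hGv⟩ := exists_opt S T 1 (fun _ _ : V => (0 : ℤ)) (fun _ _ => le_refl _)
    have hcy : c = tot y := hc.unique ⟨⟨y, hy, rfl⟩, hym⟩
    have hval0 : ∀ H : Finset (Finset V), val (fun _ _ => (0 : ℤ)) 1 H = H.card := by
      intro H
      unfold val
      have h3 : ∀ X : Finset V, cutw (fun _ _ => (0 : ℤ)) X = 0 := fun X => by rw [cutw_eq]; simp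
      simp [h3]
    have hFc : (F.card : ℤ) ≤ c := by
      rw [← hval0 F, hcy]; exact weak_dual hy hF
    have hGc : (G.card : ℤ) = c := by rw [← hval0 G, hGv]
    have hcN : c ≤ (S.card : ℤ) * T.card := by
      have hcov : Covers S T (fun _ _ => 0) 1
          (fun u v => if u ∈ S ∧ v ∈ T then (1 : ℤ) else 0) := by
        refine ⟨fun u v => by simp only; split_ifs <;> norm_num,
          fun u v huv => by simp only; rw [if_neg huv], ?_⟩
        rintro X ⟨⟨s, hs, hsX⟩, ⟨t, ht, htX⟩⟩
        have h3 : cutw (fun _ _ => (0 : ℤ)) X = 0 := by rw [cutw_eq]; simp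
        rw [h3, zero_add, cutw_eq]
        have hnn : ∀ u v : V, 0 ≤ ind X u v * (if u ∈ S ∧ v ∈ T then (1 : ℤ) else 0) := by
          intro u v
          exact mul_nonneg (ind_nonneg _ _ _) (by split_ifs <;> norm_num)
        have h4 : (1 : ℤ) ≤ ∑ v, ind X s v * (if s ∈ S ∧ v ∈ T then (1 : ℤ) else 0) := by
          refine le_trans ?_ (Finset.single_le_sum (fun v _ => hnn s v) (Finset.mem_univ t))
          rw [if_pos ⟨hs, ht⟩]
          unfold ind
          rw [if_pos ⟨hsX, htX⟩]; norm_num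
        exact h4.trans (Finset.single_le_sum (f := fun u => ∑ v, ind X u v *
          (if u ∈ S ∧ v ∈ T then (1 : ℤ) else 0)) (fun u _ => Finset.sum_nonneg fun v _ => hnn u v)
          (Finset.mem_univ s))
      have := hc.2 _ hcov
      refine this.trans (le_of_eq ?_)
      unfold tot
      have : ∀ u v : V, (if u ∈ S ∧ v ∈ T then (1 : ℤ) else 0) =
          (if u ∈ S then 1 else 0) * (if v ∈ T then 1 else 0) := by
        intro u v
        by_cases h1 : u ∈ S <;> by_cases h2 : v ∈ T <;> simp [h1, h2]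
      simp only [this, ← Finset.mul_sum, ← Finset.sum_mul]
      simp
    have hvalF : ∀ (H : Finset (Finset V)) (κ : ℤ), val D κ H = H.card * κ - ∑ X ∈ H, cutw D X := by
      intro H κ
      unfold val
      rw [Finset.sum_sub_distrib]; simp
    have htD : 0 ≤ tot D := tot_nonneg hD
    have hFeq : (F.card : ℤ) = c := by
      by_contra hne
      have hlt : (F.card : ℤ) ≤ c - 1 := by omega
      have h1 : val D K0 G ≤ m := by rw [hmx]; exact weak_dual hx hG
      rw [← hFv, hvalF G, hvalF F] at h1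
      have h2 : 0 ≤ ∑ X ∈ F, cutw D X := Finset.sum_nonneg fun X _ => cutw_nonneg hD X
      have h3 : ∑ X ∈ G, cutw D X ≤ G.card * tot D := by
        calc ∑ X ∈ G, cutw D X ≤ ∑ X ∈ G, tot D := Finset.sum_le_sum fun X _ => cutw_le_tot hD X
          _ = _ := by rw [Finset.sum_const, nsmul_eq_mul]
      rw [hGc] at h1 h3
      have hK0 : 0 < K0 := lt_of_le_of_lt
        (mul_nonneg (mul_nonneg (Int.natCast_nonneg _) (Int.natCast_nonneg _)) htD) hK
      have h4 : (F.card : ℤ) * K0 ≤ (c - 1) * K0 := mul_le_mul_of_nonneg_right hlt hK0.le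
      have h5 : c * tot D ≤ (S.card : ℤ) * T.card * tot D := mul_le_mul_of_nonneg_right hcN htD
      nlinarith
    have h1 := weak_dual hx' hF
    change val D k F ≤ tot x' at h1
    rw [hvalF] at h1 hFv
    rw [tot_add, tot_smul, ← hmx, ← hFv, ← hcy, ← hFeq]
    linarith

end Core
end Pool.Agent.H87.ST
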