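import Pool.Agent.H87.ST.Aug

namespace Pool.Agent.H87.ST

open Finset

/-- the set of vertices that are not reached -/
def unre {n : ℕ} (s : Mem) : Finset (Fin n) := univ.filter fun v => ¬ 0 < re s v

/-- the search got stuck: the set of vertices not reached is a cut of capacity less than `L` -/
def Bad {n : ℕ} (src snk : Fin n) (C : Fin n → Fin n → ℤ) (L : ℤ) (s : Mem) : Prop :=
  src ∉ unre s ∧ snk ∈ unre s ∧ cutw C (unre (n := n) s) < L

lemma ffB_step {n : ℕ} (src snk : Fin n) (C : Fin n → Fin n → ℤ) (B : ℕ) (L : ℤ) (j : ℕ)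
    (s : Mem) (hn : s.v vN = n)
    (hB : s.v vB = B) (hnB : n ≤ B) (hsrc : s.v vS = (src : ℕ)) (hsnk : s.v vE = (snk : ℕ))
    (hL : s.v vL = L) (hit : s.v vIt = j)
    (h : (s.v vStuck = 0 ∧ ∃ G : Fin n → Fin n → ℤ, (∀ u v : Fin n, s.a aG (u : ℕ) (v : ℕ) = G u v)
      ∧ (∀ u v, 0 ≤ G u v) ∧ ∀ X : Finset (Fin n), cutw G X =
        cutw C X - (min (j : ℤ) L) * (mem1 snk X - mem1 src X)) ∨
      (s.v vStuck = 1 ∧ Bad src snk C L s)) :
    (((ffB.run s).v vStuck = 0 ∧ ∃ G : Fin n → Fin n → ℤ,
      (∀ u v : Fin n, (ffB.run s).a aG (u : ℕ) (v : ℕ) = G u v)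
      ∧ (∀ u v, 0 ≤ G u v) ∧ ∀ X : Finset (Fin n), cutw G X =
        cutw C X - (min ((j + 1 : ℕ) : ℤ) L) * (mem1 snk X - mem1 src X)) ∨
      ((ffB.run s).v vStuck = 1 ∧ Bad src snk C L (ffB.run s))) := by
  have e1 : (Exp.var vIt).val s = j := hit
  have e2 : (Exp.var vL).val s = L := hL
  have e3 : (Exp.var vStuck).val s = s.v vStuck := rfl
  have e4 : (Exp.lit 1).val s = 1 := rfl
  unfold ffB
  rw [Cmd.run, e1, e2]
  by_cases hjL : (j : ℤ) < L
  · rw [if_pos hjL, Cmd.run, e3, e4]
    rcases h with ⟨hst, G, hG, hG0, hcut⟩ | ⟨hst, hbad⟩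
    · rw [hst, if_pos (by norm_num), Cmd.run, Cmd.run]
      have hRF := reach_spec src G s hn hsrc hG
      set t := reachC.run s with ht
      have tv : ∀ z, reachC.wr z = false → t.v z = s.v z := fun z hz => Cmd.run_v z _ hz s
      have ta : ∀ b, reachC.wra b = false → t.a b = s.a b := fun b hb => Cmd.run_a b _ hb s
      have htE : t.v vE = (snk : ℕ) := by rw [tv vE (by decide), hsnk]
      have htG : ∀ u v : Fin n, t.a aG (u : ℕ) (v : ℕ) = G u v := by
        intro u v; rw [ta aG (by decide)]; exact hG u v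
      have e5 : (get1 aRe (.var vE)).val t = re t snk := by
        simp only [get1, Exp.val]; rw [htE]; rfl
      have e6 : (Exp.lit 0).val t = 0 := rfl
      rw [e5, e6]
      by_cases hr : 0 < re t snk
      · rw [if_pos hr]
        left
        obtain ⟨G', hG', hG0', hcut'⟩ := aug_spec src snk G t B (by rw [tv vB (by decide), hB])
          hnB htE htG hG0 hRF hr
        refine ⟨?_, G', hG', hG0', ?_⟩
        · rw [Cmd.run_v vStuck augC (by decide), tv vStuck (by decide), hst]
        · intro X
          rw [hcut' X, hcut X, min_eq_left hjL.le, min_eq_left (by push_cast; omega)]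
          push_cast; ring
      · rw [if_neg hr]
        right
        refine ⟨by simp [Cmd.run, setv_v, Exp.val], ?_, ?_, ?_⟩
        · change ¬ src ∈ unre t
          simp only [unre, Finset.mem_filter, Finset.mem_univ, true_and, not_not]
          rw [hRF.one]; norm_num
        · change snk ∈ unre t
          simpa [unre] using hr
        · change cutw C (unre t) < L
          have hsX : src ∉ unre t := by
            simp only [unre, Finset.mem_filter, Finset.mem_univ, true_and, not_not]
            rw [hRF.one]; norm_num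
          have htX : snk ∈ unre t := by simpa [unre] using hr
          have h0 : cutw G (unre t) = 0 := by
            unfold cutw
            refine Finset.sum_eq_zero fun u _ => Finset.sum_eq_zero fun v _ => ?_
            split_ifs with huv
            · simp only [unre, Finset.mem_filter, Finset.mem_univ, true_and, not_not] at huv
              have := hG0 u v
              by_contra hne
              exact huv.2 (hRF.closed u v huv.1 (by omega))
            · rfl
          have h1 := hcut (unre t)
          rw [h0, min_eq_left hjL.le] at h1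
          have h2 : mem1 snk (unre (n := n) t) = 1 := by unfold mem1; rw [if_pos htX]
          have h3 : mem1 src (unre (n := n) t) = 0 := by unfold mem1; rw [if_neg hsX]
          rw [h2, h3] at h1
          linarith
    · rw [hst, if_neg (by norm_num)]
      right
      exact ⟨hst, hbad⟩
  · rw [if_neg hjL]
    rcases h with ⟨hst, G, hG, hG0, hcut⟩ | h
    · left
      refine ⟨hst, G, hG, hG0, ?_⟩
      intro X
      rw [hcut X, min_eq_right (by omega), min_eq_right (by push_cast; omega)]
    · right; exact h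

theorem ff_spec {n : ℕ} (src snk : Fin n) (C : Fin n → Fin n → ℤ) (B : ℕ) (L : ℤ)
    (s : Mem) (hn : s.v vN = n)
    (hB : s.v vB = B) (hnB : n ≤ B) (hsrc : s.v vS = (src : ℕ)) (hsnk : s.v vE = (snk : ℕ))
    (hL : s.v vL = L) (hL0 : 0 ≤ L) (hLB : L ≤ B)
    (hC : ∀ u v : Fin n, s.a aC (u : ℕ) (v : ℕ) = C u v) (hC0 : ∀ u v, 0 ≤ C u v) :
    ((ffC.run s).v vStuck = 0 ∧ ∀ X : Finset (Fin n), src ∉ X → snk ∈ X → L ≤ cutw C X) ∨
    ((ffC.run s).v vStuck = 1 ∧ Bad src snk C L (ffC.run s)) := by
  unfold ffC
  rw [Cmd.run, Cmd.run]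
  set s1 := (for2 (.put aG (.var vU) (.var vV) (.get aC (.var vU) (.var vV)))).run s with hs1
  have hmap := loop2_map vU vV (by decide) (by decide) (by decide)
    (.put aG (.var vU) (.var vV) (.get aC (.var vU) (.var vV))) (by decide) (by decide) s n hn
    aG (fun i j => s.a aC (i : ℕ) (j : ℕ)) (by
      intro i hi j hj s' hv ha hs hun i' j'
      have h1 : (s'.setv vV j).v vU = i := by rw [setv_ne _ _ (by decide), hs]
      have h2 : (s'.setv vV j).v vV = j := by simp [setv_v]
      simp only [Cmd.run, Exp.val]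
      rw [h1, h2, seta_a, setv_a, ha aC (by decide)]
      simp only [true_and, Nat.cast_inj])
  have f1 : ∀ z, z ≠ vU → z ≠ vV → s1.v z = s.v z := by
    intro z h1 h2
    refine Cmd.run_v z _ ?_ s
    simp only [for2, Cmd.wr, Bool.or_false, Bool.or_eq_false_iff, beq_eq_false_iff_ne]
    exact ⟨h1, h2⟩
  have key := loop_inv vIt vB ffB ((Cmd.set vStuck (.lit 0)).run s1) B
    (by
      simp only [Cmd.run]
      rw [setv_ne _ _ (by decide), f1 vB (by decide) (by decide), hB])
    (fun j s' => (s'.v vStuck = 0 ∧ ∃ G : Fin n → Fin n → ℤ,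
      (∀ u v : Fin n, s'.a aG (u : ℕ) (v : ℕ) = G u v)
      ∧ (∀ u v, 0 ≤ G u v) ∧ ∀ X : Finset (Fin n), cutw G X =
        cutw C X - (min (j : ℤ) L) * (mem1 snk X - mem1 src X)) ∨
      (s'.v vStuck = 1 ∧ Bad src snk C L s'))
    (by
      left
      refine ⟨by simp [Cmd.run, setv_v, Exp.val], C, ?_, hC0, ?_⟩
      · intro u v
        simp only [Cmd.run, setv_a]
        rw [← hC u v]
        exact hmap u u.2 v v.2
      · intro X
        rw [Nat.cast_zero, min_eq_left hL0]; ring)
    (by
      intro j hj s' hv ha hP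
      have f2 : ∀ z, z ≠ vIt → ffB.wr z = false → z ≠ vU → z ≠ vV → z ≠ vStuck →
          (s'.setv vIt j).v z = s.v z := by
        intro z h1 h2 h3 h4 h5
        rw [setv_ne _ _ h1, hv z h1 h2]
        simp only [Cmd.run]
        rw [setv_ne _ _ h5, f1 z h3 h4]
      refine ffB_step src snk C B L j (s'.setv vIt j) ?_ ?_ hnB ?_ ?_ ?_ ?_ ?_
      · rw [f2 vN (by decide) (by decide) (by decide) (by decide) (by decide), hn]
      · rw [f2 vB (by decide) (by decide) (by decide) (by decide) (by decide), hB]
      · rw [f2 vS (by decide) (by decide) (by decide) (by decide) (by decide), hsrc]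
      · rw [f2 vE (by decide) (by decide) (by decide) (by decide) (by decide), hsnk]
      · rw [f2 vL (by decide) (by decide) (by decide) (by decide) (by decide), hL]
      · simp [setv_v]
      · have h1 : (s'.setv vIt j).v vStuck = s'.v vStuck := setv_ne _ _ (by decide)
        rcases hP with ⟨h2, h3⟩ | ⟨h2, h3⟩
        · exact Or.inl ⟨h1.trans h2, h3⟩
        · exact Or.inr ⟨h1.trans h2, h3⟩)
  rcases key with ⟨h1, G, hG, hG0, hcut⟩ | h1
  · left
    refine ⟨h1, fun X hs ht => ?_⟩
    have h2 := hcut X
    have h3 := cutw_nonneg hG0 X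
    rw [min_eq_right hLB] at h2
    have h4 : mem1 snk X = 1 := by unfold mem1; rw [if_pos ht]
    have h5 : mem1 src X = 0 := by unfold mem1; rw [if_neg hs]
    rw [h4, h5] at h2
    linarith
  · right; exact h1

/-! ### finding a deficient cut -/

/-- the set stored in `aX` -/
def setX {n : ℕ} (s : Mem) : Finset (Fin n) := univ.filter fun v => 0 < s.a aX (v : ℕ) 0

/-- contents of the indicator arrays for `S` and `T` -/
def HasST {n : ℕ} (S T : Finset (Fin n)) (s : Mem) : Prop :=
  (∀ u : Fin n, s.a aS (u : ℕ) 0 = mem1 u S) ∧ (∀ u : Fin n, s.a aT (u : ℕ) 0 = mem1 u T)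

lemma mem1_pos {α : Type*} [DecidableEq α] (x : α) (X : Finset α) : 0 < mem1 x X ↔ x ∈ X := by
  unfold mem1; split_ifs with h <;> simp [h]

theorem rec_spec {n : ℕ} (s : Mem) (hn : s.v vN = n) :
    setX (n := n) (recC.run s) = unre s ∧
      ∀ v : Fin n, (recC.run s).a aX (v : ℕ) 0 = mem1 v (unre s) := by
  have key := loop_inv vU vN (.ifLt (get1 aRe (.var vU)) (.lit 1)
    (.put aX (.var vU) (.lit 0) (.lit 1)) (.put aX (.var vU) (.lit 0) (.lit 0))) s n hn
    (fun j s' => ∀ v : Fin n, (v : ℕ) < j → s'.a aX (v : ℕ) 0 = mem1 v (unre s))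
    (fun v h => absurd h (Nat.not_lt_zero _))
    (by
      intro j hj s' hv ha hP v hvj
      have e1 : (get1 aRe (.var vU)).val (s'.setv vU j) = re s (⟨j, hj⟩ : Fin n) := by
        simp only [get1, Exp.val, setv_a, setv_v, if_true]
        rw [ha aRe (by decide)]; rfl
      have e2 : ∀ z : ℤ, (Exp.lit z).val (s'.setv vU j) = z := fun z => rfl
      simp only [Cmd.run, e1, e2]
      have e3 : (Exp.var vU).val (s'.setv vU j) = j := by simp [Exp.val, setv_v]
      rw [e3]
      by_cases h1 : re s (⟨j, hj⟩ : Fin n) < 1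
      · rw [if_pos h1, seta_a]
        by_cases h2 : (v : ℕ) = j
        · have h3 : v = ⟨j, hj⟩ := Fin.ext h2
          subst h3
          simp only [and_self, if_true]
          unfold mem1
          rw [if_pos]
          simp only [unre, Finset.mem_filter, Finset.mem_univ, true_and]
          omega
        · rw [if_neg, setv_a]
          · exact hP v (by omega)
          · rintro ⟨_, h3, _⟩; exact h2 (by exact_mod_cast h3)
      · rw [if_neg h1, seta_a]
        by_cases h2 : (v : ℕ) = j
        · have h3 : v = ⟨j, hj⟩ := Fin.ext h2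
          subst h3
          simp only [and_self, if_true]
          unfold mem1
          rw [if_neg]
          simp only [unre, Finset.mem_filter, Finset.mem_univ, true_and, not_not]
          omega
        · rw [if_neg, setv_a]
          · exact hP v (by omega)
          · rintro ⟨_, h3, _⟩; exact h2 (by exact_mod_cast h3))
  have h1 : ∀ v : Fin n, (recC.run s).a aX (v : ℕ) 0 = mem1 v (unre s) := fun v => key v v.2
  refine ⟨?_, h1⟩
  ext v
  simp only [setX, Finset.mem_filter, Finset.mem_univ, true_and]
  rw [h1 v, mem1_pos]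

/-- outcome of the search for a deficient cut -/
def FoundCut {n : ℕ} (S T : Finset (Fin n)) (C : Fin n → Fin n → ℤ) (L : ℤ) (s : Mem) : Prop :=
  ∃ X : Finset (Fin n), IsCut S T X ∧ cutw C X < L ∧ ∀ v : Fin n, s.a aX (v : ℕ) 0 = mem1 v X

theorem find_spec {n : ℕ} (S T : Finset (Fin n)) (C : Fin n → Fin n → ℤ) (B : ℕ) (L : ℤ)
    (s : Mem) (hn : s.v vN = n) (hST : HasST S T s)
    (hB : s.v vB = B) (hnB : n ≤ B)
    (hL : s.v vL = L) (hL0 : 0 ≤ L) (hLB : L ≤ B)
    (hC : ∀ u v : Fin n, s.a aC (u : ℕ) (v : ℕ) = C u v) (hC0 : ∀ u v, 0 ≤ C u v) :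
    ((findC.run s).v vFound = 0 ∧ ∀ X : Finset (Fin n), IsCut S T X → L ≤ cutw C X) ∨
    ((findC.run s).v vFound = 1 ∧ FoundCut S T C L (findC.run s)) := by
  unfold findC
  rw [Cmd.run]
  have key := loop2_inv vS vE (by decide) (by decide) (by decide) findB (by decide) (by decide)
    ((Cmd.set vFound (.lit 0)).run s) n
    (by simp only [Cmd.run]; rw [setv_ne _ _ (by decide), hn])
    (fun i j s' => (s'.v vFound = 0 ∧ ∀ u v : Fin n,
        ((u : ℕ) < i ∨ ((u : ℕ) = i ∧ (v : ℕ) < j)) → u ∈ S → v ∈ T →
        ∀ X : Finset (Fin n), u ∉ X → v ∈ X → L ≤ cutw C X) ∨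
      (s'.v vFound = 1 ∧ FoundCut S T C L s'))
    (by
      left
      exact ⟨by simp [Cmd.run, setv_v, Exp.val], fun u v h => by omega⟩)
    (by
      rintro i hi s' (⟨h1, h2⟩ | ⟨h1, h2⟩)
      · exact Or.inl ⟨by rw [setv_ne _ _ (by decide), h1], h2⟩
      · exact Or.inr ⟨by rw [setv_ne _ _ (by decide), h1], h2⟩)
    (by
      intro i hi j hj s' hv ha hs hP
      have f2 : ∀ z, z ≠ vS → z ≠ vE → findB.wr z = false → z ≠ vFound →
          (s'.setv vE j).v z = s.v z := by
        intro z h1 h2 h3 h4
        rw [setv_ne _ _ h2, hv z h1 h2 h3]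
        simp only [Cmd.run]
        rw [setv_ne _ _ h4]
      have g2 : ∀ b, findB.wra b = false → (s'.setv vE j).a b = s.a b := by
        intro b hb
        rw [setv_a, ha b hb]; rfl
      have hvS : (s'.setv vE j).v vS = ((⟨i, hi⟩ : Fin n) : ℕ) := by
        rw [setv_ne _ _ (by decide), hs]
      have hvE : (s'.setv vE j).v vE = ((⟨j, hj⟩ : Fin n) : ℕ) := by simp [setv_v]
      have e1 : (Exp.var vFound).val (s'.setv vE j) = s'.v vFound := by
        simp only [Exp.val]; rw [setv_ne _ _ (by decide)]
      have e2 : ∀ z : ℤ, (Exp.lit z).val (s'.setv vE j) = z := fun z => rfl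
      have e3 : (get1 aS (.var vS)).val (s'.setv vE j) = mem1 (⟨i, hi⟩ : Fin n) S := by
        simp only [get1, Exp.val]
        rw [hvS, g2 aS (by decide)]; exact hST.1 _
      have e4 : (get1 aT (.var vE)).val (s'.setv vE j) = mem1 (⟨j, hj⟩ : Fin n) T := by
        simp only [get1, Exp.val]
        rw [hvE, g2 aT (by decide)]; exact hST.2 _
      unfold findB
      simp only [Cmd.run, e1, e2, e3, e4]
      rcases hP with ⟨h1, h2⟩ | ⟨h1, h2⟩
      · rw [h1, if_pos (by norm_num)]
        by_cases hS : 0 < mem1 (⟨i, hi⟩ : Fin n) S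
        · rw [if_pos hS]
          by_cases hT : 0 < mem1 (⟨j, hj⟩ : Fin n) T
          · rw [if_pos hT]
            rw [mem1_pos] at hS hT
            have hff := ff_spec (⟨i, hi⟩ : Fin n) ⟨j, hj⟩ C B L (s'.setv vE j)
              (by rw [f2 vN (by decide) (by decide) (by decide) (by decide), hn])
              (by rw [f2 vB (by decide) (by decide) (by decide) (by decide), hB]) hnB hvS hvE
              (by rw [f2 vL (by decide) (by decide) (by decide) (by decide), hL]) hL0 hLB
              (by intro u v; rw [g2 aC (by decide)]; exact hC u v) hC0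
            set t := ffC.run (s'.setv vE j) with ht
            have tv : ∀ z, ffC.wr z = false → t.v z = (s'.setv vE j).v z :=
              fun z hz => Cmd.run_v z _ hz _
            rcases hff with ⟨h3, h4⟩ | ⟨h3, h4⟩
            · have e5 : ¬ (Exp.lit 0).val t < (Exp.var vStuck).val t := by
                simp only [Exp.val]; rw [h3]; norm_num
              rw [if_neg e5]
              left
              refine ⟨by rw [tv vFound (by decide), setv_ne _ _ (by decide), h1], ?_⟩
              intro u v huv hu hv' X hX1 hX2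
              by_cases h5 : (u : ℕ) < i ∨ ((u : ℕ) = i ∧ (v : ℕ) < j)
              · exact h2 u v h5 hu hv' X hX1 hX2
              · have h6 : u = ⟨i, hi⟩ := Fin.ext (by simp only; omega)
                have h7 : v = ⟨j, hj⟩ := Fin.ext (by simp only; omega)
                subst h6; subst h7
                exact h4 X hX1 hX2
            · have e5 : (Exp.lit 0).val t < (Exp.var vStuck).val t := by
                simp only [Exp.val]; rw [h3]; norm_num
              rw [if_pos e5]
              right
              set t' := t.setv vFound ((Exp.lit 1).val t) with ht'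
              have hn' : t'.v vN = n := by
                rw [ht', setv_ne _ _ (by decide), tv vN (by decide),
                  f2 vN (by decide) (by decide) (by decide) (by decide), hn]
              obtain ⟨_, h6⟩ := rec_spec (n := n) t' hn'
              refine ⟨?_, unre t, ⟨⟨_, hS, h4.1⟩, ⟨_, hT, h4.2.1⟩⟩, h4.2.2, h6⟩
              rw [Cmd.run_v vFound recC (by decide), ht', setv_v, if_pos rfl]
              rfl
          · rw [if_neg hT]
            left
            rw [mem1_pos] at hT
            refine ⟨by rw [setv_ne _ _ (by decide), h1], ?_⟩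
            intro u v huv hu hv' X hX1 hX2
            by_cases h5 : (u : ℕ) < i ∨ ((u : ℕ) = i ∧ (v : ℕ) < j)
            · exact h2 u v h5 hu hv' X hX1 hX2
            · have h7 : v = ⟨j, hj⟩ := Fin.ext (by simp only; omega)
              subst h7
              exact absurd hv' hT
        · rw [if_neg hS]
          left
          rw [mem1_pos] at hS
          refine ⟨by rw [setv_ne _ _ (by decide), h1], ?_⟩
          intro u v huv hu hv' X hX1 hX2
          by_cases h5 : (u : ℕ) < i ∨ ((u : ℕ) = i ∧ (v : ℕ) < j)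
          · exact h2 u v h5 hu hv' X hX1 hX2
          · have h7 : u = ⟨i, hi⟩ := Fin.ext (by simp only; omega)
            subst h7
            exact absurd hu hS
      · rw [h1, if_neg (by norm_num)]
        right
        exact ⟨by rw [setv_ne _ _ (by decide), h1], h2⟩)
    (by
      rintro i hi s' (⟨h1, h2⟩ | h1)
      · left
        refine ⟨h1, fun u v huv => h2 u v ?_⟩
        have := v.2
        omega
      · exact Or.inr h1)
  rcases key with ⟨h1, h2⟩ | h1
  · left
    refine ⟨h1, ?_⟩
    rintro X ⟨⟨u, hu, huX⟩, ⟨v, hv, hvX⟩⟩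
    exact h2 u v (Or.inl u.2) hu hv X huX hvX
  · exact Or.inr h1

end Pool.Agent.H87.ST
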