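import Pool.Agent.H87.ST.Main

namespace Pool.Agent.H87.ST

open Finset

/-! ### bounds for the minimum -/

lemma IsMin.le_mul {V : Type*} [Fintype V] [DecidableEq V] {S T : Finset V} {D : V → V → ℤ}
    (hD : ∀ u v, 0 ≤ D u v) {k m : ℤ} (hk : 0 ≤ k) (h : IsMin S T D k m) :
    m ≤ (S.card : ℤ) * T.card * k := by
  have hcov : Covers S T D k (fun u v => k * (if u ∈ S ∧ v ∈ T then (1 : ℤ) else 0)) := by
    refine ⟨fun u v => mul_nonneg hk (by split_ifs <;> norm_num),
      fun u v huv => by simp only; rw [if_neg huv, mul_zero], ?_⟩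
    rintro X ⟨⟨s, hs, hsX⟩, ⟨t, ht, htX⟩⟩
    have h1 := cutw_nonneg hD X
    have h2 : k ≤ cutw (fun u v => k * (if u ∈ S ∧ v ∈ T then (1 : ℤ) else 0)) X := by
      rw [cutw_eq]
      have hnn : ∀ u v : V, 0 ≤ ind X u v * (k * (if u ∈ S ∧ v ∈ T then (1 : ℤ) else 0)) :=
        fun u v => mul_nonneg (ind_nonneg _ _ _) (mul_nonneg hk (by split_ifs <;> norm_num))
      have h4 : k ≤ ∑ v, ind X s v * (k * (if s ∈ S ∧ v ∈ T then (1 : ℤ) else 0)) := by
        refine le_trans ?_ (Finset.single_le_sum (fun v _ => hnn s v) (Finset.mem_univ t))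
        rw [if_pos ⟨hs, ht⟩]
        unfold ind
        rw [if_pos ⟨hsX, htX⟩]; linarith
      exact h4.trans (Finset.single_le_sum (f := fun u => ∑ v, ind X u v *
        (k * (if u ∈ S ∧ v ∈ T then (1 : ℤ) else 0))) (fun u _ => Finset.sum_nonneg fun v _ =>
          hnn u v) (Finset.mem_univ s))
    linarith
  refine (h.2 _ hcov).trans (le_of_eq ?_)
  rw [tot_smul]
  unfold tot
  have : ∀ u v : V, (if u ∈ S ∧ v ∈ T then (1 : ℤ) else 0) =
      (if u ∈ S then 1 else 0) * (if v ∈ T then 1 else 0) := by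
    intro u v
    by_cases h1 : u ∈ S <;> by_cases h2 : v ∈ T <;> simp [h1, h2]
  simp only [this, ← Finset.mul_sum, ← Finset.sum_mul]
  simp
  ring

/-- numerical facts about the powers of `P` -/
lemma powers (P : ℕ) (hP : 2 ≤ P) (n k : ℤ) (hn0 : 0 ≤ n) (hn : n ≤ P) (hk0 : 0 ≤ k)
    (hk : k ≤ P ^ 3) :
    ((P ^ 5 : ℕ) : ℤ) ^ 2 * (n ^ 2 * (1 + (2 * ((P ^ 5 : ℕ) : ℤ) + 1 + 2 * k) ^ 2)) <
        ((P ^ 32 : ℕ) : ℤ) ∧
    k * (2 * (n ^ 2 * (1 + (2 * ((P ^ 5 : ℕ) : ℤ) + 1) * ((P ^ 32 : ℕ) : ℤ)))) ≤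
        ((P ^ 64 : ℕ) : ℤ) ∧
    2 * ((P ^ 5 : ℕ) : ℤ) + 1 ≤ ((P ^ 64 : ℕ) : ℤ) ∧
    (P : ℤ) + ((P ^ 5 : ℕ) : ℤ) + 1 ≤ ((P ^ 64 : ℕ) : ℤ) := by
  push_cast
  have hP' : (2 : ℤ) ≤ P := by exact_mod_cast hP
  generalize (P : ℤ) = p at *
  have hp0 : 0 ≤ p := by linarith
  have hmono : ∀ a b : ℕ, a ≤ b → p ^ a ≤ p ^ b := fun a b hab =>
    pow_le_pow_right₀ (by linarith) hab
  have hdbl : ∀ a : ℕ, 2 * p ^ a ≤ p ^ (a + 1) := by
    intro a
    rw [pow_succ]
    have : 0 ≤ p ^ a := pow_nonneg hp0 a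
    nlinarith
  have h1 : ∀ a : ℕ, 1 ≤ p ^ a := fun a => one_le_pow₀ (by linarith)
  -- 2 p^5 + 1 + 2k ≤ p^7
  have e1 : 2 * p ^ 5 + 1 + 2 * k ≤ p ^ 7 := by
    have a1 : 2 * p ^ 5 ≤ p ^ 6 := hdbl 5
    have a2 : 2 * p ^ 3 ≤ p ^ 4 := hdbl 3
    have a3 : p ^ 4 ≤ p ^ 5 := hmono 4 5 (by norm_num)
    have a4 : 2 * p ^ 6 ≤ p ^ 7 := hdbl 6
    have a5 : 1 ≤ p ^ 5 := h1 5
    linarith
  have e1' : 2 * p ^ 5 + 1 ≤ p ^ 7 := by linarith
  have hn2 : n ^ 2 ≤ p ^ 2 := pow_le_pow_left₀ hn0 hn 2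
  have hn20 : 0 ≤ n ^ 2 := sq_nonneg n
  refine ⟨?_, ?_, ?_, ?_⟩
  · have a1 : (2 * p ^ 5 + 1 + 2 * k) ^ 2 ≤ p ^ 14 := by
      calc (2 * p ^ 5 + 1 + 2 * k) ^ 2 ≤ (p ^ 7) ^ 2 :=
            pow_le_pow_left₀ (by have := h1 5; linarith) e1 2
        _ = p ^ 14 := by rw [← pow_mul]
    have a2 : 1 + (2 * p ^ 5 + 1 + 2 * k) ^ 2 ≤ p ^ 15 := by
      have : 2 * p ^ 14 ≤ p ^ 15 := hdbl 14
      have := h1 14
      linarith
    calc (p ^ 5) ^ 2 * (n ^ 2 * (1 + (2 * p ^ 5 + 1 + 2 * k) ^ 2))
        ≤ (p ^ 5) ^ 2 * (p ^ 2 * p ^ 15) := by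
          refine mul_le_mul_of_nonneg_left ?_ (sq_nonneg _)
          exact mul_le_mul hn2 a2 (by positivity) (by positivity)
      _ = p ^ 27 := by ring
      _ < p ^ 32 := pow_lt_pow_right₀ (by linarith) (by norm_num)
  · have a1 : 1 + (2 * p ^ 5 + 1) * p ^ 32 ≤ p ^ 40 := by
      have b1 : (2 * p ^ 5 + 1) * p ^ 32 ≤ p ^ 7 * p ^ 32 :=
        mul_le_mul_of_nonneg_right e1' (pow_nonneg hp0 _)
      have b2 : p ^ 7 * p ^ 32 = p ^ 39 := by ring
      have : 2 * p ^ 39 ≤ p ^ 40 := hdbl 39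
      have := h1 39
      linarith
    have a0 : 0 ≤ 1 + (2 * p ^ 5 + 1) * p ^ 32 := by positivity
    calc k * (2 * (n ^ 2 * (1 + (2 * p ^ 5 + 1) * p ^ 32)))
        ≤ p ^ 3 * (2 * (p ^ 2 * p ^ 40)) := by
          refine mul_le_mul hk ?_ (by positivity) (by positivity)
          have := mul_le_mul hn2 a1 a0 (by positivity)
          linarith
      _ = 2 * p ^ 45 := by ring
      _ ≤ p ^ 46 := hdbl 45
      _ ≤ p ^ 64 := hmono _ _ (by norm_num)
  · exact e1'.trans (hmono _ _ (by norm_num))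
  · have a1 := hmono 1 5 (by norm_num)
    have a2 := hmono 7 64 (by norm_num)
    rw [pow_one] at a1
    linarith

/-! ### the main part of the algorithm -/

theorem main_spec {n m : ℕ} (tail head : Fin m → Fin n) (S T : Finset (Fin n)) (k : ℕ) (s : Mem)
    (hn : s.v vN = n) (hm : s.v vM = m) (hk : s.v vK = k)
    (hT : s.v vT = (((n + m + 2) ^ 32 : ℕ) : ℤ)) (hB : s.v vB = (((n + m + 2) ^ 64 : ℕ) : ℤ))
    (ht : ∀ i : Fin m, s.a aTail (i : ℕ) 0 = (tail i : ℕ))
    (hh : ∀ i : Fin m, s.a aHead (i : ℕ) 0 = (head i : ℕ)) (hST : HasST S T s) :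
    ∃ x : Fin n → Fin n → ℤ, (∀ u v : Fin n, (mainC.run s).a aOut (u : ℕ) (v : ℕ) = x u v) ∧
      Covers S T (fun u v => (mult tail head u v : ℤ)) k x ∧
      ∀ y, Covers S T (fun u v => (mult tail head u v : ℤ)) k y → tot x ≤ tot y := by
  generalize hP : n + m + 2 = P at hT hB
  have hP2 : 2 ≤ P := by omega
  have hnP : (n : ℤ) ≤ P := by exact_mod_cast (by omega : n ≤ P)
  have hmP : (m : ℤ) ≤ P := by exact_mod_cast (by omega : m ≤ P)
  set K0 : ℤ := (S.card : ℤ) * T.card * m + 1 with hK0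
  set D : Fin n → Fin n → ℤ := fun u v => (mult tail head u v : ℤ) with hDdef
  have hD0 : ∀ u v, 0 ≤ D u v := fun u v => Int.natCast_nonneg _
  have hScard : (S.card : ℤ) ≤ n := by
    have := Finset.card_le_univ S
    rw [Fintype.card_fin] at this
    exact_mod_cast this
  have hTcard : (T.card : ℤ) ≤ n := by
    have := Finset.card_le_univ T
    rw [Fintype.card_fin] at this
    exact_mod_cast this
  have hPz : (2 : ℤ) ≤ P := by exact_mod_cast hP2
  have hST2 : (S.card : ℤ) * T.card ≤ P ^ 2 := by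
    have h1 : (S.card : ℤ) ≤ P := hScard.trans hnP
    have h2 : (T.card : ℤ) ≤ P := hTcard.trans hnP
    have := mul_le_mul h1 h2 (Int.natCast_nonneg _) (by linarith)
    rw [sq]; exact this
  have hK0P : K0 ≤ P ^ 3 := by
    have h1 : (m : ℤ) + 2 ≤ P := by exact_mod_cast (by omega : m + 2 ≤ P)
    have h2 : (S.card : ℤ) * T.card * m ≤ P ^ 2 * (P - 2) :=
      mul_le_mul hST2 (by linarith) (Int.natCast_nonneg _) (sq_nonneg _)
    have h3 : (P : ℤ) ^ 2 * (P - 2) + 1 ≤ P ^ 3 := by nlinarith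
    linarith
  -- reading
  unfold mainC
  simp only [run_seq]
  have hD1 := read_spec tail head s hn hm ht hh
  set s1 := readC.run s with hs1
  have s1v : ∀ z, readC.wr z = false → s1.v z = s.v z := fun z hz => Cmd.run_v z _ hz s
  have s1a : ∀ b, readC.wra b = false → s1.a b = s.a b := fun b hb => Cmd.run_a b _ hb s
  clear_value s1
  have hST1 : HasST S T s1 := hST.congr (s1a _ (by decide)) (s1a _ (by decide))
  -- bounds
  have hcS : S.card ≤ P ^ 64 := by
    have h1 : S.card ≤ P := by exact_mod_cast hScard.trans hnP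
    exact h1.trans (Nat.le_self_pow (by norm_num) P)
  have hcST : S.card * T.card ≤ P ^ 64 := by
    have h1 : S.card * T.card ≤ P ^ 2 := by exact_mod_cast hST2
    exact h1.trans (Nat.pow_le_pow_right (by omega) (by norm_num))
  obtain ⟨hkk, hrest⟩ := bound_spec (k := k) s1 (by rw [s1v vN (by decide), hn])
    (by rw [s1v vM (by decide), hm]) (by rw [s1v vK (by decide), hk])
    (by rw [s1v vB (by decide), hB]) hST1 hcS hcST
  set s2 := boundC.run s1 with hs2
  have s2v : ∀ z, boundC.wr z = false → s2.v z = s1.v z := fun z hz => Cmd.run_v z _ hz s1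
  have s2a : ∀ b, boundC.wra b = false → s2.a b = s1.a b := fun b hb => Cmd.run_a b _ hb s1
  clear_value s2
  set kk : ℤ := min (k : ℤ) K0 with hkkdef
  have hK01 : 1 ≤ K0 := by
    have : (0 : ℤ) ≤ (S.card : ℤ) * T.card * m := by positivity
    linarith
  have hkk0 : 0 ≤ kk := le_min (Int.natCast_nonneg _) (by linarith)
  have hkkP : kk ≤ P ^ 3 := (min_le_right _ _).trans hK0P
  have mkBds : ∀ κ : ℤ, 0 ≤ κ → κ ≤ P ^ 3 → Bds n κ (P ^ 5) (P ^ 32) (P ^ 64) := by
    intro κ h0 h1
    obtain ⟨b1, b2, b3, b4⟩ := powers P hP2 n κ (Int.natCast_nonneg _) hnP h0 h1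
    refine ⟨?_, h0, ?_, b1, b2, b3⟩
    · exact (by omega : n ≤ P).trans (Nat.le_self_pow (by norm_num) P)
    · push_cast
      exact h1.trans (pow_le_pow_right₀ (by linarith) (by norm_num))
  have hDle : ∀ u v, D u v ≤ P := by
    intro u v
    have h1 := le_tot hD0 u v
    rw [tot_mult] at h1
    exact h1.trans hmP
  have hbig : (P : ℤ) + ((P ^ 5 : ℕ) : ℤ) + 1 ≤ ((P ^ 64 : ℕ) : ℤ) :=
    (powers P hP2 n 0 (Int.natCast_nonneg _) hnP le_rfl (by positivity)).2.2.2
  have hoptle : ∀ (D' : Fin n → Fin n → ℤ) (κ μ : ℤ), (∀ u v, 0 ≤ D' u v) → 0 ≤ κ → κ ≤ P ^ 3 →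
      IsMin S T D' κ μ → μ ≤ ((P ^ 5 : ℕ) : ℤ) := by
    intro D' κ μ hD' h0 h1 h2
    have h3 := h2.le_mul hD' h0
    have h4 : (S.card : ℤ) * T.card * κ ≤ P ^ 2 * P ^ 3 :=
      mul_le_mul hST2 h1 h0 (sq_nonneg _)
    push_cast
    calc μ ≤ _ := h3
      _ ≤ _ := h4
      _ = (P : ℤ) ^ 5 := by ring
  have hE2 : Env0 S T kk (P ^ 64) (P ^ 32) s2 := by
    refine ⟨?_, ?_, ?_, ?_, hkk⟩
    · rw [s2v vN (by decide), s1v vN (by decide), hn]
    · exact hST1.congr (s2a _ (by decide)) (s2a _ (by decide))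
    · rw [s2v vB (by decide), s1v vB (by decide), hB]
    · rw [s2v vT (by decide), s1v vT (by decide), hT]
  obtain ⟨m0, hm0, -⟩ := exists_opt S T kk D hD0
  obtain ⟨x0, hx0, hx0c, hx0t⟩ := solve_spec (mkBds kk hkk0 hkkP) hE2
    (fun u v => by rw [s2a aD (by decide)]; exact hD1 u v) hD0
    (fun u v => by have := hDle u v; linarith) hm0 (hoptle D kk m0 hD0 hkk0 hkkP hm0)
  set s3 := solveC.run s2 with hs3
  have s3v : ∀ z, solveC.wr z = false → s3.v z = s2.v z := fun z hz => Cmd.run_v z _ hz s2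
  have s3a : ∀ b, solveC.wra b = false → s3.a b = s2.a b := fun b hb => Cmd.run_a b _ hb s2
  clear_value s3
  -- copy
  have hn3 : s3.v vN = n := by rw [s3v vN (by decide)]; exact hE2.hn
  have hmap3 := loop2_map vU vV (by decide) (by decide) (by decide)
    (.put aOut (.var vU) (.var vV) (.get aXO (.var vU) (.var vV))) (by decide) (by decide) s3 n
    hn3 aOut (fun i j => s3.a aXO (i : ℕ) (j : ℕ)) (by
      intro i hi j hj s' hv ha hs hun i' j'
      have h1 : (s'.setv vV j).v vU = i := by rw [setv_ne _ _ (by decide), hs]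
      have h2 : (s'.setv vV j).v vV = j := by simp [setv_v]
      simp only [Cmd.run, Exp.val]
      rw [h1, h2, seta_a, setv_a, ha aXO (by decide)]
      simp only [true_and, Nat.cast_inj])
  set s4 := (for2 (.put aOut (.var vU) (.var vV) (.get aXO (.var vU) (.var vV)))).run s3 with hs4
  have s4v : ∀ z, z ≠ vU → z ≠ vV → s4.v z = s3.v z := by
    intro z h1 h2
    refine Cmd.run_v z _ ?_ s3
    simp only [for2, Cmd.wr, Bool.or_false, Bool.or_eq_false_iff, beq_eq_false_iff_ne]
    exact ⟨h1, h2⟩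
  have s4a : ∀ b, b ≠ aOut → s4.a b = s3.a b := by
    intro b hb
    refine Cmd.run_a b _ ?_ s3
    simp only [for2, Cmd.wra, beq_eq_false_iff_ne]
    exact hb
  have h4out : ∀ u v : Fin n, s4.a aOut (u : ℕ) (v : ℕ) = x0 u v := fun u v => by
    rw [← hx0 u v]; exact hmap3 u u.2 v v.2
  clear_value s4
  -- clear the digraph
  have hmap4 := loop2_map vU vV (by decide) (by decide) (by decide)
    (.put aD (.var vU) (.var vV) (.lit 0)) (by decide) (by decide) s4 n
    (by rw [s4v vN (by decide) (by decide), hn3]) aD (fun i j => 0) (by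
      intro i hi j hj s' hv ha hs hun i' j'
      have h1 : (s'.setv vV j).v vU = i := by rw [setv_ne _ _ (by decide), hs]
      have h2 : (s'.setv vV j).v vV = j := by simp [setv_v]
      rw [run_put, val_var, val_var, val_lit, h1, h2, seta_a, setv_a]
      simp only [true_and, Nat.cast_inj])
  set s5 := (for2 (.put aD (.var vU) (.var vV) (.lit 0))).run s4 with hs5
  have s5v : ∀ z, z ≠ vU → z ≠ vV → s5.v z = s4.v z := by
    intro z h1 h2
    refine Cmd.run_v z _ ?_ s4
    simp only [for2, Cmd.wr, Bool.or_false, Bool.or_eq_false_iff, beq_eq_false_iff_ne]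
    exact ⟨h1, h2⟩
  have s5a : ∀ b, b ≠ aD → s5.a b = s4.a b := by
    intro b hb
    refine Cmd.run_a b _ ?_ s4
    simp only [for2, Cmd.wra, beq_eq_false_iff_ne]
    exact hb
  have h5D : HasD (fun _ _ => (0 : ℤ)) s5 := fun u v => hmap4 u u.2 v v.2
  clear_value s5
  set s6 := (Cmd.set vKK (.lit 1)).run s5 with hs6
  have s6v : ∀ z, z ≠ vKK → s6.v z = s5.v z := by
    intro z hz; rw [hs6, run_set, setv_ne _ _ hz]
  have s6a : ∀ b, s6.a b = s5.a b := fun b => rfl
  have h6k : s6.v vKK = 1 := by rw [hs6, run_set, setv_v, if_pos rfl]; rfl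
  clear_value s6
  have hE6 : Env0 S T 1 (P ^ 64) (P ^ 32) s6 := by
    refine ⟨?_, ?_, ?_, ?_, h6k⟩
    · rw [s6v vN (by decide), s5v vN (by decide) (by decide), s4v vN (by decide) (by decide), hn3]
    · refine hE2.hST.congr ?_ ?_
      · rw [s6a, s5a aS (by decide), s4a aS (by decide), s3a aS (by decide)]
      · rw [s6a, s5a aT (by decide), s4a aT (by decide), s3a aT (by decide)]
    · rw [s6v vB (by decide), s5v vB (by decide) (by decide), s4v vB (by decide) (by decide),
        s3v vB (by decide)]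
      exact hE2.hB
    · rw [s6v vT (by decide), s5v vT (by decide) (by decide), s4v vT (by decide) (by decide),
        s3v vT (by decide)]
      exact hE2.hT
  have h1P : (1 : ℤ) ≤ P ^ 3 := one_le_pow₀ (by linarith)
  obtain ⟨c, hc, -⟩ := exists_opt S T 1 (fun _ _ : Fin n => (0 : ℤ)) (fun _ _ => le_rfl)
  obtain ⟨y, hy, hyc, hyt⟩ := solve_spec (mkBds 1 (by norm_num) h1P) hE6
    (fun u v => by rw [s6a]; exact h5D u v) (fun _ _ => le_rfl)
    (fun u v => by linarith) hc
    (hoptle _ 1 c (fun _ _ => le_rfl) (by norm_num) h1P hc)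
  set s7 := solveC.run s6 with hs7
  have s7v : ∀ z, solveC.wr z = false → s7.v z = s6.v z := fun z hz => Cmd.run_v z _ hz s6
  have s7a : ∀ b, solveC.wra b = false → s7.a b = s6.a b := fun b hb => Cmd.run_a b _ hb s6
  clear_value s7
  have h7out : ∀ u v : Fin n, s7.a aOut (u : ℕ) (v : ℕ) = x0 u v := by
    intro u v
    rw [s7a aOut (by decide), s6a, s5a aOut (by decide)]
    exact h4out u v
  have h7rest : s7.v vRest = k - kk := by
    rw [s7v vRest (by decide), s6v vRest (by decide), s5v vRest (by decide) (by decide),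
      s4v vRest (by decide) (by decide), s3v vRest (by decide), hrest]
  have h7B : s7.v vB = ((P ^ 64 : ℕ) : ℤ) := by rw [s7v vB (by decide)]; exact hE6.hB
  have h7n : s7.v vN = n := by rw [s7v vN (by decide)]; exact hE6.hn
  have hyB : ∀ u v, y u v ≤ ((P ^ 64 : ℕ) : ℤ) := by
    intro u v
    have h1 := le_tot hyc.1 u v
    have h2 := hoptle _ 1 c (fun _ _ => le_rfl) (by norm_num) h1P hc
    linarith
  -- final combination
  have hmap7 := loop2_map vU vV (by decide) (by decide) (by decide)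
    (.seq (mulC vX (.get aXO (.var vU) (.var vV)) (.var vRest))
      (.put aOut (.var vU) (.var vV) (.add (.get aOut (.var vU) (.var vV)) (.var vX))))
    (by decide) (by decide) s7 n h7n aOut
    (fun i j => s7.a aOut (i : ℕ) (j : ℕ) + s7.a aXO (i : ℕ) (j : ℕ) * (k - kk)) (by
      intro i hi j hj s' hv ha hs hun i' j'
      have h1 : (s'.setv vV j).v vU = i := by rw [setv_ne _ _ (by decide), hs]
      have h2 : (s'.setv vV j).v vV = j := by simp [setv_v]
      have h3 : (s'.setv vV j).v vRest = k - kk := by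
        rw [setv_ne _ _ (by decide), hv vRest (by decide) (by decide) (by decide), h7rest]
      have h4 : (s'.setv vV j).v vB = ((P ^ 64 : ℕ) : ℤ) := by
        rw [setv_ne _ _ (by decide), hv vB (by decide) (by decide) (by decide), h7B]
      have h5 : (s'.setv vV j).a aXO = s7.a aXO := by rw [setv_a, ha aXO (by decide)]
      have h6 : ∀ i' j' : ℕ, (s'.setv vV j).a aOut i' j' = s'.a aOut i' j' := fun _ _ => rfl
      set t := s'.setv vV j with ht
      clear_value t
      rw [run_seq]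
      have hyv : s7.a aXO (i : ℕ) (j : ℕ) = y ⟨i, hi⟩ ⟨j, hj⟩ := hy ⟨i, hi⟩ ⟨j, hj⟩
      have m1 := mul_spec vX (.get aXO (.var vU) (.var vV)) (.var vRest) t (P ^ 64) h4
        (by decide) (by decide) (by decide) (by decide) (by
          simp only [Exp.val]
          rw [setv_ne _ _ (by decide)])
        (by
          simp only [Exp.val]; rw [h1, h2, h5, hyv]; exact hyc.1 _ _)
        (by
          simp only [Exp.val]; rw [h1, h2, h5, hyv]; exact hyB _ _)
      set t1 := (mulC vX (.get aXO (.var vU) (.var vV)) (.var vRest)).run t with ht1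
      have t1v : ∀ z, (mulC vX (.get aXO (.var vU) (.var vV)) (.var vRest)).wr z = false →
          t1.v z = t.v z := fun z hz => Cmd.run_v z _ hz t
      have t1a : ∀ b, t1.a b = t.a b := fun b => Cmd.run_a b _ rfl t
      clear_value t1
      simp only [run_put, Exp.val] at m1 ⊢
      rw [t1v vU (by decide), t1v vV (by decide), m1, h1, h2, h3, h5, seta_a, t1a, h6, h6, hun]
      simp only [true_and, Nat.cast_inj])
  refine ⟨fun u v => x0 u v + (k - kk) * y u v, ?_, ?_⟩
  · intro u v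
    have h1 := hmap7 u u.2 v v.2
    rw [h7out u v, hy u v] at h1
    change ((for2 _).run s7).a aOut (u : ℕ) (v : ℕ) = _ at h1
    rw [h1]
    ring
  · have hx0min : ∀ x, Covers S T D kk x → tot x0 ≤ tot x := by
      intro x hx; rw [hx0t]; exact hm0.2 x hx
    have hymin : ∀ x, Covers S T (fun _ _ => 0) 1 x → tot y ≤ tot x := by
      intro x hx; rw [hyt]; exact hc.2 x hx
    by_cases hlt : (k : ℤ) < K0
    · have hkeq : kk = k := min_eq_left hlt.le
      rw [hkeq] at hx0c hx0min ⊢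
      have : (fun u v => x0 u v + ((k : ℤ) - k) * y u v) = x0 := by
        funext u v; ring
      rw [this]
      exact ⟨hx0c, hx0min⟩
    · have hkeq : kk = K0 := min_eq_right (not_lt.1 hlt)
      rw [hkeq] at hx0c hx0min ⊢
      refine slope hD0 ?_ (not_lt.1 hlt) hx0c hx0min hyc hymin
      rw [hDdef, tot_mult, hK0]
      linarith

/-! ### translation to arc-disjoint paths -/

lemma augments_iff {n m : ℕ} (tail head : Fin m → Fin n) (S T : Finset (Fin n)) (k : ℕ)
    (x : Fin n → Fin n → ℕ) : Augments tail head S T k x ↔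
      Covers S T (fun u v => (mult tail head u v : ℤ)) k (fun u v => (x u v : ℤ)) := by
  have hcut : ∀ X : Finset (Fin n), cutw (fun u v => ((mult tail head u v + x u v : ℕ) : ℤ)) X =
      cutw (fun u v => (mult tail head u v : ℤ)) X + cutw (fun u v => (x u v : ℤ)) X := by
    intro X
    rw [← cutw_add]
    simp
  constructor
  · rintro ⟨h1, h2⟩
    refine ⟨fun u v => Int.natCast_nonneg _, ?_, ?_⟩
    · intro u v huv
      by_contra h
      simp only [Nat.cast_eq_zero] at h
      exact huv (h1 u v h)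
    · rintro X ⟨⟨s, hs, hsX⟩, ⟨t, ht, htX⟩⟩
      have hne : s ≠ t := by rintro rfl; exact hsX htX
      have h3 := (menger _ s t k).1 (h2 s hs t ht hne) X hsX htX
      rw [hcut X] at h3
      exact h3
  · rintro ⟨h1, h2, h3⟩
    refine ⟨?_, ?_⟩
    · intro u v huv
      by_contra h
      have h4 := h2 u v h
      simp only [Nat.cast_eq_zero] at h4
      exact huv h4
    · intro s hs t ht hne
      refine (menger _ s t k).2 fun X hsX htX => ?_
      rw [hcut X]
      exact h3 X ⟨⟨s, hs, hsX⟩, ⟨t, ht, htX⟩⟩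

/-- Correctness of the algorithm. -/
theorem algorithm_correct {n m : ℕ} (tail head : Fin m → Fin n) (S T : Finset (Fin n)) (k : ℕ) :
    ∃ x : Fin n → Fin n → ℕ,
      (∀ u v : Fin n, (algorithm.run (input tail head S T k)).a aOut (u : ℕ) (v : ℕ) = x u v) ∧
      IsMinimumAugmentation tail head S T k x := by
  have hn : (input tail head S T k).v vN = n := rfl
  have hm : (input tail head S T k).v vM = m := rfl
  have hk : (input tail head S T k).v vK = k := rfl
  obtain ⟨h1, h2, -⟩ := init_spec (input tail head S T k) n m hn hm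
  unfold algorithm
  rw [run_seq]
  have s1v : ∀ z, initC.wr z = false →
    (initC.run (input tail head S T k)).v z = (input tail head S T k).v z :=
    fun z hz => Cmd.run_v z _ hz _
  have s1a : ∀ b, (initC.run (input tail head S T k)).a b = (input tail head S T k).a b :=
    fun b => Cmd.run_a b _ rfl _
  obtain ⟨x, hx, hxc, hxm⟩ := main_spec tail head S T k (initC.run (input tail head S T k))
    (by rw [s1v vN (by decide), hn]) (by rw [s1v vM (by decide), hm])
    (by rw [s1v vK (by decide), hk]) h1 h2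
    (fun i => by rw [s1a]; exact input_tail _ _ _ _ _ i)
    (fun i => by rw [s1a]; exact input_head _ _ _ _ _ i)
    ((input_ST tail head S T k).congr (s1a _) (s1a _))
  have hcast : (fun u v => ((x u v).toNat : ℤ)) = x := by
    funext u v
    exact Int.toNat_of_nonneg (hxc.1 u v)
  refine ⟨fun u v => (x u v).toNat, ?_, ?_, ?_⟩
  · intro u v
    rw [hx u v, Int.toNat_of_nonneg (hxc.1 u v)]
  · rw [augments_iff, hcast]
    exact hxc
  · intro y hy
    have h3 := hxm _ ((augments_iff tail head S T k y).1 hy)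
    rw [← hcast] at h3
    have h4 : ∑ u, ∑ v, ((x u v).toNat : ℤ) ≤ ∑ u, ∑ v, (y u v : ℤ) := h3
    exact_mod_cast h4

/-! ### running time and size of the numbers -/

theorem algorithm_cost {n m : ℕ} (tail head : Fin m → Fin n) (S T : Finset (Fin n)) (k : ℕ) :
    algorithm.cost (input tail head S T k) ≤ (54 + mainC.size) * (n + m + 2) ^ 650 := by
  have hn : (input tail head S T k).v vN = n := rfl
  have hm : (input tail head S T k).v vM = m := rfl
  obtain ⟨h1, h2, h3⟩ := init_spec (input tail head S T k) n m hn hm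
  have s1v : ∀ z, initC.wr z = false →
    (initC.run (input tail head S T k)).v z = (input tail head S T k).v z :=
    fun z hz => Cmd.run_v z _ hz _
  generalize hP : n + m + 2 = P at h1 h2 h3 ⊢
  have hP2 : 2 ≤ P := by omega
  have h4 : mainC.cost (initC.run (input tail head S T k)) ≤ mainC.costB (P ^ 64) := by
    refine Cmd.cost_le (fun x => x == vN || x == vM || x == vT || x == vB) (P ^ 64) mainC
      (by decide) (by decide) _ ?_
    intro x hx
    simp only [Bool.or_eq_true, beq_iff_eq] at hx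
    rcases hx with ((rfl | rfl) | rfl) | rfl
    · rw [s1v vN (by decide), hn, Int.toNat_natCast]
      exact (by omega : n ≤ P).trans (Nat.le_self_pow (by norm_num) P)
    · rw [s1v vM (by decide), hm, Int.toNat_natCast]
      exact (by omega : m ≤ P).trans (Nat.le_self_pow (by norm_num) P)
    · rw [h1, Int.toNat_natCast]
      exact Nat.pow_le_pow_right (by omega) (by norm_num)
    · rw [h2, Int.toNat_natCast]
  have h5 := mainC.costB_le (P ^ 64)
  have h6 : mainC.depth = 10 := by decide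
  rw [h6] at h5
  have h7 : P ^ 64 + 1 ≤ P ^ 65 := by
    have h8 : 1 ≤ P ^ 64 := Nat.one_le_pow _ _ (by omega)
    rw [pow_succ P 64]
    nlinarith
  have h8 : (P ^ 64 + 1) ^ 10 ≤ P ^ 650 := by
    calc (P ^ 64 + 1) ^ 10 ≤ (P ^ 65) ^ 10 := Nat.pow_le_pow_left h7 10
      _ = P ^ 650 := by rw [← pow_mul]
  have h9 : P ^ 32 ≤ P ^ 650 := Nat.pow_le_pow_right (by omega) (by norm_num)
  unfold algorithm
  simp only [Cmd.cost]
  calc initC.cost (input tail head S T k) + mainC.cost (initC.run (input tail head S T k))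
      ≤ 54 * P ^ 32 + mainC.size * (P ^ 64 + 1) ^ 10 := by
        exact Nat.add_le_add h3 (h4.trans h5)
    _ ≤ 54 * P ^ 650 + mainC.size * P ^ 650 :=
        Nat.add_le_add (Nat.mul_le_mul_left _ h9) (Nat.mul_le_mul_left _ h8)
    _ = _ := by ring

lemma input_bdd {n m : ℕ} (tail head : Fin m → Fin n) (S T : Finset (Fin n)) (k : ℕ) :
    (input tail head S T k).Bdd (n + m + 2 + k) := by
  constructor
  · intro x
    simp only [input]
    split_ifs <;> simp <;> omega
  · intro b i j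
    simp only [input]
    split_ifs with h1 h2 h3 h4 h5 h6 h7 h8 h9 h10 h11
    · have := (tail ⟨i.toNat, h3⟩).2
      rw [Int.natAbs_natCast]; omega
    · simp
    · have := (head ⟨i.toNat, h5⟩).2
      rw [Int.natAbs_natCast]; omega
    · simp
    · simp; omega
    · simp
    · simp
    · simp; omega
    · simp
    · simp
    · simp
    · simp

set_option maxRecDepth 100000 in
lemma algorithm_lits : algorithm.lits = 2 := by decide

theorem algorithm_peak {n m : ℕ} (tail head : Fin m → Fin n) (S T : Finset (Fin n)) (k : ℕ) :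
    (algorithm.peak (input tail head S T k)).size ≤
      (56 + mainC.size) * (n + m + 2) ^ 650 + k.size := by
  have h1 := (algorithm.peak_le (n + m + 2 + k) (input tail head S T k)
    (input_bdd tail head S T k) (by rw [algorithm_lits]; omega)).2
  have h2 := algorithm_cost tail head S T k
  generalize hP : n + m + 2 = P at h1 h2 ⊢
  have hP2 : 2 ≤ P := by omega
  have h3 : P + k ≤ 2 ^ P * 2 ^ k.size := by
    have a1 : P < 2 ^ P := Nat.lt_two_pow_self
    have a2 : k < 2 ^ k.size := Nat.lt_size_self k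
    have a3 : 1 ≤ 2 ^ P := Nat.one_le_two_pow
    have a4 : 1 ≤ 2 ^ k.size := Nat.one_le_two_pow
    nlinarith
  have h4 : algorithm.peak (input tail head S T k) <
      2 ^ (algorithm.cost (input tail head S T k) + P + k.size + 1) := by
    calc algorithm.peak (input tail head S T k)
        ≤ 2 ^ algorithm.cost (input tail head S T k) * (P + k) := h1
      _ ≤ 2 ^ algorithm.cost (input tail head S T k) * (2 ^ P * 2 ^ k.size) :=
          Nat.mul_le_mul_left _ h3
      _ = 2 ^ (algorithm.cost (input tail head S T k) + P + k.size) := by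
          rw [pow_add, pow_add]; ring
      _ < _ := Nat.pow_lt_pow_right (by norm_num) (by omega)
  have h5 := Nat.size_le.2 h4
  have h6 : P ≤ P ^ 650 := Nat.le_self_pow (by norm_num) P
  have h7 : 1 ≤ P ^ 650 := Nat.one_le_pow _ _ (by omega)
  have h8 : (56 + mainC.size) * P ^ 650 = (54 + mainC.size) * P ^ 650 + P ^ 650 + P ^ 650 := by
    ring
  omega

end Pool.Agent.H87.ST
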