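import Pool.Agent.H87.ST.Defs

namespace Pool.Agent.H87.ST

/-! ### numbers stay short -/

/-- all numbers in memory have absolute value at most `M` -/
def Mem.Bdd (M : ℕ) (s : Mem) : Prop :=
  (∀ x, (s.v x).natAbs ≤ M) ∧ ∀ b i j, (s.a b i j).natAbs ≤ M

/-- largest absolute value of a constant in an expression -/
def Exp.lits : Exp → ℕ
  | .lit z => z.natAbs
  | .var _ => 0
  | .get _ i j => max i.lits j.lits
  | .add e f => max e.lits f.lits
  | .sub e f => max e.lits f.lits

def Cmd.lits : Cmd → ℕ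
  | .skip => 0
  | .set _ e => e.lits
  | .put _ i j e => max (max i.lits j.lits) e.lits
  | .seq c d => max c.lits d.lits
  | .ifLt e f c d => max (max e.lits f.lits) (max c.lits d.lits)
  | .loop _ _ c => c.lits

lemma Mem.Bdd.mono {M M' : ℕ} {s : Mem} (h : s.Bdd M) (hM : M ≤ M') : s.Bdd M' :=
  ⟨fun x => (h.1 x).trans hM, fun b i j => (h.2 b i j).trans hM⟩

lemma pow_mul_mono {M a b : ℕ} (h : a ≤ b) : 2 ^ a * M ≤ 2 ^ b * M :=
  Nat.mul_le_mul_right _ (Nat.pow_le_pow_right (by norm_num) h)

lemma Exp.val_le {M : ℕ} {s : Mem} (hs : s.Bdd M) : ∀ e : Exp, e.lits ≤ M →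
    (e.val s).natAbs ≤ 2 ^ e.ops * M ∧ e.peak s ≤ 2 ^ e.ops * M
  | .lit z, h => by
    have h0 : M ≤ 2 ^ 1 * M := by omega
    exact ⟨h.trans h0, h.trans h0⟩
  | .var x, h => by
    have h0 : M ≤ 2 ^ 1 * M := by omega
    exact ⟨(hs.1 x).trans h0, (hs.1 x).trans h0⟩
  | .get b i j, h => by
    simp only [Exp.lits, max_le_iff] at h
    have h1 := Exp.val_le hs i h.1
    have h2 := Exp.val_le hs j h.2
    have h3 := hs.2 b (i.val s) (j.val s)
    have h0 : M ≤ 2 ^ (Exp.get b i j).ops * M := Nat.le_mul_of_pos_left _ (by positivity)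
    refine ⟨h3.trans h0, ?_⟩
    simp only [Exp.peak, max_le_iff]
    refine ⟨⟨h1.2.trans (pow_mul_mono ?_), h2.2.trans (pow_mul_mono ?_)⟩, h3.trans h0⟩ <;>
      simp only [Exp.ops] <;> omega
  | .add e f, h => by
    simp only [Exp.lits, max_le_iff] at h
    have h1 := Exp.val_le hs e h.1
    have h2 := Exp.val_le hs f h.2
    have h3 : (e.val s + f.val s).natAbs ≤ 2 ^ (Exp.add e f).ops * M := by
      refine (Int.natAbs_add_le _ _).trans ?_
      have h4 : 2 ^ e.ops * M ≤ 2 ^ (e.ops + f.ops) * M := pow_mul_mono (by omega)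
      have h5 : 2 ^ f.ops * M ≤ 2 ^ (e.ops + f.ops) * M := pow_mul_mono (by omega)
      have h6 : 2 ^ (Exp.add e f).ops * M = 2 ^ (e.ops + f.ops) * M + 2 ^ (e.ops + f.ops) * M := by
        simp only [Exp.ops]; ring
      omega
    refine ⟨h3, ?_⟩
    simp only [Exp.peak, max_le_iff]
    refine ⟨⟨h1.2.trans (pow_mul_mono ?_), h2.2.trans (pow_mul_mono ?_)⟩, h3⟩ <;>
      simp only [Exp.ops] <;> omega
  | .sub e f, h => by
    simp only [Exp.lits, max_le_iff] at h
    have h1 := Exp.val_le hs e h.1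
    have h2 := Exp.val_le hs f h.2
    have h3 : (e.val s - f.val s).natAbs ≤ 2 ^ (Exp.sub e f).ops * M := by
      refine (Int.natAbs_sub_le _ _).trans ?_
      have h4 : 2 ^ e.ops * M ≤ 2 ^ (e.ops + f.ops) * M := pow_mul_mono (by omega)
      have h5 : 2 ^ f.ops * M ≤ 2 ^ (e.ops + f.ops) * M := pow_mul_mono (by omega)
      have h6 : 2 ^ (Exp.sub e f).ops * M = 2 ^ (e.ops + f.ops) * M + 2 ^ (e.ops + f.ops) * M := by
        simp only [Exp.ops]; ring
      omega
    refine ⟨h3, ?_⟩
    simp only [Exp.peak, max_le_iff]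
    refine ⟨⟨h1.2.trans (pow_mul_mono ?_), h2.2.trans (pow_mul_mono ?_)⟩, h3⟩ <;>
      simp only [Exp.ops] <;> omega

lemma Mem.Bdd.setv {M : ℕ} {s : Mem} (hs : s.Bdd M) (x : ℕ) {z : ℤ} (hz : z.natAbs ≤ M) :
    (s.setv x z).Bdd M := by
  refine ⟨fun y => ?_, hs.2⟩
  simp only [Mem.setv]
  split_ifs
  · exact hz
  · exact hs.1 y

lemma Mem.Bdd.seta {M : ℕ} {s : Mem} (hs : s.Bdd M) (b : ℕ) (i j : ℤ) {z : ℤ}
    (hz : z.natAbs ≤ M) : (s.seta b i j z).Bdd M := by
  refine ⟨hs.1, fun c i' j' => ?_⟩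
  simp only [Mem.seta]
  split_ifs
  · exact hz
  · exact hs.2 c i' j'

/-- With additions and subtractions only, the number of bits grows by at most one per operation. -/
theorem Cmd.peak_le (c : Cmd) : ∀ (M : ℕ) (s : Mem), s.Bdd M → c.lits ≤ M →
    (c.run s).Bdd (2 ^ c.cost s * M) ∧ c.peak s ≤ 2 ^ c.cost s * M := by
  induction c with
  | skip =>
    intro M s hs _
    simp only [Cmd.run, Cmd.cost, Cmd.peak]
    exact ⟨hs.mono (by omega), by omega⟩
  | set x e =>
    intro M s hs hl
    simp only [Cmd.lits] at hl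
    have h := Exp.val_le hs e hl
    have h1 : 2 ^ e.ops * M ≤ 2 ^ (e.ops + 1) * M := pow_mul_mono (by omega)
    have h0 : M ≤ 2 ^ (e.ops + 1) * M := Nat.le_mul_of_pos_left _ (by positivity)
    simp only [Cmd.run, Cmd.cost, Cmd.peak]
    exact ⟨(hs.mono h0).setv _ (h.1.trans h1), h.2.trans h1⟩
  | put b i j e =>
    intro M s hs hl
    simp only [Cmd.lits, max_le_iff] at hl
    have h1 := Exp.val_le hs i hl.1.1
    have h2 := Exp.val_le hs j hl.1.2
    have h3 := Exp.val_le hs e hl.2
    have h0 : M ≤ 2 ^ (i.ops + j.ops + e.ops + 1) * M := Nat.le_mul_of_pos_left _ (by positivity)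
    have k1 : 2 ^ i.ops * M ≤ 2 ^ (i.ops + j.ops + e.ops + 1) * M := pow_mul_mono (by omega)
    have k2 : 2 ^ j.ops * M ≤ 2 ^ (i.ops + j.ops + e.ops + 1) * M := pow_mul_mono (by omega)
    have k3 : 2 ^ e.ops * M ≤ 2 ^ (i.ops + j.ops + e.ops + 1) * M := pow_mul_mono (by omega)
    simp only [Cmd.run, Cmd.cost, Cmd.peak, max_le_iff]
    exact ⟨(hs.mono h0).seta _ _ _ (h3.1.trans k3), ⟨h1.2.trans k1, h2.2.trans k2⟩, h3.2.trans k3⟩
  | seq c d ihc ihd =>
    intro M s hs hl
    simp only [Cmd.lits, max_le_iff] at hl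
    have h1 := ihc M s hs hl.1
    have h0 : M ≤ 2 ^ c.cost s * M := Nat.le_mul_of_pos_left _ (by positivity)
    have h2 := ihd _ _ h1.1 (hl.2.trans h0)
    have h3 : 2 ^ d.cost (c.run s) * (2 ^ c.cost s * M) =
        2 ^ (c.cost s + d.cost (c.run s)) * M := by
      rw [pow_add]; ring
    rw [h3] at h2
    simp only [Cmd.run, Cmd.cost, Cmd.peak, max_le_iff]
    exact ⟨h2.1, h1.2.trans (pow_mul_mono (by omega)), h2.2⟩
  | ifLt e f c d ihc ihd =>
    intro M s hs hl
    simp only [Cmd.lits, max_le_iff] at hl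
    have h1 := Exp.val_le hs e hl.1.1
    have h2 := Exp.val_le hs f hl.1.2
    simp only [Cmd.run, Cmd.cost, Cmd.peak, max_le_iff]
    split_ifs with h
    · have h3 := ihc M s hs hl.2.1
      exact ⟨h3.1.mono (pow_mul_mono (by omega)), ⟨h1.2.trans (pow_mul_mono (by omega)),
        h2.2.trans (pow_mul_mono (by omega))⟩, h3.2.trans (pow_mul_mono (by omega))⟩
    · have h3 := ihd M s hs hl.2.2
      exact ⟨h3.1.mono (pow_mul_mono (by omega)), ⟨h1.2.trans (pow_mul_mono (by omega)),
        h2.2.trans (pow_mul_mono (by omega))⟩, h3.2.trans (pow_mul_mono (by omega))⟩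
  | loop x y c ih =>
    intro M s hs hl
    simp only [Cmd.lits] at hl
    simp only [Cmd.run, Cmd.cost, Cmd.peak, max_le_iff]
    set f : ℕ → Mem → Mem := fun j s' => c.run (s'.setv x j) with hf
    have key : ∀ N : ℕ, N ≤ (s.v y).toNat →
        (iter f N s).Bdd (2 ^ (∑ j ∈ Finset.range N, (1 + c.cost ((iter f j s).setv x j))) * M) ∧
        ∀ j < N, c.peak ((iter f j s).setv x j) ≤
          2 ^ (∑ j ∈ Finset.range N, (1 + c.cost ((iter f j s).setv x j))) * M := by
      intro N
      induction N with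
      | zero =>
        intro _
        simp only [iter, Finset.range_zero, Finset.sum_empty, pow_zero, one_mul]
        exact ⟨hs, fun j hj => absurd hj (Nat.not_lt_zero _)⟩
      | succ N ihN =>
        intro hN
        obtain ⟨h1, h2⟩ := ihN (by omega)
        rw [Finset.sum_range_succ]
        set A := ∑ j ∈ Finset.range N, (1 + c.cost ((iter f j s).setv x j)) with hA
        have h0 : M ≤ 2 ^ A * M := Nat.le_mul_of_pos_left _ (by positivity)
        have hNM : N ≤ M := by
          have h3 := hs.1 y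
          have h4 : (s.v y).toNat ≤ (s.v y).natAbs := by omega
          omega
        have h3 := ih _ _ (h1.setv x (z := (N : ℤ)) (by simpa using hNM.trans h0)) (hl.trans h0)
        have h4 : 2 ^ c.cost ((iter f N s).setv x N) * (2 ^ A * M) ≤
            2 ^ (A + (1 + c.cost ((iter f N s).setv x N))) * M := by
          have : 2 ^ c.cost ((iter f N s).setv x N) * (2 ^ A * M) =
            2 ^ (A + c.cost ((iter f N s).setv x N)) * M := by
            rw [pow_add]; ring
          rw [this]
          exact pow_mul_mono (by omega)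
        refine ⟨?_, ?_⟩
        · simp only [iter]
          exact h3.1.mono h4
        · intro j hj
          rcases Nat.lt_succ_iff_lt_or_eq.1 hj with h5 | h5
          · exact (h2 j h5).trans (pow_mul_mono (by omega))
          · subst h5
            exact h3.2.trans h4
    obtain ⟨h1, h2⟩ := key _ le_rfl
    refine ⟨h1.mono (pow_mul_mono (by omega)), ?_, ?_⟩
    · exact (hs.1 y).trans (Nat.le_mul_of_pos_left _ (by positivity))
    · refine Finset.sup_le fun j hj => ?_
      rw [Finset.mem_range] at hj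
      refine max_le ?_ ((h2 j hj).trans (pow_mul_mono (by omega)))
      have h3 := hs.1 y
      have h4 : (s.v y).toNat ≤ (s.v y).natAbs := by omega
      have h5 : M ≤ 2 ^ (1 + ∑ j ∈ Finset.range (s.v y).toNat,
        (1 + c.cost ((iter f j s).setv x j))) * M := Nat.le_mul_of_pos_left _ (by positivity)
      exact (by omega : j ≤ M).trans h5

/-! ### frames -/

/-- does the program write variable `x`? -/
def Cmd.wr (x : ℕ) : Cmd → Bool
  | .skip => false
  | .set y _ => x == y
  | .put _ _ _ _ => false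
  | .seq c d => c.wr x || d.wr x
  | .ifLt _ _ c d => c.wr x || d.wr x
  | .loop y _ c => x == y || c.wr x

/-- does the program write array `b`? -/
def Cmd.wra (b : ℕ) : Cmd → Bool
  | .skip => false
  | .set _ _ => false
  | .put b' _ _ _ => b == b'
  | .seq c d => c.wra b || d.wra b
  | .ifLt _ _ c d => c.wra b || d.wra b
  | .loop _ _ c => c.wra b

lemma setv_ne (s : Mem) {x y : ℕ} (z : ℤ) (h : y ≠ x) : (s.setv x z).v y = s.v y := by
  simp [Mem.setv, h]

@[simp] lemma setv_a (s : Mem) (x : ℕ) (z : ℤ) : (s.setv x z).a = s.a := rfl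

@[simp] lemma seta_v (s : Mem) (b : ℕ) (i j z : ℤ) : (s.seta b i j z).v = s.v := rfl

theorem Cmd.run_v (x : ℕ) (c : Cmd) : c.wr x = false → ∀ s, (c.run s).v x = s.v x := by
  induction c with
  | skip => intro _ s; rfl
  | set y e =>
    intro h s
    simp only [Cmd.wr, beq_eq_false_iff_ne] at h
    exact setv_ne s _ h
  | put b i j e => intro _ s; rfl
  | seq c d ihc ihd =>
    intro h s
    simp only [Cmd.wr, Bool.or_eq_false_iff] at h
    simp only [Cmd.run]
    rw [ihd h.2, ihc h.1]
  | ifLt e f c d ihc ihd =>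
    intro h s
    simp only [Cmd.wr, Bool.or_eq_false_iff] at h
    simp only [Cmd.run]
    split_ifs
    · exact ihc h.1 s
    · exact ihd h.2 s
  | loop y z c ih =>
    intro h s
    simp only [Cmd.wr, Bool.or_eq_false_iff, beq_eq_false_iff_ne] at h
    simp only [Cmd.run]
    generalize (s.v z).toNat = N
    induction N with
    | zero => rfl
    | succ N ihN =>
      simp only [iter]
      rw [ih h.2, setv_ne _ _ h.1, ihN]

theorem Cmd.run_a (b : ℕ) (c : Cmd) : c.wra b = false → ∀ s, (c.run s).a b = s.a b := by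
  induction c with
  | skip => intro _ s; rfl
  | set y e => intro h s; rfl
  | put b' i j e =>
    intro h s
    simp only [Cmd.wra, beq_eq_false_iff_ne] at h
    funext i' j'
    simp [Cmd.run, Mem.seta, h]
  | seq c d ihc ihd =>
    intro h s
    simp only [Cmd.wra, Bool.or_eq_false_iff] at h
    simp only [Cmd.run]
    rw [ihd h.2, ihc h.1]
  | ifLt e f c d ihc ihd =>
    intro h s
    simp only [Cmd.wra, Bool.or_eq_false_iff] at h
    simp only [Cmd.run]
    split_ifs
    · exact ihc h.1 s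
    · exact ihd h.2 s
  | loop y z c ih =>
    intro h s
    simp only [Cmd.wra] at h
    simp only [Cmd.run]
    generalize (s.v z).toNat = N
    induction N with
    | zero => rfl
    | succ N ihN =>
      simp only [iter]
      rw [ih h, setv_a, ihN]

/-- Invariant rule for loops. -/
theorem loop_inv (x y : ℕ) (c : Cmd) (s : Mem) (N : ℕ) (hN : s.v y = N) (P : ℕ → Mem → Prop)
    (h0 : P 0 s)
    (hstep : ∀ j < N, ∀ s' : Mem, (∀ z, z ≠ x → c.wr z = false → s'.v z = s.v z) →
      (∀ b, c.wra b = false → s'.a b = s.a b) → P j s' → P (j + 1) (c.run (s'.setv x j))) :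
    P N ((Cmd.loop x y c).run s) := by
  simp only [Cmd.run]
  rw [hN, Int.toNat_natCast]
  have key : ∀ j ≤ N, P j (iter (fun j s' => c.run (s'.setv x j)) j s) ∧
      (∀ z, z ≠ x → c.wr z = false → (iter (fun j s' => c.run (s'.setv x j)) j s).v z = s.v z) ∧
      (∀ b, c.wra b = false → (iter (fun j s' => c.run (s'.setv x j)) j s).a b = s.a b) := by
    intro j
    induction j with
    | zero => intro _; exact ⟨h0, fun _ _ _ => rfl, fun _ _ => rfl⟩
    | succ j ih =>
      intro hj
      obtain ⟨h1, h2, h3⟩ := ih (by omega)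
      refine ⟨hstep j (by omega) _ h2 h3 h1, ?_, ?_⟩
      · intro z hz hw
        simp only [iter]
        rw [c.run_v z hw, setv_ne _ _ hz, h2 z hz hw]
      · intro b hw
        simp only [iter]
        rw [c.run_a b hw, setv_a, h3 b hw]
  exact (key N le_rfl).1

/-! ### cost -/

/-- crude bound for the cost when every loop bound is at most `N` -/
def Cmd.costB (N : ℕ) : Cmd → ℕ
  | .skip => 1
  | .set _ e => e.ops + 1
  | .put _ i j e => i.ops + j.ops + e.ops + 1
  | .seq c d => c.costB N + d.costB N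
  | .ifLt e f c d => e.ops + f.ops + 1 + (c.costB N + d.costB N)
  | .loop _ _ c => 1 + N * (1 + c.costB N)

/-- all loop bounds occurring in the program satisfy `p` -/
def Cmd.allB (p : ℕ → Bool) : Cmd → Bool
  | .skip => true
  | .set _ _ => true
  | .put _ _ _ _ => true
  | .seq c d => c.allB p && d.allB p
  | .ifLt _ _ c d => c.allB p && d.allB p
  | .loop _ y c => p y && c.allB p

/-- the program writes none of the variables satisfying `p` -/
def Cmd.noWr (p : ℕ → Bool) : Cmd → Bool
  | .skip => true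
  | .set x _ => !p x
  | .put _ _ _ _ => true
  | .seq c d => c.noWr p && d.noWr p
  | .ifLt _ _ c d => c.noWr p && d.noWr p
  | .loop x _ c => !p x && c.noWr p

lemma Cmd.wr_of_noWr {p : ℕ → Bool} {x : ℕ} (hx : p x = true) (c : Cmd) :
    c.noWr p = true → c.wr x = false := by
  induction c with
  | skip => intro _; rfl
  | set y e =>
    intro h
    simp only [Cmd.noWr, Bool.not_eq_true'] at h
    simp only [Cmd.wr, beq_eq_false_iff_ne]
    rintro rfl; simp [hx] at h
  | put _ _ _ _ => intro _; rfl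
  | seq c d ihc ihd =>
    intro h
    simp only [Cmd.noWr, Bool.and_eq_true] at h
    simp [Cmd.wr, ihc h.1, ihd h.2]
  | ifLt e f c d ihc ihd =>
    intro h
    simp only [Cmd.noWr, Bool.and_eq_true] at h
    simp [Cmd.wr, ihc h.1, ihd h.2]
  | loop y z c ih =>
    intro h
    simp only [Cmd.noWr, Bool.and_eq_true, Bool.not_eq_true'] at h
    have : x ≠ y := by rintro rfl; simp [hx] at h
    simp [Cmd.wr, ih h.2, this]

theorem Cmd.cost_le (p : ℕ → Bool) (N : ℕ) (c : Cmd) : c.allB p = true → c.noWr p = true →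
    ∀ s : Mem, (∀ x, p x = true → (s.v x).toNat ≤ N) → c.cost s ≤ c.costB N := by
  induction c with
  | skip => intro _ _ s _; exact le_refl _
  | set y e => intro _ _ s _; exact le_refl _
  | put _ _ _ _ => intro _ _ s _; exact le_refl _
  | seq c d ihc ihd =>
    intro hA hW s hs
    simp only [Cmd.allB, Cmd.noWr, Bool.and_eq_true] at hA hW
    simp only [Cmd.cost, Cmd.costB]
    refine Nat.add_le_add (ihc hA.1 hW.1 s hs) (ihd hA.2 hW.2 _ fun x hx => ?_)
    rw [c.run_v x (c.wr_of_noWr hx hW.1)]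
    exact hs x hx
  | ifLt e f c d ihc ihd =>
    intro hA hW s hs
    simp only [Cmd.allB, Cmd.noWr, Bool.and_eq_true] at hA hW
    simp only [Cmd.cost, Cmd.costB]
    have h1 := ihc hA.1 hW.1 s hs
    have h2 := ihd hA.2 hW.2 s hs
    split_ifs <;> omega
  | loop x y c ih =>
    intro hA hW s hs
    simp only [Cmd.allB, Cmd.noWr, Bool.and_eq_true, Bool.not_eq_true'] at hA hW
    simp only [Cmd.cost, Cmd.costB]
    have hst : ∀ j, ∀ z, p z = true →
        (iter (fun j s' => c.run (s'.setv x j)) j s).v z = s.v z := by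
      intro j z hz
      have hzx : z ≠ x := by rintro rfl; simp [hz] at hW
      induction j with
      | zero => rfl
      | succ j ihj =>
        simp only [iter]
        rw [c.run_v z (c.wr_of_noWr hz hW.2), setv_ne _ _ hzx, ihj]
    have h1 : ∀ j ∈ Finset.range (s.v y).toNat,
        1 + c.cost ((iter (fun j s' => c.run (s'.setv x j)) j s).setv x j) ≤ 1 + c.costB N := by
      intro j _
      refine Nat.add_le_add_left (ih hA.2 hW.2 _ fun z hz => ?_) _
      have hzx : z ≠ x := by rintro rfl; simp [hz] at hW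
      rw [setv_ne _ _ hzx, hst j z hz]
      exact hs z hz
    have h2 := Finset.sum_le_card_nsmul _ _ _ h1
    rw [Finset.card_range, smul_eq_mul] at h2
    have h3 : (s.v y).toNat * (1 + c.costB N) ≤ N * (1 + c.costB N) :=
      Nat.mul_le_mul_right _ (hs y hA.1)
    omega

/-- number of nodes -/
def Cmd.size : Cmd → ℕ
  | .skip => 1
  | .set _ e => e.ops + 1
  | .put _ i j e => i.ops + j.ops + e.ops + 1
  | .seq c d => c.size + d.size
  | .ifLt e f c d => e.ops + f.ops + 1 + (c.size + d.size)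
  | .loop _ _ c => 2 + c.size

/-- nesting depth of loops -/
def Cmd.depth : Cmd → ℕ
  | .skip => 0
  | .set _ _ => 0
  | .put _ _ _ _ => 0
  | .seq c d => max c.depth d.depth
  | .ifLt _ _ c d => max c.depth d.depth
  | .loop _ _ c => c.depth + 1

theorem Cmd.costB_le (N : ℕ) (c : Cmd) : c.costB N ≤ c.size * (N + 1) ^ c.depth := by
  induction c with
  | skip => simp [Cmd.costB, Cmd.size, Cmd.depth]
  | set y e => simp [Cmd.costB, Cmd.size, Cmd.depth]
  | put _ _ _ _ => simp [Cmd.costB, Cmd.size, Cmd.depth]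
  | seq c d ihc ihd =>
    simp only [Cmd.costB, Cmd.size, Cmd.depth]
    have h1 : c.size * (N + 1) ^ c.depth ≤ c.size * (N + 1) ^ (max c.depth d.depth) :=
      Nat.mul_le_mul_left _ (Nat.pow_le_pow_right (by omega) (le_max_left _ _))
    have h2 : d.size * (N + 1) ^ d.depth ≤ d.size * (N + 1) ^ (max c.depth d.depth) :=
      Nat.mul_le_mul_left _ (Nat.pow_le_pow_right (by omega) (le_max_right _ _))
    rw [add_mul]
    omega
  | ifLt e f c d ihc ihd =>
    simp only [Cmd.costB, Cmd.size, Cmd.depth]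
    have h1 : c.size * (N + 1) ^ c.depth ≤ c.size * (N + 1) ^ (max c.depth d.depth) :=
      Nat.mul_le_mul_left _ (Nat.pow_le_pow_right (by omega) (le_max_left _ _))
    have h2 : d.size * (N + 1) ^ d.depth ≤ d.size * (N + 1) ^ (max c.depth d.depth) :=
      Nat.mul_le_mul_left _ (Nat.pow_le_pow_right (by omega) (le_max_right _ _))
    have h3 : e.ops + f.ops + 1 ≤ (e.ops + f.ops + 1) * (N + 1) ^ (max c.depth d.depth) :=
      Nat.le_mul_of_pos_right _ (by positivity)
    rw [add_mul, add_mul c.size]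
    omega
  | loop x y c ih =>
    simp only [Cmd.costB, Cmd.size, Cmd.depth]
    have h1 : N * (1 + c.costB N) ≤ N * (1 + c.size * (N + 1) ^ c.depth) :=
      Nat.mul_le_mul_left _ (by omega)
    have h2 : 1 ≤ (N + 1) ^ c.depth := Nat.one_le_pow _ _ (by omega)
    calc 1 + N * (1 + c.costB N) ≤ 1 + N * (1 + c.size * (N + 1) ^ c.depth) := by omega
      _ ≤ (2 + c.size) * ((N + 1) ^ c.depth * (N + 1)) := by
        nlinarith [Nat.zero_le (c.size * (N + 1) ^ c.depth), Nat.zero_le (N * (N + 1) ^ c.depth)]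
      _ = _ := by rw [pow_succ]

end Pool.Agent.H87.ST
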