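import Pool.Agent.H87.ST.Solve

namespace Pool.Agent.H87.ST

open Finset

lemma input_tail {n m : ℕ} (tail head : Fin m → Fin n) (S T : Finset (Fin n)) (k : ℕ) (i : Fin m) :
    (input tail head S T k).a aTail (i : ℕ) 0 = (tail i : ℕ) := by
  simp +decide [input]

lemma input_head {n m : ℕ} (tail head : Fin m → Fin n) (S T : Finset (Fin n)) (k : ℕ) (i : Fin m) :
    (input tail head S T k).a aHead (i : ℕ) 0 = (head i : ℕ) := by
  simp +decide [input]

lemma input_ST {n m : ℕ} (tail head : Fin m → Fin n) (S T : Finset (Fin n)) (k : ℕ) :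
    HasST S T (input tail head S T k) := by
  constructor
  · intro u
    simp +decide [input, mem1]
  · intro u
    simp +decide [input, mem1]

/-! ### squares -/

lemma sq_spec (dst src : ℕ) (h1 : dst ≠ src) (h2 : dst ≠ vZ) (h3 : src ≠ vZ) (s : Mem) (a : ℕ)
    (ha : s.v src = a) : ((sqC dst src).run s).v dst = ((a ^ 2 : ℕ) : ℤ) := by
  unfold sqC
  rw [run_seq, run_set, val_lit]
  have key := loop_inv vZ src (.set dst (.add (.var dst) (.var src))) (s.setv dst 0) a
    (by rw [setv_ne _ _ (Ne.symm h1), ha]) (fun j s' => s'.v dst = j * a)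
    (by rw [setv_v, if_pos rfl]; simp)
    (by
      intro j hj s' hv _ hP
      have h4 : s'.v src = a := by
        rw [hv src h3 (by simp [Cmd.wr, Ne.symm h1]), setv_ne _ _ (Ne.symm h1), ha]
      rw [run_set, setv_v, if_pos rfl]
      simp only [Exp.val]
      rw [setv_ne _ _ h2, setv_ne _ _ h3, h4, hP]
      push_cast; ring)
  rw [key]; push_cast; ring

lemma sq_cost (dst src : ℕ) (h1 : dst ≠ src) (s : Mem) (a : ℕ)
    (ha : s.v src = a) : (sqC dst src).cost s = 3 + 5 * a := by
  unfold sqC
  simp only [Cmd.cost, Exp.ops, Cmd.run, val_lit]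
  rw [setv_ne _ _ (Ne.symm h1), ha, Int.toNat_natCast]
  simp
  ring

lemma sq_wr (dst src x : ℕ) (h1 : x ≠ dst) (h2 : x ≠ vZ) : (sqC dst src).wr x = false := by
  simp only [sqC, Cmd.wr, Bool.or_eq_false_iff, beq_eq_false_iff_ne]
  exact ⟨h1, h2, h1⟩

theorem init_spec (s : Mem) (n m : ℕ) (hn : s.v vN = n) (hm : s.v vM = m) :
    (initC.run s).v vT = (((n + m + 2) ^ 32 : ℕ) : ℤ) ∧
    (initC.run s).v vB = (((n + m + 2) ^ 64 : ℕ) : ℤ) ∧
    initC.cost s ≤ 54 * (n + m + 2) ^ 32 := by
  generalize hP : n + m + 2 = P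
  unfold initC
  simp only [run_seq, Cmd.cost]
  set s1 := (Cmd.set vP (.add (.add (.var vN) (.var vM)) (.lit 2))).run s with hs1
  have p1 : s1.v vP = P := by
    rw [hs1, run_set, setv_v, if_pos rfl]
    simp only [Exp.val]
    rw [hn, hm, ← hP]; push_cast; ring
  clear_value s1
  have p2 := sq_spec vP2 vP (by decide) (by decide) (by decide) s1 P p1
  have c2 := sq_cost vP2 vP (by decide) s1 P p1
  set s2 := (sqC vP2 vP).run s1
  clear_value s2
  have p3 := sq_spec vP4 vP2 (by decide) (by decide) (by decide) s2 _ p2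
  have c3 := sq_cost vP4 vP2 (by decide) s2 _ p2
  set s3 := (sqC vP4 vP2).run s2
  clear_value s3
  have p4 := sq_spec vP8 vP4 (by decide) (by decide) (by decide) s3 _ p3
  have c4 := sq_cost vP8 vP4 (by decide) s3 _ p3
  set s4 := (sqC vP8 vP4).run s3
  clear_value s4
  have p5 := sq_spec vP16 vP8 (by decide) (by decide) (by decide) s4 _ p4
  have c5 := sq_cost vP16 vP8 (by decide) s4 _ p4
  set s5 := (sqC vP16 vP8).run s4
  clear_value s5
  have p6 := sq_spec vT vP16 (by decide) (by decide) (by decide) s5 _ p5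
  have c6 := sq_cost vT vP16 (by decide) s5 _ p5
  set s6 := (sqC vT vP16).run s5
  clear_value s6
  have p7 := sq_spec vB vT (by decide) (by decide) (by decide) s6 _ p6
  have c7 := sq_cost vB vT (by decide) s6 _ p6
  refine ⟨?_, ?_, ?_⟩
  · rw [Cmd.run_v vT _ (sq_wr _ _ _ (by decide) (by decide)), p6]
    congr 1
    ring
  · rw [p7]
    congr 1
    ring
  · rw [c2, c3, c4, c5, c6, c7]
    simp only [Exp.ops]
    have hP2 : 1 ≤ P := by omega
    have q1 : P ≤ P ^ 32 := Nat.le_self_pow (by norm_num) P
    have q2 : P ^ 2 ≤ P ^ 32 := Nat.pow_le_pow_right hP2 (by norm_num)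
    have q3 : (P ^ 2) ^ 2 ≤ P ^ 32 := by
      rw [← pow_mul]; exact Nat.pow_le_pow_right hP2 (by norm_num)
    have q4 : ((P ^ 2) ^ 2) ^ 2 ≤ P ^ 32 := by
      rw [← pow_mul, ← pow_mul]; exact Nat.pow_le_pow_right hP2 (by norm_num)
    have q5 : (((P ^ 2) ^ 2) ^ 2) ^ 2 ≤ P ^ 32 := by
      rw [← pow_mul, ← pow_mul, ← pow_mul]; exact Nat.pow_le_pow_right hP2 (by norm_num)
    have q6 : ((((P ^ 2) ^ 2) ^ 2) ^ 2) ^ 2 ≤ P ^ 32 := by
      rw [← pow_mul, ← pow_mul, ← pow_mul, ← pow_mul]
    have q7 : 1 ≤ P ^ 32 := Nat.one_le_pow _ _ hP2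
    omega

/-! ### reading the digraph -/

theorem read_spec {n m : ℕ} (tail head : Fin m → Fin n) (s : Mem) (hn : s.v vN = n)
    (hm : s.v vM = m) (ht : ∀ i : Fin m, s.a aTail (i : ℕ) 0 = (tail i : ℕ))
    (hh : ∀ i : Fin m, s.a aHead (i : ℕ) 0 = (head i : ℕ)) :
    HasD (fun u v => (mult tail head u v : ℤ)) (readC.run s) := by
  unfold readC
  rw [run_seq]
  have hmap := loop2_map vU vV (by decide) (by decide) (by decide)
    (.put aD (.var vU) (.var vV) (.lit 0)) (by decide) (by decide) s n hn
    aD (fun i j => 0) (by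
      intro i hi j hj s' hv ha hs hun i' j'
      have h1 : (s'.setv vV j).v vU = i := by rw [setv_ne _ _ (by decide), hs]
      have h2 : (s'.setv vV j).v vV = j := by simp [setv_v]
      rw [run_put, val_var, val_var, val_lit, h1, h2, seta_a, setv_a]
      simp only [true_and, Nat.cast_inj])
  set s1 := (for2 (.put aD (.var vU) (.var vV) (.lit 0))).run s with hs1
  have s1v : ∀ z, z ≠ vU → z ≠ vV → s1.v z = s.v z := by
    intro z h1 h2
    refine Cmd.run_v z _ ?_ s
    simp only [for2, Cmd.wr, Bool.or_false, Bool.or_eq_false_iff, beq_eq_false_iff_ne]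
    exact ⟨h1, h2⟩
  have s1a : ∀ b, b ≠ aD → s1.a b = s.a b := by
    intro b hb
    refine Cmd.run_a b _ ?_ s
    simp only [for2, Cmd.wra, beq_eq_false_iff_ne]
    exact hb
  have hmap1 : ∀ u v : Fin n, s1.a aD (u : ℕ) (v : ℕ) = 0 := fun u v => hmap u u.2 v v.2
  clear_value s1
  have key := loop_inv vU vM (.put aD (get1 aTail (.var vU)) (get1 aHead (.var vU))
      (.add (.get aD (get1 aTail (.var vU)) (get1 aHead (.var vU))) (.lit 1))) s1 m
    (by rw [s1v vM (by decide) (by decide), hm])
    (fun j s' => ∀ u v : Fin n, s'.a aD (u : ℕ) (v : ℕ) =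
      (univ.filter fun i : Fin m => (i : ℕ) < j ∧ tail i = u ∧ head i = v).card)
    (by intro u v; rw [hmap1 u v]; simp)
    (by
      intro j hj s' hv ha hP u v
      set i0 : Fin m := ⟨j, hj⟩ with hi0
      have e1 : (get1 aTail (.var vU)).val (s'.setv vU j) = (tail i0 : ℕ) := by
        simp only [get1, Exp.val, setv_a]
        rw [setv_v, if_pos rfl, ha aTail rfl, s1a aTail (by decide)]
        exact ht i0
      have e2 : (get1 aHead (.var vU)).val (s'.setv vU j) = (head i0 : ℕ) := by
        simp only [get1, Exp.val, setv_a]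
        rw [setv_v, if_pos rfl, ha aHead rfl, s1a aHead (by decide)]
        exact hh i0
      have e3 : (Exp.add (.get aD (get1 aTail (.var vU)) (get1 aHead (.var vU))) (.lit 1)).val
          (s'.setv vU j) = s'.a aD (tail i0 : ℕ) (head i0 : ℕ) + 1 := by
        change s'.a aD ((get1 aTail (.var vU)).val (s'.setv vU j))
          ((get1 aHead (.var vU)).val (s'.setv vU j)) + 1 = _
        rw [e1, e2]
      rw [run_put, e1, e2, e3, seta_a]
      simp only [true_and, Nat.cast_inj, ← Fin.ext_iff]
      have hset : (univ.filter fun i : Fin m => (i : ℕ) < j + 1 ∧ tail i = u ∧ head i = v) =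
          if u = tail i0 ∧ v = head i0 then
            insert i0 (univ.filter fun i : Fin m => (i : ℕ) < j ∧ tail i = u ∧ head i = v)
          else (univ.filter fun i : Fin m => (i : ℕ) < j ∧ tail i = u ∧ head i = v) := by
        split_ifs with h
        · ext i
          simp only [Finset.mem_filter, Finset.mem_univ, true_and, Finset.mem_insert]
          constructor
          · rintro ⟨h1, h2, h3⟩
            by_cases h4 : i = i0
            · exact Or.inl h4
            · right
              refine ⟨?_, h2, h3⟩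
              have : (i : ℕ) ≠ j := fun h5 => h4 (Fin.ext h5)
              omega
          · rintro (rfl | ⟨h1, h2, h3⟩)
            · exact ⟨by simp [hi0], h.1.symm, h.2.symm⟩
            · exact ⟨by omega, h2, h3⟩
        · ext i
          simp only [Finset.mem_filter, Finset.mem_univ, true_and]
          constructor
          · rintro ⟨h1, h2, h3⟩
            refine ⟨?_, h2, h3⟩
            have : (i : ℕ) ≠ j := by
              intro h5
              have h6 : i = i0 := Fin.ext h5
              subst h6
              exact h ⟨h2.symm, h3.symm⟩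
            omega
          · rintro ⟨h1, h2, h3⟩
            exact ⟨by omega, h2, h3⟩
      rw [hset]
      split_ifs with h
      · obtain ⟨rfl, rfl⟩ := h
        rw [Finset.card_insert_of_notMem (by simp [hi0]), hP]
        push_cast; ring
      · rw [setv_a]; exact hP u v)
  intro u v
  rw [key u v]
  unfold mult
  congr 2
  ext i
  simp

lemma tot_mult {n m : ℕ} (tail head : Fin m → Fin n) :
    tot (fun u v => (mult tail head u v : ℤ)) = m := by
  unfold tot mult
  have h1 : ∀ u : Fin n, ∑ v : Fin n, ((univ.filter fun i => tail i = u ∧ head i = v).card : ℤ) =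
      (univ.filter fun i => tail i = u).card := by
    intro u
    rw [← Nat.cast_sum]
    congr 1
    rw [Finset.card_eq_sum_card_fiberwise (f := head) (t := univ)
      (fun _ _ => Finset.mem_coe.2 (Finset.mem_univ _))]
    refine Finset.sum_congr rfl fun v _ => ?_
    rw [Finset.filter_filter]
  rw [Finset.sum_congr rfl fun u _ => h1 u, ← Nat.cast_sum]
  congr 1
  rw [← Finset.card_eq_sum_card_fiberwise (f := tail) (s := univ) (t := univ)
    (fun _ _ => Finset.mem_coe.2 (Finset.mem_univ _))]
  simp

/-! ### the bounds -/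

theorem bound_spec {n m k : ℕ} {S T : Finset (Fin n)} {B : ℕ} (s : Mem) (hn : s.v vN = n)
    (hm : s.v vM = m) (hk : s.v vK = k) (hB : s.v vB = B) (hST : HasST S T s)
    (h1 : S.card ≤ B) (h2 : S.card * T.card ≤ B) :
    ((boundC.run s).v vKK = min (k : ℤ) ((S.card : ℤ) * T.card * m + 1)) ∧
    ((boundC.run s).v vRest = k - min (k : ℤ) ((S.card : ℤ) * T.card * m + 1)) := by
  unfold boundC
  simp only [run_seq]
  set s1 := (Cmd.set vCT (.lit 0)).run ((Cmd.set vCS (.lit 0)).run s) with hs1
  have s1v : ∀ z, z ≠ vCT → z ≠ vCS → s1.v z = s.v z := by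
    intro z h1 h2
    rw [hs1, run_set, run_set, setv_ne _ _ h1, setv_ne _ _ h2]
  have s1a : ∀ b, s1.a b = s.a b := fun b => rfl
  have s1S : s1.v vCS = 0 := by
    rw [hs1, run_set, run_set, setv_ne _ _ (by decide), setv_v, if_pos rfl]; rfl
  have s1T : s1.v vCT = 0 := by
    rw [hs1, run_set, setv_v, if_pos rfl]; rfl
  clear_value s1
  have key := loop_inv vU vN (.seq (.set vCS (.add (.var vCS) (get1 aS (.var vU))))
    (.set vCT (.add (.var vCT) (get1 aT (.var vU))))) s1 n
    (by rw [s1v vN (by decide) (by decide), hn])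
    (fun j s' => s'.v vCS = (univ.filter fun u : Fin n => (u : ℕ) < j ∧ u ∈ S).card ∧
      s'.v vCT = (univ.filter fun u : Fin n => (u : ℕ) < j ∧ u ∈ T).card)
    ⟨by rw [s1S]; simp, by rw [s1T]; simp⟩
    (by
      rintro j hj s' hv ha ⟨hP1, hP2⟩
      set i0 : Fin n := ⟨j, hj⟩ with hi0
      have e1 : (Exp.add (.var vCS) (get1 aS (.var vU))).val (s'.setv vU j) =
          s'.v vCS + mem1 i0 S := by
        simp only [get1, Exp.val, setv_a]
        rw [setv_ne _ _ (by decide), setv_v, if_pos rfl, ha aS rfl, s1a]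
        rw [← hST.1 i0]
      have hcount : ∀ Z : Finset (Fin n),
          ((univ.filter fun u : Fin n => (u : ℕ) < j + 1 ∧ u ∈ Z).card : ℤ) =
          (univ.filter fun u : Fin n => (u : ℕ) < j ∧ u ∈ Z).card + mem1 i0 Z := by
        intro Z
        unfold mem1
        split_ifs with h
        · have : (univ.filter fun u : Fin n => (u : ℕ) < j + 1 ∧ u ∈ Z) =
              insert i0 (univ.filter fun u : Fin n => (u : ℕ) < j ∧ u ∈ Z) := by
            ext i
            simp only [Finset.mem_filter, Finset.mem_univ, true_and, Finset.mem_insert]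
            constructor
            · rintro ⟨h1, h2⟩
              by_cases h4 : i = i0
              · exact Or.inl h4
              · right
                refine ⟨?_, h2⟩
                have : (i : ℕ) ≠ j := fun h5 => h4 (Fin.ext h5)
                omega
            · rintro (rfl | ⟨h1, h2⟩)
              · exact ⟨by simp [hi0], h⟩
              · exact ⟨by omega, h2⟩
          rw [this, Finset.card_insert_of_notMem (by simp [hi0])]
          push_cast; ring
        · have : (univ.filter fun u : Fin n => (u : ℕ) < j + 1 ∧ u ∈ Z) =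
              (univ.filter fun u : Fin n => (u : ℕ) < j ∧ u ∈ Z) := by
            ext i
            simp only [Finset.mem_filter, Finset.mem_univ, true_and]
            constructor
            · rintro ⟨h1, h2⟩
              refine ⟨?_, h2⟩
              have : (i : ℕ) ≠ j := by
                intro h5
                have h6 : i = i0 := Fin.ext h5
                subst h6
                exact h h2
              omega
            · rintro ⟨h1, h2⟩
              exact ⟨by omega, h2⟩
          rw [this]; ring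
      rw [run_seq, run_set, run_set, e1]
      set t := (s'.setv vU j).setv vCS (s'.v vCS + mem1 i0 S) with htt
      have e2 : (Exp.add (.var vCT) (get1 aT (.var vU))).val t = s'.v vCT + mem1 i0 T := by
        simp only [get1, Exp.val]
        rw [htt, setv_ne _ _ (by decide), setv_ne _ _ (by decide), setv_a, setv_a,
          setv_ne _ _ (by decide), setv_v, if_pos rfl, ha aT rfl, s1a]
        rw [← hST.2 i0]
      rw [e2]
      refine ⟨?_, ?_⟩
      · rw [setv_ne _ _ (by decide), htt, setv_v, if_pos rfl, hcount, hP1]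
      · rw [setv_v, if_pos rfl, hcount, hP2])
  set s2 := (Cmd.loop vU vN (.seq (.set vCS (.add (.var vCS) (get1 aS (.var vU))))
    (.set vCT (.add (.var vCT) (get1 aT (.var vU)))))).run s1 with hs2
  have s2v : ∀ z, z ≠ vCT → z ≠ vCS → z ≠ vU → s2.v z = s.v z := by
    intro z h1 h2 h3
    rw [hs2, Cmd.run_v z _ ?_ s1, s1v z h1 h2]
    simp only [Cmd.wr, Bool.or_eq_false_iff, beq_eq_false_iff_ne]
    exact ⟨h3, h2, h1⟩
  clear_value s2
  have hcS : s2.v vCS = S.card := by
    rw [key.1]
    congr 2
    ext u; simp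
  have hcT : s2.v vCT = T.card := by
    rw [key.2]
    congr 2
    ext u; simp
  have hm1 := mul_spec vNN (.var vCS) (.var vCT) s2 B
    (by rw [s2v vB (by decide) (by decide) (by decide), hB])
    (by decide) (by decide) (by decide) (by decide)
    (by simp only [Exp.val]; rw [setv_ne _ _ (by decide)])
    (by rw [val_var, hcS]; positivity)
    (by rw [val_var, hcS]; exact_mod_cast h1)
  rw [val_var, val_var, hcS, hcT] at hm1
  set s3 := (mulC vNN (.var vCS) (.var vCT)).run s2 with hs3
  have s3v : ∀ z, (mulC vNN (.var vCS) (.var vCT)).wr z = false → s3.v z = s2.v z :=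
    fun z hz => Cmd.run_v z _ hz s2
  clear_value s3
  have hm2 := mul_spec vK0 (.var vNN) (.var vM) s3 B
    (by rw [s3v vB (by decide), s2v vB (by decide) (by decide) (by decide), hB])
    (by decide) (by decide) (by decide) (by decide)
    (by simp only [Exp.val]; rw [setv_ne _ _ (by decide)])
    (by rw [val_var, hm1]; positivity)
    (by rw [val_var, hm1]; exact_mod_cast h2)
  rw [val_var, val_var, hm1, s3v vM (by decide), s2v vM (by decide) (by decide) (by decide), hm]
    at hm2
  set s4 := (mulC vK0 (.var vNN) (.var vM)).run s3 with hs4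
  have s4v : ∀ z, (mulC vK0 (.var vNN) (.var vM)).wr z = false → s4.v z = s3.v z :=
    fun z hz => Cmd.run_v z _ hz s3
  clear_value s4
  set s5 := (Cmd.set vK0 (.add (.var vK0) (.lit 1))).run s4 with hs5
  have s5v : ∀ z, z ≠ vK0 → s5.v z = s4.v z := by
    intro z hz; rw [hs5, run_set, setv_ne _ _ hz]
  have h5 : s5.v vK0 = (S.card : ℤ) * T.card * m + 1 := by
    rw [hs5, run_set, setv_v, if_pos rfl]
    simp only [Exp.val]; rw [hm2]
  clear_value s5
  have h5k : s5.v vK = k := by
    rw [s5v vK (by decide), s4v vK (by decide), s3v vK (by decide),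
      s2v vK (by decide) (by decide) (by decide), hk]
  rw [run_if, val_var, val_var, h5, h5k]
  by_cases hlt : (k : ℤ) < (S.card : ℤ) * T.card * m + 1
  · rw [if_pos hlt, run_seq, run_set, run_set, min_eq_left hlt.le]
    refine ⟨?_, ?_⟩
    · rw [setv_ne _ _ (by decide), setv_v, if_pos rfl, val_var, h5k]
    · rw [setv_v, if_pos rfl, val_lit]; ring
  · rw [if_neg hlt, run_seq, run_set, run_set, min_eq_right (not_lt.1 hlt)]
    refine ⟨?_, ?_⟩
    · rw [setv_ne _ _ (by decide), setv_v, if_pos rfl, val_var, h5]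
    · rw [setv_v, if_pos rfl]
      simp only [Exp.val]
      rw [setv_ne _ _ (by decide), setv_ne _ _ (by decide), h5, h5k]

end Pool.Agent.H87.ST
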