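import Pool.Agent.H87.ST.Lang

namespace Pool.Agent.H87.ST

example : testC.wr vMM = false := by decide
example : testC.wra aD = false := by decide
example : mainC.depth = 10 := by decide

end Pool.Agent.H87.ST
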