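import Pool.Agent.H87.ST.Basic

namespace Pool.Agent.H87.ST

open Finset

/-- time stamp of a vertex -/
def re {n : ℕ} (s : Mem) (v : Fin n) : ℤ := s.a aRe (v : ℕ) 0

/-- state of the search -/
structure RI (n : ℕ) (src : Fin n) (G : Fin n → Fin n → ℤ) (s : Mem) : Prop where
  one : re s src = 1
  nonneg : ∀ v : Fin n, 0 ≤ re s v
  le : ∀ v : Fin n, re s v ≤ s.v vC
  card : s.v vC = (univ.filter fun v : Fin n => 0 < re s v).card
  par : ∀ v : Fin n, v ≠ src → 0 < re s v → 2 ≤ re s v ∧
    ∃ p : Fin n, s.a aPa (v : ℕ) 0 = (p : ℕ) ∧ 0 < re s p ∧ re s p < re s v ∧ 0 < G p v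

lemma reachB_step {n : ℕ} {src : Fin n} {G : Fin n → Fin n → ℤ} {s : Mem}
    (hG : ∀ u v : Fin n, s.a aG (u : ℕ) (v : ℕ) = G u v) (h : RI n src G s) (u v : Fin n)
    (hu : s.v vU = (u : ℕ)) :
    RI n src G (reachB.run (s.setv vV (v : ℕ))) ∧
    (∀ w : Fin n, 0 < re s w → re (reachB.run (s.setv vV (v : ℕ))) w = re s w) ∧
    (0 < re s u → 0 < G u v → 0 < re (reachB.run (s.setv vV (v : ℕ))) v) := by
  have hre : ∀ w : Fin n, s.a aRe (w : ℕ) 0 = re s w := fun w => rfl
  have hid : RI n src G (s.setv vV (v : ℕ)) := ⟨h.one, h.nonneg, h.le, h.card, h.par⟩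
  have hrun : reachB.run (s.setv vV (v : ℕ)) =
      if 0 < re s u then (if re s v < 1 then (if 0 < G u v then
        (((s.setv vV (v : ℕ)).setv vC (s.v vC + 1)).seta aRe (v : ℕ) 0 (s.v vC + 1)).seta aPa
          (v : ℕ) 0 (u : ℕ)
        else s.setv vV (v : ℕ)) else s.setv vV (v : ℕ)) else s.setv vV (v : ℕ) := by
    have e1 : (get1 aRe (.var vU)).val (s.setv vV (v : ℕ)) = re s u := by
      simp only [get1, Exp.val, setv_a]
      rw [setv_ne _ _ (by decide), hu]; rfl
    have e2 : (get1 aRe (.var vV)).val (s.setv vV (v : ℕ)) = re s v := by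
      simp only [get1, Exp.val, setv_a, setv_v, if_true]
      rfl
    have e3 : (Exp.get aG (.var vU) (.var vV)).val (s.setv vV (v : ℕ)) = G u v := by
      simp only [Exp.val, setv_a, setv_v, if_true]
      rw [if_neg (by decide), hu, hG]
    simp only [reachB, Cmd.run, e1, e2, e3]
    simp +decide only [Exp.val, setv_v, seta_v, setv_a, if_true, if_false, hu]
  rw [hrun]
  split_ifs with h1 h2 h3
  · set s' := (((s.setv vV (v : ℕ)).setv vC (s.v vC + 1)).seta aRe (v : ℕ) 0 (s.v vC + 1)).seta aPa
          (v : ℕ) 0 (u : ℕ) with hs'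
    have hr : ∀ w : Fin n, re s' w = if w = v then s.v vC + 1 else re s w := by
      intro w
      simp +decide [re, hs', seta_a, Fin.ext_iff]
    have hpa : ∀ w : Fin n, s'.a aPa (w : ℕ) 0 = if w = v then ((u : ℕ) : ℤ)
        else s.a aPa (w : ℕ) 0 := by
      intro w
      simp +decide [hs', seta_a, Fin.ext_iff]
    have hC : s'.v vC = s.v vC + 1 := by simp +decide [hs', setv_v]
    have hv0 : re s v = 0 := le_antisymm (by omega) (h.nonneg v)
    have hsrc : src ≠ v := by
      rintro rfl; rw [h.one] at hv0; exact one_ne_zero hv0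
    have huv : u ≠ v := by rintro rfl; omega
    have hCpos : 1 ≤ s.v vC := by rw [← h.one]; exact h.le src
    have hcard : (univ.filter fun w : Fin n => 0 < re s' w) =
        insert v (univ.filter fun w : Fin n => 0 < re s w) := by
      ext w
      simp only [Finset.mem_filter, Finset.mem_univ, true_and, Finset.mem_insert]
      rw [hr]
      by_cases hw : w = v
      · simp [hw]; omega
      · simp [hw]
    refine ⟨⟨?_, ?_, ?_, ?_, ?_⟩, ?_, ?_⟩
    · rw [hr, if_neg hsrc, h.one]
    · intro w
      rw [hr]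
      split_ifs
      · omega
      · exact h.nonneg w
    · intro w
      rw [hr, hC]
      split_ifs
      · exact le_rfl
      · have := h.le w; omega
    · rw [hC, hcard, Finset.card_insert_of_notMem (by simp [hv0]), h.card]
      push_cast; ring
    · intro w hw hpos
      rw [hr] at hpos
      by_cases hwv : w = v
      · subst hwv
        rw [hr, if_pos rfl]
        refine ⟨by omega, u, ?_, ?_, ?_, h3⟩
        · rw [hpa, if_pos rfl]
        · rw [hr, if_neg huv]; exact h1
        · rw [hr, if_neg huv]; have := h.le u; omega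
      · rw [if_neg hwv] at hpos
        obtain ⟨h4, p, h5, h6, h7, h8⟩ := h.par w hw hpos
        have hpv : p ≠ v := by rintro rfl; omega
        rw [hr, if_neg hwv]
        refine ⟨h4, p, ?_, ?_, ?_, h8⟩
        · rw [hpa, if_neg hwv, h5]
        · rw [hr, if_neg hpv]; exact h6
        · rw [hr, if_neg hpv]; exact h7
    · intro w hw
      rw [hr, if_neg]
      rintro rfl; omega
    · intro _ _
      rw [hr, if_pos rfl]; omega
  · exact ⟨hid, fun w _ => rfl, fun _ h5 => absurd h5 h3⟩
  · refine ⟨hid, fun w _ => rfl, fun _ _ => ?_⟩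
    change 0 < re s v
    omega
  · exact ⟨hid, fun w _ => rfl, fun h5 _ => absurd h5 h1⟩

/-- vertices reached lie in every closed set containing the source -/
lemma RI.subset_closed {n : ℕ} {src : Fin n} {G : Fin n → Fin n → ℤ} {s : Mem}
    (h : RI n src G s) (Cl : Finset (Fin n)) (hsrc : src ∈ Cl)
    (hcl : ∀ u ∈ Cl, ∀ v, 0 < G u v → v ∈ Cl) : ∀ v, 0 < re s v → v ∈ Cl := by
  have key : ∀ k : ℕ, ∀ v, re s v = k → 0 < re s v → v ∈ Cl := by
    intro k
    induction k using Nat.strong_induction_on with
    | _ k ih =>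
      intro v hk hpos
      by_cases hv : v = src
      · rw [hv]; exact hsrc
      · obtain ⟨_, p, _, h6, h7, h8⟩ := h.par v hv hpos
        exact hcl p (ih (re s p).toNat (by omega) p (by omega) h6) v h8
  intro v hv
  exact key (re s v).toNat v (by omega) hv

/-- one round of the search -/
lemma reach_round {n : ℕ} {src : Fin n} {G : Fin n → Fin n → ℤ} {s : Mem} (hn : s.v vN = n)
    (hG : ∀ u v : Fin n, s.a aG (u : ℕ) (v : ℕ) = G u v) (h : RI n src G s) :
    RI n src G ((for2 reachB).run s) ∧
    (∀ w : Fin n, 0 < re s w → re ((for2 reachB).run s) w = re s w) ∧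
    (∀ u v : Fin n, 0 < re s u → 0 < G u v → 0 < re ((for2 reachB).run s) v) := by
  have key := loop2_inv vU vV (by decide) (by decide) (by decide) reachB (by decide) (by decide) s n
    hn (fun i j s' => RI n src G s' ∧ (∀ w : Fin n, 0 < re s w → re s' w = re s w) ∧
      (∀ u v : Fin n, ((u : ℕ) < i ∨ ((u : ℕ) = i ∧ (v : ℕ) < j)) → 0 < re s u → 0 < G u v →
        0 < re s' v))
    ⟨h, fun _ _ => rfl, fun u v h => by omega⟩
    (by
      rintro i hi s' ⟨h1, h2, h3⟩
      exact ⟨⟨h1.one, h1.nonneg, h1.le, h1.card, h1.par⟩, h2, h3⟩)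
    (by
      rintro i hi j hj s' hv ha hs ⟨h1, h2, h3⟩
      have hG' : ∀ u v : Fin n, s'.a aG (u : ℕ) (v : ℕ) = G u v := by
        intro u v; rw [ha aG (by decide)]; exact hG u v
      obtain ⟨h4, h5, h6⟩ := reachB_step hG' h1 ⟨i, hi⟩ ⟨j, hj⟩ hs
      refine ⟨h4, ?_, ?_⟩
      · intro w hw
        have h7 : 0 < re s' w := by rw [h2 w hw]; exact hw
        exact (h5 w h7).trans (h2 w hw)
      · intro u v huv hu huv'
        have h7 : 0 < re s' u := by rw [h2 u hu]; exact hu
        by_cases h8 : (u : ℕ) < i ∨ ((u : ℕ) = i ∧ (v : ℕ) < j)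
        · have h9 := h3 u v h8 hu huv'
          have h10 := h5 v h9
          simp only at h10
          rw [h10]; exact h9
        · have h9 : u = ⟨i, hi⟩ := Fin.ext (by simp only; omega)
          have h10 : v = ⟨j, hj⟩ := Fin.ext (by simp only; omega)
          subst h9; subst h10
          exact h6 h7 huv')
    (by
      rintro i hi s' ⟨h1, h2, h3⟩
      refine ⟨h1, h2, fun u v huv => h3 u v ?_⟩
      have := v.2
      omega)
  exact ⟨key.1, key.2.1, fun u v => key.2.2 u v (Or.inl u.2)⟩

/-- what the search computes -/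
structure RF (n : ℕ) (src : Fin n) (G : Fin n → Fin n → ℤ) (s : Mem) : Prop extends
    RI n src G s where
  closed : ∀ u v : Fin n, 0 < re s u → 0 < G u v → 0 < re s v
  len : ∀ v : Fin n, re s v ≤ n

theorem reach_spec {n : ℕ} (src : Fin n) (G : Fin n → Fin n → ℤ) (s : Mem) (hn : s.v vN = n)
    (hsrc : s.v vS = (src : ℕ)) (hG : ∀ u v : Fin n, s.a aG (u : ℕ) (v : ℕ) = G u v) :
    RF n src G (reachC.run s) := by
  unfold reachC
  simp only [Cmd.run]
  set s1 := (Cmd.loop vU vN (.put aRe (.var vU) (.lit 0) (.lit 0))).run s with hs1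
  have h1 : ∀ v < n, s1.a aRe (v : ℕ) 0 = 0 := by
    refine loop_inv vU vN _ s n hn (fun j s' => ∀ v < j, s'.a aRe (v : ℕ) 0 = 0) (by simp) ?_
    intro j hj s' hv ha hP v hvj
    simp only [Cmd.run, Exp.val, seta_a, setv_a, setv_v, if_true, true_and, and_true]
    split_ifs with h
    · rfl
    · refine hP v ?_
      have : v ≠ j := fun h' => h (by exact_mod_cast h')
      omega
  have hf1 : ∀ z, z ≠ vU → s1.v z = s.v z := by
    intro z hz
    refine Cmd.run_v z _ ?_ s
    simp only [Cmd.wr, Bool.or_false, beq_eq_false_iff_ne]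
    exact hz
  have hg1 : ∀ b, b ≠ aRe → s1.a b = s.a b := by
    intro b hb
    refine Cmd.run_a b _ ?_ s
    simp only [Cmd.wra, beq_eq_false_iff_ne]
    exact hb
  simp only [Cmd.run] at hs1
  rw [← hs1]
  -- state before the rounds
  set s2 := (s1.seta aRe ((Exp.var vS).val s1) ((Exp.lit 0).val s1) ((Exp.lit 1).val s1)).setv vC
    ((Exp.lit 1).val (s1.seta aRe ((Exp.var vS).val s1) ((Exp.lit 0).val s1) ((Exp.lit 1).val s1)))
    with hs2
  have hsrc1 : s1.v vS = (src : ℕ) := by rw [hf1 vS (by decide), hsrc]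
  have hr2 : ∀ w : Fin n, re s2 w = if w = src then 1 else 0 := by
    intro w
    have := h1 w w.2
    simp only [re, hs2, setv_a, seta_a, Exp.val, hsrc1, true_and, and_true, Nat.cast_inj,
      Fin.ext_iff]
    split_ifs <;> simp [this]
  have hC2 : s2.v vC = 1 := by simp +decide [hs2, setv_v, Exp.val]
  have hn2 : s2.v vN = n := by
    rw [hs2, setv_ne _ _ (by decide), seta_v, hf1 vN (by decide), hn]
  have hG2 : ∀ u v : Fin n, s2.a aG (u : ℕ) (v : ℕ) = G u v := by
    intro u v
    rw [hs2, setv_a, seta_ne _ _ _ _ (by decide), hg1 aG (by decide)]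
    exact hG u v
  have hRI2 : RI n src G s2 := by
    refine ⟨by rw [hr2, if_pos rfl], ?_, ?_, ?_, ?_⟩
    · intro v; rw [hr2]; split_ifs <;> norm_num
    · intro v; rw [hr2, hC2]; split_ifs <;> norm_num
    · rw [hC2]
      have : (univ.filter fun v : Fin n => 0 < re s2 v) = {src} := by
        ext w
        simp only [Finset.mem_filter, Finset.mem_univ, true_and, Finset.mem_singleton]
        rw [hr2]
        by_cases h : w = src <;> simp [h]
      rw [this]; simp
    · intro v hv hpos
      rw [hr2, if_neg hv] at hpos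
      exact absurd hpos (lt_irrefl _)
  have key := loop_inv vR vN (for2 reachB) s2 n hn2
    (fun j s' => RI n src G s' ∧ ((∀ u v : Fin n, 0 < re s' u → 0 < G u v → 0 < re s' v) ∨
      (j : ℤ) + 1 ≤ s'.v vC))
    ⟨hRI2, Or.inr (by rw [hC2]; simp)⟩
    (by
      rintro j hj s' hv ha ⟨hRI, hcl⟩
      have hn' : (s'.setv vR j).v vN = n := by
        rw [setv_ne _ _ (by decide), hv vN (by decide) (by decide), hn2]
      have hG' : ∀ u v : Fin n, (s'.setv vR j).a aG (u : ℕ) (v : ℕ) = G u v := by
        intro u v; rw [setv_a, ha aG (by decide)]; exact hG2 u v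
      have hRI' : RI n src G (s'.setv vR j) :=
        ⟨hRI.one, hRI.nonneg, hRI.le, hRI.card, hRI.par⟩
      obtain ⟨h4, h5, h6⟩ := reach_round hn' hG' hRI'
      refine ⟨h4, ?_⟩
      have hre' : ∀ w : Fin n, re (s'.setv vR j) w = re s' w := fun w => rfl
      set t := (for2 reachB).run (s'.setv vR j) with ht
      have hsub : (univ.filter fun w : Fin n => 0 < re s' w) ⊆
          (univ.filter fun w : Fin n => 0 < re t w) := by
        intro w hw
        simp only [Finset.mem_filter, Finset.mem_univ, true_and] at hw ⊢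
        rw [h5 w hw]; exact hw
      by_cases heq : (univ.filter fun w : Fin n => 0 < re s' w) =
          (univ.filter fun w : Fin n => 0 < re t w)
      · left
        intro u v hu huv
        have hu' : 0 < re s' u := by
          have : u ∈ (univ.filter fun w : Fin n => 0 < re s' w) := by rw [heq]; simpa using hu
          simpa using this
        exact h6 u v hu' huv
      · rcases hcl with hcl | hcl
        · exfalso
          apply heq
          refine Finset.Subset.antisymm hsub ?_
          intro w hw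
          simp only [Finset.mem_filter, Finset.mem_univ, true_and] at hw
          refine h4.subset_closed _ ?_ ?_ w hw
          · simp only [Finset.mem_filter, Finset.mem_univ, true_and]
            rw [hRI.one]; norm_num
          · intro u hu v huv
            simp only [Finset.mem_filter, Finset.mem_univ, true_and] at hu ⊢
            exact hcl u v hu huv
        · right
          have hlt := Finset.card_lt_card (Finset.ssubset_iff_subset_ne.2 ⟨hsub, heq⟩)
          have h7 := hRI.card
          have h8 := h4.card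
          have h9 : ((univ.filter fun w : Fin n => 0 < re s' w).card : ℤ) <
            (univ.filter fun w : Fin n => 0 < re t w).card := by exact_mod_cast hlt
          rw [h8]
          push_cast
          omega)
  obtain ⟨hRI, hcl⟩ := key
  simp only [Cmd.run] at hRI hcl
  generalize iter (fun j s' => (for2 reachB).run (s'.setv vR j)) (s2.v vN).toNat s2 = t at hRI hcl ⊢
  have hle : ((univ.filter fun v : Fin n => 0 < re t v).card : ℤ) ≤ n := by
    have := Finset.card_le_univ (univ.filter fun v : Fin n => 0 < re t v)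
    rw [Fintype.card_fin] at this
    exact_mod_cast this
  refine ⟨hRI, ?_, ?_⟩
  · rcases hcl with hcl | hcl
    · exact hcl
    · exfalso
      rw [hRI.card] at hcl
      omega
  · intro v
    have := hRI.le v
    rw [hRI.card] at this
    omega

end Pool.Agent.H87.ST
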