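import Pool.Agent.H87.ST.Test

namespace Pool.Agent.H87.ST

open Finset

/-- contents of the memory during the test -/
structure Env {n : ℕ} (S T : Finset (Fin n)) (D : Fin n → Fin n → ℤ) (k q : ℤ) (B : ℕ)
    (s : Mem) : Prop where
  hn : s.v vN = n
  hST : HasST S T s
  hB : s.v vB = B
  hq : s.v vQ = q
  hk : s.v vKK = k
  hD : ∀ u v : Fin n, s.a aD (u : ℕ) (v : ℕ) = D u v

lemma HasST.congr {n : ℕ} {S T : Finset (Fin n)} {s t : Mem} (h : HasST S T s)
    (h1 : t.a aS = s.a aS) (h2 : t.a aT = s.a aT) : HasST S T t :=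
  ⟨fun u => by rw [h1]; exact h.1 u, fun u => by rw [h2]; exact h.2 u⟩

lemma Env.congr {n : ℕ} {S T : Finset (Fin n)} {D : Fin n → Fin n → ℤ} {k q : ℤ} {B : ℕ}
    {s t : Mem} (h : Env S T D k q B s) (h1 : t.v vN = s.v vN) (h2 : t.v vB = s.v vB)
    (h3 : t.v vQ = s.v vQ) (h4 : t.v vKK = s.v vKK) (h5 : t.a aS = s.a aS) (h6 : t.a aT = s.a aT)
    (h7 : t.a aD = s.a aD) : Env S T D k q B t :=
  ⟨h1.trans h.hn, h.hST.congr h5 h6, h2.trans h.hB, h3.trans h.hq, h4.trans h.hk,
    fun u v => by rw [h7]; exact h.hD u v⟩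

/-- invariant of the main loop of the test -/
def TQ {n : ℕ} (S T : Finset (Fin n)) (D : Fin n → Fin n → ℤ) (k q m : ℤ) (j : ℕ) (s : Mem) :
    Prop :=
  (s.v vDec = 0 ∧ s.v vPos = 0 ∧ ∃ R : Fin n → Fin n → ℤ,
    (∀ u v : Fin n, s.a aR (u : ℕ) (v : ℕ) = R u v) ∧ TInv S T D k q (q + 2 * k) R j ∧
    (∀ u v, R u v ≤ 1 + q * j) ∧ (j = 0 → ∀ u v, R u v = 1)) ∨
  (s.v vDec = 1 ∧ ((s.v vPos = 1 ∧ 2 * m ≤ q) ∨ (s.v vPos = 0 ∧ q ≤ 2 * m)))

lemma round_step {n : ℕ} {S T : Finset (Fin n)} {D : Fin n → Fin n → ℤ} {k q m : ℤ} {B T1 : ℕ}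
    {s : Mem} (hE : Env S T D k q B s) (hnB : n ≤ B) (hD0 : ∀ u v, 0 ≤ D u v)
    (hDB : ∀ u v, D u v ≤ B) (hk0 : 0 ≤ k) (hq0 : 0 ≤ q) (hm : IsMin S T D k m)
    (hB1 : k * (2 * ((n : ℤ) ^ 2 * (1 + q * T1))) ≤ B) (hqB : q ≤ B) (hkB : k ≤ B)
    {j : ℕ} (hj : j < T1) (hrd : s.v vRd = j) (hdec : s.v vDec = 0) (hpos : s.v vPos = 0)
    {R : Fin n → Fin n → ℤ}
    (hR : ∀ u v : Fin n, s.a aR (u : ℕ) (v : ℕ) = R u v) (hI : TInv S T D k q (q + 2 * k) R j)
    (hRj : ∀ u v, R u v ≤ 1 + q * j) (hR0 : j = 0 → ∀ u v, R u v = 1) :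
    TQ S T D k q m (j + 1) (roundC.run s) := by
  unfold roundC
  rw [run_seq, run_if]
  obtain ⟨hW, hw⟩ := weight_spec S T R s hE.hn hE.hST hR
  set s1 := weightC.run s with hs1
  have s1v : ∀ z, weightC.wr z = false → s1.v z = s.v z := fun z hz => Cmd.run_v z _ hz s
  have s1a : ∀ b, weightC.wra b = false → s1.a b = s.a b := fun b hb => Cmd.run_a b _ hb s
  clear_value s1
  have hE1 : Env S T D k q B s1 := hE.congr (s1v _ (by decide)) (s1v _ (by decide))
    (s1v _ (by decide)) (s1v _ (by decide)) (s1a _ (by decide)) (s1a _ (by decide))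
    (s1a _ (by decide))
  have hW0 : 0 ≤ tot (wt S T R) := tot_nonneg (wt_nonneg S T R)
  rw [val_lit, val_var, hW]
  by_cases hW1 : tot (wt S T R) < 1
  · rw [if_pos hW1, run_seq, run_set, run_if]
    have hWz : tot (wt S T R) = 0 := by omega
    have e1 : (Exp.var vRd).val (s1.setv vDec ((Exp.lit 1).val s1)) = j := by
      rw [val_var, setv_ne _ _ (by decide), s1v vRd (by decide), hrd]
    rw [e1, val_lit]
    right
    by_cases hj0 : (0 : ℤ) < j
    · rw [if_pos hj0, run_skip]
      refine ⟨by rw [setv_v, if_pos rfl]; rfl, Or.inr ⟨?_, ?_⟩⟩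
      · rw [setv_ne _ _ (by decide), s1v vPos (by decide), hpos]
      · exact test_neg_zero hI hm hq0 (by omega) hWz
    · rw [if_neg hj0, run_set]
      refine ⟨?_, Or.inl ⟨?_, ?_⟩⟩
      · rw [setv_ne _ _ (by decide), setv_v, if_pos rfl]; rfl
      · rw [setv_v, if_pos rfl]; rfl
      · -- no pairs at all
        have hj00 : j = 0 := by omega
        have hR1 := hR0 hj00
        have hno : ∀ u v, ¬ (u ∈ S ∧ v ∈ T) := by
          intro u v huv
          have h1 : wt S T R u v = 0 := by
            have := (Finset.sum_eq_zero_iff_of_nonneg (fun u _ =>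
              Finset.sum_nonneg fun v _ => wt_nonneg S T R u v)).1 hWz u (Finset.mem_univ _)
            exact (Finset.sum_eq_zero_iff_of_nonneg (fun v _ => wt_nonneg S T R u v)).1 this v
              (Finset.mem_univ _)
          unfold wt at h1
          rw [if_pos huv, hR1 u v] at h1
          norm_num at h1
        have hm0 : m ≤ 0 := by
          have : Covers S T D k (fun _ _ => 0) := by
            refine ⟨fun _ _ => le_rfl, fun _ _ _ => rfl, ?_⟩
            rintro X ⟨⟨u, hu, _⟩, ⟨v, hv, _⟩⟩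
            exact absurd ⟨hu, hv⟩ (hno u v)
          have h2 := hm.2 _ this
          simpa [tot] using h2
        omega
  · rw [if_neg hW1, run_seq, run_seq, run_if]
    obtain ⟨hL, hC⟩ := cap_spec (wt S T R) D (tot (wt S T R)) q k B s1 hE1.hn hE1.hB hW hE1.hq
      hE1.hk hw hE1.hD hq0 hqB hk0 hkB hD0 hDB
    set s2 := capC.run s1 with hs2
    have s2v : ∀ z, capC.wr z = false → s2.v z = s1.v z := fun z hz => Cmd.run_v z _ hz s1
    have s2a : ∀ b, capC.wra b = false → s2.a b = s1.a b := fun b hb => Cmd.run_a b _ hb s1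
    clear_value s2
    have hE2 : Env S T D k q B s2 := hE1.congr (s2v _ (by decide)) (s2v _ (by decide))
      (s2v _ (by decide)) (s2v _ (by decide)) (s2a _ (by decide)) (s2a _ (by decide))
      (s2a _ (by decide))
    have hWle : tot (wt S T R) ≤ (n : ℤ) ^ 2 * (1 + q * T1) := by
      have hjT : (j : ℤ) ≤ T1 := by exact_mod_cast hj.le
      have h1 : ∀ u v, wt S T R u v ≤ 1 + q * T1 := by
        intro u v
        have h2 := hRj u v
        have h3 : q * j ≤ q * T1 := mul_le_mul_of_nonneg_left hjT hq0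
        have h4 : 0 ≤ q * T1 := mul_nonneg hq0 (Int.natCast_nonneg _)
        unfold wt
        split_ifs
        · exact max_le (by linarith) (by linarith)
        · linarith
      calc tot (wt S T R) ≤ ∑ _u : Fin n, ∑ _v : Fin n, (1 + q * T1) :=
            Finset.sum_le_sum fun u _ => Finset.sum_le_sum fun v _ => h1 u v
        _ = (n : ℤ) ^ 2 * (1 + q * T1) := by
            simp only [Finset.sum_const, Finset.card_univ, Fintype.card_fin, nsmul_eq_mul]
            ring
    have hLB : k * (2 * tot (wt S T R)) ≤ B := by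
      refine le_trans ?_ hB1
      exact mul_le_mul_of_nonneg_left (by linarith) hk0
    have hL0 : 0 ≤ k * (2 * tot (wt S T R)) := mul_nonneg hk0 (by linarith)
    have hC0 : ∀ u v, 0 ≤ q * wt S T R u v + D u v * (2 * tot (wt S T R)) := by
      intro u v
      have h1 := mul_nonneg hq0 (wt_nonneg S T R u v)
      have h2 := mul_nonneg (hD0 u v) (by linarith : 0 ≤ 2 * tot (wt S T R))
      linarith
    have hcutC : ∀ X : Finset (Fin n),
        cutw (fun u v => q * wt S T R u v + D u v * (2 * tot (wt S T R))) X =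
        q * cutw (wt S T R) X + 2 * tot (wt S T R) * cutw D X := by
      intro X
      have h1 : (fun u v => q * wt S T R u v + D u v * (2 * tot (wt S T R))) =
          fun u v => q * wt S T R u v + (2 * tot (wt S T R)) * D u v := by
        funext u v; ring
      rw [h1, cutw_add (fun u v => q * wt S T R u v) (fun u v => (2 * tot (wt S T R)) * D u v),
        cutw_smul, cutw_smul]
    have hfind := find_spec S T (fun u v => q * wt S T R u v + D u v * (2 * tot (wt S T R))) B
      (k * (2 * tot (wt S T R))) s2 hE2.hn hE2.hST hE2.hB hnB hL hL0 hLB hC hC0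
    set s3 := findC.run s2 with hs3
    have s3v : ∀ z, findC.wr z = false → s3.v z = s2.v z := fun z hz => Cmd.run_v z _ hz s2
    have s3a : ∀ b, findC.wra b = false → s3.a b = s2.a b := fun b hb => Cmd.run_a b _ hb s2
    clear_value s3
    have hE3 : Env S T D k q B s3 := hE2.congr (s3v _ (by decide)) (s3v _ (by decide))
      (s3v _ (by decide)) (s3v _ (by decide)) (s3a _ (by decide)) (s3a _ (by decide))
      (s3a _ (by decide))
    have hR3 : ∀ u v : Fin n, s3.a aR (u : ℕ) (v : ℕ) = R u v := by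
      intro u v
      rw [s3a aR (by decide), s2a aR (by decide), s1a aR (by decide)]
      exact hR u v
    have hdec3 : s3.v vDec = 0 := by
      rw [s3v vDec (by decide), s2v vDec (by decide), s1v vDec (by decide), hdec]
    have hpos3 : s3.v vPos = 0 := by
      rw [s3v vPos (by decide), s2v vPos (by decide), s1v vPos (by decide), hpos]
    rcases hfind with ⟨hf, hall⟩ | ⟨hf, X, hX, hXlt, hXs⟩
    · have e1 : ¬ (Exp.lit 0).val s3 < (Exp.var vFound).val s3 := by
        rw [val_lit, val_var, hf]; norm_num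
      rw [if_neg e1, run_seq, run_set, run_set]
      right
      refine ⟨?_, Or.inl ⟨?_, ?_⟩⟩
      · rw [setv_ne _ _ (by decide), setv_v, if_pos rfl]; rfl
      · rw [setv_v, if_pos rfl]; rfl
      · refine test_pos hD0 hm (wt_nonneg S T R) (wt_supp S T R) (by omega) hq0 ?_
        intro X hX
        rw [← hcutC X]
        exact hall X hX
    · have e1 : (Exp.lit 0).val s3 < (Exp.var vFound).val s3 := by
        rw [val_lit, val_var, hf]; norm_num
      rw [if_pos e1]
      left
      have hupd := upd_spec X D R q k s3 hE3.hn hE3.hq hE3.hk hXs hE3.hD hR3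
      rw [hcutC X] at hXlt
      have hp1 : 1 ≤ k - cutw D X := by
        by_contra hcon
        push Not at hcon
        have h1 : k - cutw D X ≤ 0 := by omega
        have h2 : 0 ≤ q * cutw (wt S T R) X := mul_nonneg hq0 (cutw_nonneg (wt_nonneg S T R) X)
        nlinarith
      refine ⟨?_, ?_, fun u v => R u v - 2 * (k - cutw D X) + q * ind X u v, hupd, ?_, ?_, ?_⟩
      · rw [Cmd.run_v vDec updC (by decide), hdec3]
      · rw [Cmd.run_v vPos updC (by decide), hpos3]
      · exact hI.step hD0 hq0 le_rfl hX hXlt (fun u _ v _ => rfl)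
      · intro u v
        have h1 := hRj u v
        have h2 := ind_le_one X u v
        have h3 : q * ind X u v ≤ q * 1 := mul_le_mul_of_nonneg_left h2 hq0
        push_cast
        linarith
      · intro h; omega

theorem test_spec {n : ℕ} {S T : Finset (Fin n)} {D : Fin n → Fin n → ℤ} {k q m : ℤ} {B T1 : ℕ}
    {s : Mem} (hE : Env S T D k q B s) (hT : s.v vT = T1) (hnB : n ≤ B) (hD0 : ∀ u v, 0 ≤ D u v)
    (hDB : ∀ u v, D u v ≤ B) (hk0 : 0 ≤ k) (hq0 : 0 ≤ q) (hm : IsMin S T D k m)
    (hT1 : m ^ 2 * ((n : ℤ) ^ 2 * (1 + (q + 2 * k) ^ 2)) < T1)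
    (hB1 : k * (2 * ((n : ℤ) ^ 2 * (1 + q * T1))) ≤ B) (hqB : q ≤ B) (hkB : k ≤ B) :
    (0 < (testC.run s).v vPos → 2 * m ≤ q) ∧ (¬ 0 < (testC.run s).v vPos → q ≤ 2 * m) := by
  unfold testC
  simp only [run_seq]
  have hmap := loop2_map vU vV (by decide) (by decide) (by decide)
    (.put aR (.var vU) (.var vV) (.lit 1)) (by decide) (by decide) s n hE.hn
    aR (fun i j => 1) (by
      intro i hi j hj s' hv ha hs hun i' j'
      have h1 : (s'.setv vV j).v vU = i := by rw [setv_ne _ _ (by decide), hs]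
      have h2 : (s'.setv vV j).v vV = j := by simp [setv_v]
      rw [run_put, val_var, val_var, val_lit, h1, h2, seta_a, setv_a]
      simp only [true_and, Nat.cast_inj])
  set s1 := (for2 (.put aR (.var vU) (.var vV) (.lit 1))).run s with hs1
  have s1v : ∀ z, z ≠ vU → z ≠ vV → s1.v z = s.v z := by
    intro z h1 h2
    refine Cmd.run_v z _ ?_ s
    simp only [for2, Cmd.wr, Bool.or_false, Bool.or_eq_false_iff, beq_eq_false_iff_ne]
    exact ⟨h1, h2⟩
  have s1a : ∀ b, b ≠ aR → s1.a b = s.a b := by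
    intro b hb
    refine Cmd.run_a b _ ?_ s
    simp only [for2, Cmd.wra, beq_eq_false_iff_ne]
    exact hb
  set s2 := (Cmd.set vPos (.lit 0)).run ((Cmd.set vDec (.lit 0)).run s1) with hs2
  have s2v : ∀ z, z ≠ vU → z ≠ vV → z ≠ vPos → z ≠ vDec → s2.v z = s.v z := by
    intro z h1 h2 h3 h4
    rw [hs2, run_set, run_set, setv_ne _ _ h3, setv_ne _ _ h4, s1v z h1 h2]
  have s2a : ∀ b, b ≠ aR → s2.a b = s.a b := fun b hb => s1a b hb
  have hE2 : Env S T D k q B s2 := hE.congr
    (s2v _ (by decide) (by decide) (by decide) (by decide))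
    (s2v _ (by decide) (by decide) (by decide) (by decide))
    (s2v _ (by decide) (by decide) (by decide) (by decide))
    (s2v _ (by decide) (by decide) (by decide) (by decide))
    (s2a _ (by decide)) (s2a _ (by decide)) (s2a _ (by decide))
  have key := loop_inv vRd vT (.ifLt (.var vDec) (.lit 1) roundC .skip) s2 T1
    (by rw [s2v vT (by decide) (by decide) (by decide) (by decide), hT])
    (TQ S T D k q m)
    (by
      left
      refine ⟨?_, ?_, fun _ _ => 1, ?_, ?_, ?_, fun _ _ _ => rfl⟩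
      · rw [hs2, run_set, run_set, setv_ne _ _ (by decide), setv_v, if_pos rfl]; rfl
      · rw [hs2, run_set, setv_v, if_pos rfl]; rfl
      · intro u v
        exact hmap u u.2 v v.2
      · exact TInv.zero S T D k q _ _ (fun _ _ _ _ => rfl)
      · intro u v; simp)
    (by
      intro j hj s' hv ha hP
      rw [run_if, val_var, val_lit]
      have f2 : ∀ z, z ≠ vRd → (Cmd.ifLt (.var vDec) (.lit 1) roundC .skip).wr z = false →
          (s'.setv vRd j).v z = s2.v z := by
        intro z h1 h2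
        rw [setv_ne _ _ h1, hv z h1 h2]
      have g2 : ∀ b, (Cmd.ifLt (.var vDec) (.lit 1) roundC .skip).wra b = false →
          (s'.setv vRd j).a b = s2.a b := by
        intro b h2
        rw [setv_a, ha b h2]
      have hE' : Env S T D k q B (s'.setv vRd j) := hE2.congr
        (f2 _ (by decide) (by decide)) (f2 _ (by decide) (by decide))
        (f2 _ (by decide) (by decide)) (f2 _ (by decide) (by decide))
        (g2 _ (by decide)) (g2 _ (by decide)) (g2 _ (by decide))
      have hd' : (s'.setv vRd j).v vDec = s'.v vDec := setv_ne _ _ (by decide)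
      have hp' : (s'.setv vRd j).v vPos = s'.v vPos := setv_ne _ _ (by decide)
      rcases hP with ⟨h1, h2, R, hR, hI, hRj, hR0⟩ | ⟨h1, h2⟩
      · rw [hd', h1, if_pos (by norm_num)]
        exact round_step hE' hnB hD0 hDB hk0 hq0 hm hB1 hqB hkB hj (by rw [setv_v, if_pos rfl])
          (hd'.trans h1) (hp'.trans h2) hR hI hRj hR0
      · rw [hd', h1, if_neg (by norm_num), run_skip]
        right
        refine ⟨hd'.trans h1, ?_⟩
        rw [hp']; exact h2)
  rcases key with ⟨h1, h2, R, hR, hI, hRj, hR0⟩ | ⟨h1, ⟨h2, h3⟩ | ⟨h2, h3⟩⟩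
  · rw [h2]
    refine ⟨fun h => absurd h (lt_irrefl _), fun _ => ?_⟩
    refine test_neg_many hI hm hq0 ?_
    rw [Fintype.card_fin]
    exact hT1
  · rw [h2]
    exact ⟨fun _ => h3, fun h => absurd one_pos h⟩
  · rw [h2]
    exact ⟨fun h => absurd h (lt_irrefl _), fun _ => h3⟩

end Pool.Agent.H87.ST
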