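import Pool.Agent.H87.ST.Round

namespace Pool.Agent.H87.ST

open Finset

/-- contents of the memory common to the whole computation -/
structure Env0 {n : ℕ} (S T : Finset (Fin n)) (k : ℤ) (B T1 : ℕ) (s : Mem) : Prop where
  hn : s.v vN = n
  hST : HasST S T s
  hB : s.v vB = B
  hT : s.v vT = T1
  hk : s.v vKK = k

lemma Env0.congr {n : ℕ} {S T : Finset (Fin n)} {k : ℤ} {B T1 : ℕ}
    {s t : Mem} (h : Env0 S T k B T1 s) (h1 : t.v vN = s.v vN) (h2 : t.v vB = s.v vB)
    (h3 : t.v vT = s.v vT) (h4 : t.v vKK = s.v vKK) (h5 : t.a aS = s.a aS) (h6 : t.a aT = s.a aT) :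
    Env0 S T k B T1 t :=
  ⟨h1.trans h.hn, h.hST.congr h5 h6, h2.trans h.hB, h3.trans h.hT, h4.trans h.hk⟩

/-- the array `aD` contains `D` -/
def HasD {n : ℕ} (D : Fin n → Fin n → ℤ) (s : Mem) : Prop :=
  ∀ u v : Fin n, s.a aD (u : ℕ) (v : ℕ) = D u v

/-- relations between the bounds -/
structure Bds (n : ℕ) (k : ℤ) (M0 T1 B : ℕ) : Prop where
  hnB : n ≤ B
  hk0 : 0 ≤ k
  hkB : k ≤ B
  h1 : (M0 : ℤ) ^ 2 * ((n : ℤ) ^ 2 * (1 + (2 * M0 + 1 + 2 * k) ^ 2)) < T1
  h2 : k * (2 * ((n : ℤ) ^ 2 * (1 + (2 * M0 + 1) * T1))) ≤ B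
  h3 : 2 * (M0 : ℤ) + 1 ≤ B

theorem test_spec' {n : ℕ} {S T : Finset (Fin n)} {D : Fin n → Fin n → ℤ} {k q m : ℤ}
    {M0 T1 B : ℕ} {s : Mem} (hb : Bds n k M0 T1 B) (hE : Env0 S T k B T1 s) (hD : HasD D s)
    (hq : s.v vQ = q) (hD0 : ∀ u v, 0 ≤ D u v)
    (hDB : ∀ u v, D u v ≤ B) (hq0 : 0 ≤ q) (hqM : q ≤ 2 * M0 + 1) (hm : IsMin S T D k m)
    (hmM : m ≤ M0) :
    (0 < (testC.run s).v vPos → 2 * m ≤ q) ∧ (¬ 0 < (testC.run s).v vPos → q ≤ 2 * m) := by
  have hm0 := hm.nonneg
  refine test_spec ⟨hE.hn, hE.hST, hE.hB, hq, hE.hk, hD⟩ hE.hT hb.hnB hD0 hDB hb.hk0 hq0 hm ?_ ?_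
    (hqM.trans hb.h3) hb.hkB
  · refine lt_of_le_of_lt ?_ hb.h1
    have h1 : m ^ 2 ≤ (M0 : ℤ) ^ 2 := pow_le_pow_left₀ hm0 hmM 2
    have h2 : (q + 2 * k) ^ 2 ≤ (2 * (M0 : ℤ) + 1 + 2 * k) ^ 2 :=
      pow_le_pow_left₀ (by linarith [hb.hk0]) (by linarith) 2
    refine mul_le_mul h1 (mul_le_mul_of_nonneg_left (by linarith) (sq_nonneg _)) (by positivity)
      (sq_nonneg _)
  · refine le_trans ?_ hb.h2
    refine mul_le_mul_of_nonneg_left ?_ hb.hk0
    have h1 : q * T1 ≤ (2 * (M0 : ℤ) + 1) * T1 :=
      mul_le_mul_of_nonneg_right hqM (Int.natCast_nonneg _)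
    have h2 : (n : ℤ) ^ 2 * (1 + q * T1) ≤ (n : ℤ) ^ 2 * (1 + (2 * M0 + 1) * T1) :=
      mul_le_mul_of_nonneg_left (by linarith) (sq_nonneg _)
    linarith

theorem opt_spec {n : ℕ} {S T : Finset (Fin n)} {D : Fin n → Fin n → ℤ} {k m : ℤ}
    {M0 T1 B : ℕ} {s : Mem} (hb : Bds n k M0 T1 B) (hE : Env0 S T k B T1 s) (hD : HasD D s)
    (hD0 : ∀ u v, 0 ≤ D u v) (hDB : ∀ u v, D u v ≤ B) (hm : IsMin S T D k m) (hmM : m ≤ M0) :
    (optC.run s).v vMM = m := by
  unfold optC
  simp only [run_seq]
  set s1 := (Cmd.set vMM (.lit 0)).run ((Cmd.set vDone (.lit 0)).run s) with hs1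
  have s1v : ∀ z, z ≠ vMM → z ≠ vDone → s1.v z = s.v z := by
    intro z h1 h2
    rw [hs1, run_set, run_set, setv_ne _ _ h1, setv_ne _ _ h2]
  have s1a : ∀ b, s1.a b = s.a b := fun b => rfl
  have s1d : s1.v vDone = 0 := by
    rw [hs1, run_set, run_set, setv_ne _ _ (by decide), setv_v, if_pos rfl]; rfl
  clear_value s1
  have hE1 : Env0 S T k B T1 s1 := hE.congr (s1v _ (by decide) (by decide))
    (s1v _ (by decide) (by decide)) (s1v _ (by decide) (by decide))
    (s1v _ (by decide) (by decide)) (s1a _) (s1a _)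
  have key := loop_inv vJ vB optB s1 B hE1.hB
    (fun j s' => (s'.v vDone = 0 ∧ (j : ℤ) ≤ m) ∨ (s'.v vDone = 1 ∧ s'.v vMM = m))
    (Or.inl ⟨s1d, by simpa using hm.nonneg⟩)
    (by
      intro j hj s' hv ha hP
      set t := s'.setv vJ j with ht
      have f2 : ∀ z, z ≠ vJ → optB.wr z = false → t.v z = s1.v z := by
        intro z h1 h2
        rw [ht, setv_ne _ _ h1, hv z h1 h2]
      have g2 : ∀ b, optB.wra b = false → t.a b = s1.a b := by
        intro b h2
        rw [ht, setv_a, ha b h2]
      have hd' : t.v vDone = s'.v vDone := setv_ne _ _ (by decide)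
      have hp' : t.v vMM = s'.v vMM := setv_ne _ _ (by decide)
      have hj' : t.v vJ = j := by rw [ht, setv_v, if_pos rfl]
      clear_value t
      unfold optB
      rw [run_if, val_var, val_lit, hd']
      rcases hP with ⟨h1, h2⟩ | ⟨h1, h2⟩
      · rw [h1, if_pos (by norm_num), run_seq, run_seq, run_set, run_if]
        have e1 : (Exp.add (.add (.var vJ) (.var vJ)) (.lit 1)).val t = 2 * j + 1 := by
          simp only [Exp.val]; rw [hj']; ring
        rw [e1]
        set t1 := t.setv vQ (2 * j + 1) with ht1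
        have t1v : ∀ z, z ≠ vQ → t1.v z = t.v z := fun z hz => by rw [ht1, setv_ne _ _ hz]
        have t1a : ∀ b, t1.a b = t.a b := fun b => rfl
        have t1q : t1.v vQ = 2 * j + 1 := by rw [ht1, setv_v, if_pos rfl]
        clear_value t1
        have hEt : Env0 S T k B T1 t1 := hE1.congr
          ((t1v _ (by decide)).trans (f2 _ (by decide) (by decide)))
          ((t1v _ (by decide)).trans (f2 _ (by decide) (by decide)))
          ((t1v _ (by decide)).trans (f2 _ (by decide) (by decide)))
          ((t1v _ (by decide)).trans (f2 _ (by decide) (by decide)))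
          ((t1a _).trans (g2 _ (by decide))) ((t1a _).trans (g2 _ (by decide)))
        have hDt : HasD D t1 := by
          intro u v
          rw [t1a, g2 aD (by decide), s1a]
          exact hD u v
        obtain ⟨k1, k2⟩ := test_spec' hb hEt hDt t1q hD0 hDB (by positivity)
          (by linarith) hm hmM
        by_cases hp : 0 < (testC.run t1).v vPos
        · rw [val_lit, val_var, if_pos hp, run_seq, run_set, run_set]
          right
          have h3 := k1 hp
          refine ⟨?_, ?_⟩
          · rw [setv_ne _ _ (by decide), setv_v, if_pos rfl]; rfl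
          · rw [setv_v, if_pos rfl, val_var, setv_ne _ _ (by decide),
              Cmd.run_v vJ testC (by decide), t1v vJ (by decide), hj']
            omega
        · rw [val_lit, val_var, if_neg hp, run_skip]
          left
          have h3 := k2 hp
          refine ⟨?_, by push_cast; omega⟩
          rw [Cmd.run_v vDone testC (by decide), t1v vDone (by decide), hd', h1]
      · rw [h1, if_neg (by norm_num), run_skip]
        right
        exact ⟨hd'.trans h1, hp'.trans h2⟩)
  rcases key with ⟨_, h2⟩ | ⟨_, h2⟩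
  · exfalso
    have := hb.h3
    have : (0 : ℤ) ≤ M0 := Int.natCast_nonneg _
    omega
  · exact h2

/-- invariant of the greedy phase -/
structure GI {n : ℕ} (S T : Finset (Fin n)) (D : Fin n → Fin n → ℤ) (k m : ℤ)
    (P : Fin n → Fin n → Prop) (x : Fin n → Fin n → ℤ) (mm : ℤ) (s : Mem) : Prop where
  hx : ∀ u v : Fin n, s.a aXO (u : ℕ) (v : ℕ) = x u v
  hx0 : ∀ u v, 0 ≤ x u v
  hxs : ∀ u v, ¬ (u ∈ S ∧ v ∈ T) → x u v = 0
  hD : HasD (fun u v => D u v + x u v) s
  hmin : IsMin S T (fun u v => D u v + x u v) k mm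
  hmm : s.v vMM = mm
  htot : tot x + mm = m
  huse : ∀ u v, P u v → u ∈ S → v ∈ T →
    IsMin S T (fun u' v' => (D u' v' + x u' v') + single u v u' v') k mm

lemma GI.congr {n : ℕ} {S T : Finset (Fin n)} {D : Fin n → Fin n → ℤ} {k m : ℤ}
    {P : Fin n → Fin n → Prop} {x : Fin n → Fin n → ℤ} {mm : ℤ} {s t : Mem}
    (h : GI S T D k m P x mm s) (h1 : t.a aXO = s.a aXO) (h2 : t.a aD = s.a aD)
    (h3 : t.v vMM = s.v vMM) : GI S T D k m P x mm t :=
  ⟨fun u v => by rw [h1]; exact h.hx u v, h.hx0, h.hxs, fun u v => by rw [h2]; exact h.hD u v,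
    h.hmin, h3.trans h.hmm, h.htot, h.huse⟩

lemma le_tot {V : Type*} [Fintype V] {x : V → V → ℤ} (hx : ∀ u v, 0 ≤ x u v) (u v : V) :
    x u v ≤ tot x := by
  refine le_trans ?_ (Finset.single_le_sum (f := fun u => ∑ v, x u v)
    (fun u _ => Finset.sum_nonneg fun v _ => hx u v) (Finset.mem_univ u))
  exact Finset.single_le_sum (f := fun v => x u v) (fun v _ => hx u v) (Finset.mem_univ v)

lemma try_step {n : ℕ} {S T : Finset (Fin n)} {D : Fin n → Fin n → ℤ} {k m : ℤ}
    {M0 T1 B : ℕ} {s : Mem} (hb : Bds n k M0 T1 B) (hE : Env0 S T k B T1 s)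
    (hD0 : ∀ u v, 0 ≤ D u v) (hDB : ∀ u v, D u v + M0 + 1 ≤ B) (hmM : m ≤ M0)
    {P : Fin n → Fin n → Prop} {x : Fin n → Fin n → ℤ} {mm : ℤ} (hG : GI S T D k m P x mm s)
    {a b : Fin n} (ha : a ∈ S) (hb' : b ∈ T) (hva : s.v vA = (a : ℕ)) (hvb : s.v vA' = (b : ℕ))
    (j : ℕ) (hj : mm + j ≤ M0 ∨
      IsMin S T (fun u' v' => (D u' v' + x u' v') + single a b u' v') k mm) :
    ∃ x' mm', GI S T D k m P x' mm' (tryB.run s) ∧ (mm' + (j + 1 : ℕ) ≤ M0 ∨
      IsMin S T (fun u' v' => (D u' v' + x' u' v') + single a b u' v') k mm') := by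
  have hmm0 : 0 ≤ mm := hG.hmin.nonneg
  have htx0 : 0 ≤ tot x := tot_nonneg hG.hx0
  have hDx0 : ∀ u v, 0 ≤ D u v + x u v := fun u v => add_nonneg (hD0 u v) (hG.hx0 u v)
  have hxM : ∀ u v, x u v ≤ M0 := by
    intro u v
    have h1 := le_tot hG.hx0 u v
    have h2 := hG.htot
    linarith
  have hD'0 : ∀ u v, 0 ≤ (D u v + x u v) + single a b u v := fun u v =>
    add_nonneg (hDx0 u v) (single_nonneg a b u v)
  obtain ⟨m', hm', -⟩ := exists_opt S T k (fun u v => (D u v + x u v) + single a b u v) hD'0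
  have hbd := hG.hmin.single_bounds ha hb' hm'
  unfold tryB
  rw [run_if, val_lit, val_var, hG.hmm]
  by_cases hpos : 0 < mm
  · rw [if_pos hpos, run_seq, run_seq, run_seq, run_put, run_set, run_if]
    have e1 : (Exp.add (.get aD (.var vA) (.var vA')) (.lit 1)).val s = (D a b + x a b) + 1 := by
      simp only [Exp.val]
      rw [hva, hvb, hG.hD a b]
    rw [val_var, val_var, e1, hva, hvb]
    set s1 := s.seta aD (a : ℕ) (b : ℕ) ((D a b + x a b) + 1) with hs1
    have s1v : ∀ z, s1.v z = s.v z := fun z => rfl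
    have s1a : ∀ b, b ≠ aD → s1.a b = s.a b := fun b hb => by rw [hs1, seta_ne _ _ _ _ hb]
    have s1D : HasD (fun u v => (D u v + x u v) + single a b u v) s1 := by
      intro u v
      rw [hs1, seta_a]
      simp only [true_and, Nat.cast_inj, ← Fin.ext_iff, single]
      by_cases huv : u = a ∧ v = b
      · obtain ⟨rfl, rfl⟩ := huv; simp
      · rw [if_neg huv, if_neg huv, add_zero]; exact hG.hD u v
    clear_value s1
    have e2 : (Exp.sub (.add (.var vMM) (.var vMM)) (.lit 1)).val s1 = 2 * mm - 1 := by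
      simp only [Exp.val]
      rw [s1v, hG.hmm]; ring
    rw [e2]
    set s2 := s1.setv vQ (2 * mm - 1) with hs2
    have s2v : ∀ z, z ≠ vQ → s2.v z = s.v z := fun z hz => by rw [hs2, setv_ne _ _ hz, s1v]
    have s2a : ∀ b, b ≠ aD → s2.a b = s.a b := fun b hb => s1a b hb
    have s2D : HasD (fun u v => (D u v + x u v) + single a b u v) s2 := s1D
    have s2q : s2.v vQ = 2 * mm - 1 := by rw [hs2, setv_v, if_pos rfl]
    clear_value s2
    have hE2 : Env0 S T k B T1 s2 := hE.congr (s2v _ (by decide)) (s2v _ (by decide))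
      (s2v _ (by decide)) (s2v _ (by decide)) (s2a _ (by decide)) (s2a _ (by decide))
    have hmmM : mm ≤ M0 := by linarith [hG.htot]
    obtain ⟨k1, k2⟩ := test_spec' hb hE2 s2D s2q hD'0
      (by
        intro u v
        have h1 := hDB u v
        have h2 := hxM u v
        have h3 : single a b u v ≤ 1 := by unfold single; split_ifs <;> norm_num
        linarith)
      (by omega) (by omega) hm' (by omega)
    set s3 := testC.run s2 with hs3
    have s3v : ∀ z, testC.wr z = false → s3.v z = s2.v z := fun z hz => Cmd.run_v z _ hz s2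
    have s3a : ∀ b, testC.wra b = false → s3.a b = s2.a b := fun b hb => Cmd.run_a b _ hb s2
    clear_value s3
    have h3MM : s3.v vMM = mm := by rw [s3v vMM (by decide), s2v vMM (by decide), hG.hmm]
    have h3A : s3.v vA = (a : ℕ) := by rw [s3v vA (by decide), s2v vA (by decide), hva]
    have h3A' : s3.v vA' = (b : ℕ) := by rw [s3v vA' (by decide), s2v vA' (by decide), hvb]
    have h3X : ∀ u v : Fin n, s3.a aXO (u : ℕ) (v : ℕ) = x u v := by
      intro u v
      rw [s3a aXO (by decide), s2a aXO (by decide)]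
      exact hG.hx u v
    have h3D : HasD (fun u v => (D u v + x u v) + single a b u v) s3 := by
      intro u v
      rw [s3a aD (by decide)]
      exact s2D u v
    by_cases hp : 0 < s3.v vPos
    · rw [val_lit, val_var, if_pos hp, run_seq, run_set, run_put]
      have hm'eq : m' = mm - 1 := by have := k1 hp; omega
      subst hm'eq
      have e3 : (Exp.sub (.var vMM) (.lit 1)).val s3 = mm - 1 := by
        simp only [Exp.val]; rw [h3MM]
      rw [e3]
      set s4 := s3.setv vMM (mm - 1) with hs4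
      have s4v : ∀ z, z ≠ vMM → s4.v z = s3.v z := fun z hz => by rw [hs4, setv_ne _ _ hz]
      have s4MM : s4.v vMM = mm - 1 := by rw [hs4, setv_v, if_pos rfl]
      have s4a : ∀ b, s4.a b = s3.a b := fun b => rfl
      clear_value s4
      have e4 : (Exp.add (.get aXO (.var vA) (.var vA')) (.lit 1)).val s4 = x a b + 1 := by
        simp only [Exp.val]
        rw [s4v vA (by decide), s4v vA' (by decide), h3A, h3A', s4a, h3X]
      rw [val_var, val_var, e4, s4v vA (by decide), s4v vA' (by decide), h3A, h3A']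
      refine ⟨fun u v => x u v + single a b u v, mm - 1, ⟨?_, ?_, ?_, ?_, ?_, ?_, ?_, ?_⟩, ?_⟩
      · intro u v
        rw [seta_a]
        simp only [true_and, Nat.cast_inj, ← Fin.ext_iff, single]
        by_cases huv : u = a ∧ v = b
        · obtain ⟨rfl, rfl⟩ := huv; simp
        · rw [if_neg huv, if_neg huv, add_zero, s4a]; exact h3X u v
      · intro u v
        exact add_nonneg (hG.hx0 u v) (single_nonneg a b u v)
      · intro u v huv
        rw [hG.hxs u v huv]
        unfold single
        rw [if_neg]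
        · simp
        · rintro ⟨rfl, rfl⟩; exact huv ⟨ha, hb'⟩
      · intro u v
        rw [seta_ne _ _ _ _ (by decide), s4a, h3D u v]
        ring
      · have : (fun u v => D u v + (x u v + single a b u v)) =
            fun u v => (D u v + x u v) + single a b u v := by funext u v; ring
        rw [this]; exact hm'
      · rw [seta_v, s4MM]
      · rw [tot_add, tot_single]
        linarith [hG.htot]
      · intro u v hP hu hv
        have h5 := IsMin.persist hDx0 hu hv ha hb' (hG.huse u v hP hu hv) hm'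
        have : (fun u' v' => D u' v' + (x u' v' + single a b u' v') + single u v u' v') =
            fun u' v' => (D u' v' + x u' v' + single a b u' v') + single u v u' v' := by
          funext u' v'; ring
        rw [this]; exact h5
      · rcases hj with h5 | h5
        · left; push_cast; linarith
        · exfalso
          have := h5.unique hm'
          omega
    · rw [val_lit, val_var, if_neg hp, run_put]
      have hm'eq : m' = mm := by have := k2 hp; omega
      subst hm'eq
      have e4 : (Exp.sub (.get aD (.var vA) (.var vA')) (.lit 1)).val s3 = D a b + x a b := by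
        simp only [Exp.val]
        rw [h3A, h3A', h3D a b]
        simp [single]
      rw [val_var, val_var, e4, h3A, h3A']
      refine ⟨x, m', ⟨?_, hG.hx0, hG.hxs, ?_, hG.hmin, ?_, hG.htot, hG.huse⟩, Or.inr hm'⟩
      · intro u v
        rw [seta_ne _ _ _ _ (by decide)]; exact h3X u v
      · intro u v
        rw [seta_a]
        simp only [true_and, Nat.cast_inj, ← Fin.ext_iff]
        by_cases huv : u = a ∧ v = b
        · obtain ⟨rfl, rfl⟩ := huv; simp
        · rw [if_neg huv, h3D u v]
          simp only [single]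
          rw [if_neg huv, add_zero]
      · rw [seta_v, h3MM]
  · rw [if_neg hpos, run_skip]
    have hmz : mm = 0 := by omega
    have hm'z : m' = mm := by
      have := hm'.nonneg
      omega
    exact ⟨x, mm, hG, Or.inr (hm'z ▸ hm')⟩

theorem greedy_spec {n : ℕ} {S T : Finset (Fin n)} {D : Fin n → Fin n → ℤ} {k m : ℤ}
    {M0 T1 B : ℕ} {s : Mem} (hb : Bds n k M0 T1 B) (hE : Env0 S T k B T1 s) (hD : HasD D s)
    (hD0 : ∀ u v, 0 ≤ D u v) (hDB : ∀ u v, D u v + M0 + 1 ≤ B) (hm : IsMin S T D k m)
    (hmM : m ≤ M0) (hmm : s.v vMM = m) :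
    ∃ x, (∀ u v : Fin n, (greedyC.run s).a aXO (u : ℕ) (v : ℕ) = x u v) ∧ Covers S T D k x ∧
      tot x = m := by
  unfold greedyC
  rw [run_seq]
  have hmap := loop2_map vU vV (by decide) (by decide) (by decide)
    (.put aXO (.var vU) (.var vV) (.lit 0)) (by decide) (by decide) s n hE.hn
    aXO (fun i j => 0) (by
      intro i hi j hj s' hv ha hs hun i' j'
      have h1 : (s'.setv vV j).v vU = i := by rw [setv_ne _ _ (by decide), hs]
      have h2 : (s'.setv vV j).v vV = j := by simp [setv_v]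
      rw [run_put, val_var, val_var, val_lit, h1, h2, seta_a, setv_a]
      simp only [true_and, Nat.cast_inj])
  set s1 := (for2 (.put aXO (.var vU) (.var vV) (.lit 0))).run s with hs1
  have s1v : ∀ z, z ≠ vU → z ≠ vV → s1.v z = s.v z := by
    intro z h1 h2
    refine Cmd.run_v z _ ?_ s
    simp only [for2, Cmd.wr, Bool.or_false, Bool.or_eq_false_iff, beq_eq_false_iff_ne]
    exact ⟨h1, h2⟩
  have s1a : ∀ b, b ≠ aXO → s1.a b = s.a b := by
    intro b hb
    refine Cmd.run_a b _ ?_ s
    simp only [for2, Cmd.wra, beq_eq_false_iff_ne]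
    exact hb
  have hmap1 : ∀ u v : Fin n, s1.a aXO (u : ℕ) (v : ℕ) = 0 := fun u v => hmap u u.2 v v.2
  clear_value s1
  have hE1 : Env0 S T k B T1 s1 := hE.congr
    (s1v _ (by decide) (by decide)) (s1v _ (by decide) (by decide))
    (s1v _ (by decide) (by decide)) (s1v _ (by decide) (by decide))
    (s1a _ (by decide)) (s1a _ (by decide))
  have hG1 : GI S T D k m (fun _ _ => False) (fun _ _ => 0) m s1 := by
    refine ⟨hmap1, fun _ _ => le_rfl, fun _ _ _ => rfl, ?_, ?_, ?_, ?_, ?_⟩
    · intro u v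
      rw [s1a aD (by decide)]; simpa using hD u v
    · simpa using hm
    · rw [s1v vMM (by decide) (by decide), hmm]
    · simp [tot]
    · intro u v h; exact absurd h id
  have key := loop2_inv vA vA' (by decide) (by decide) (by decide) greedyB (by decide) (by decide)
    s1 n hE1.hn
    (fun i j s' => ∃ x mm, GI S T D k m (fun u v => (u : ℕ) < i ∨ ((u : ℕ) = i ∧ (v : ℕ) < j))
      x mm s')
    ⟨_, _, ⟨hG1.hx, hG1.hx0, hG1.hxs, hG1.hD, hG1.hmin, hG1.hmm, hG1.htot,
      fun u v h => by omega⟩⟩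
    (by
      rintro i hi s' ⟨x, mm, hG⟩
      exact ⟨x, mm, hG.congr rfl rfl (setv_ne _ _ (by decide))⟩)
    (by
      rintro i hi j hj s' hv ha hs ⟨x, mm, hG⟩
      set a0 : Fin n := ⟨i, hi⟩ with ha0
      set b0 : Fin n := ⟨j, hj⟩ with hb0
      set t := s'.setv vA' j with ht
      have f2 : ∀ z, z ≠ vA → z ≠ vA' → greedyB.wr z = false → t.v z = s1.v z := by
        intro z h1 h2 h3
        rw [ht, setv_ne _ _ h2, hv z h1 h2 h3]
      have g2 : ∀ b, greedyB.wra b = false → t.a b = s1.a b := by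
        intro b hb
        rw [ht, setv_a, ha b hb]
      have hvA : t.v vA = (a0 : ℕ) := by rw [ht, setv_ne _ _ (by decide), hs]
      have hvA' : t.v vA' = (b0 : ℕ) := by rw [ht, setv_v, if_pos rfl]
      have hGt : GI S T D k m (fun u v => (u : ℕ) < i ∨ ((u : ℕ) = i ∧ (v : ℕ) < j)) x mm t :=
        hG.congr rfl rfl (by rw [ht, setv_ne _ _ (by decide)])
      clear_value t
      have hEt : Env0 S T k B T1 t := hE1.congr
        (f2 _ (by decide) (by decide) (by decide)) (f2 _ (by decide) (by decide) (by decide))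
        (f2 _ (by decide) (by decide) (by decide)) (f2 _ (by decide) (by decide) (by decide))
        (g2 _ (by decide)) (g2 _ (by decide))
      have e3 : (get1 aS (.var vA)).val t = mem1 a0 S := by
        simp only [get1, Exp.val]
        rw [hvA]; exact hEt.hST.1 _
      have e4 : (get1 aT (.var vA')).val t = mem1 b0 T := by
        simp only [get1, Exp.val]
        rw [hvA']; exact hEt.hST.2 _
      have hext : ∀ {x' mm' t'}, GI S T D k m
          (fun u v => (u : ℕ) < i ∨ ((u : ℕ) = i ∧ (v : ℕ) < j)) x' mm' t' →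
          (a0 ∈ S → b0 ∈ T → IsMin S T
            (fun u' v' => (D u' v' + x' u' v') + single a0 b0 u' v') k mm') →
          GI S T D k m (fun u v => (u : ℕ) < i ∨ ((u : ℕ) = i ∧ (v : ℕ) < j + 1)) x' mm' t' := by
        intro x' mm' t' h1 h2
        refine ⟨h1.hx, h1.hx0, h1.hxs, h1.hD, h1.hmin, h1.hmm, h1.htot, ?_⟩
        intro u v huv hu hv'
        by_cases h5 : (u : ℕ) < i ∨ ((u : ℕ) = i ∧ (v : ℕ) < j)
        · exact h1.huse u v h5 hu hv'
        · have h6 : u = a0 := Fin.ext (by rw [ha0]; simp only; omega)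
          have h7 : v = b0 := Fin.ext (by rw [hb0]; simp only; omega)
          rw [h6, h7]
          rw [h6] at hu; rw [h7] at hv'
          exact h2 hu hv'
      unfold greedyB
      rw [run_if, val_lit, e3]
      by_cases hS : 0 < mem1 a0 S
      · rw [if_pos hS, run_if, val_lit, e4]
        rw [mem1_pos] at hS
        by_cases hT : 0 < mem1 b0 T
        · rw [if_pos hT]
          rw [mem1_pos] at hT
          have key2 := loop_inv vJ vB tryB t B hEt.hB
            (fun l s'' => ∃ x mm, GI S T D k m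
              (fun u v => (u : ℕ) < i ∨ ((u : ℕ) = i ∧ (v : ℕ) < j)) x mm s'' ∧
              (mm + (l : ℕ) ≤ M0 ∨ IsMin S T
                (fun u' v' => (D u' v' + x u' v') + single a0 b0 u' v') k mm))
            ⟨x, mm, hGt, Or.inl (by
              have h1 := hGt.htot
              have h2 := tot_nonneg hGt.hx0
              push_cast; linarith)⟩
            (by
              rintro l hl s'' hv' ha' ⟨x', mm', hG', hor⟩
              have hE'' : Env0 S T k B T1 (s''.setv vJ l) := by
                refine hEt.congr ?_ ?_ ?_ ?_ ?_ ?_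
                · rw [setv_ne _ _ (by decide), hv' _ (by decide) (by decide)]
                · rw [setv_ne _ _ (by decide), hv' _ (by decide) (by decide)]
                · rw [setv_ne _ _ (by decide), hv' _ (by decide) (by decide)]
                · rw [setv_ne _ _ (by decide), hv' _ (by decide) (by decide)]
                · rw [setv_a, ha' _ (by decide)]
                · rw [setv_a, ha' _ (by decide)]
              exact try_step hb hE'' hD0 hDB hmM
                (hG'.congr rfl rfl (setv_ne _ _ (by decide))) hS hT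
                (by rw [setv_ne _ _ (by decide), hv' _ (by decide) (by decide), hvA])
                (by rw [setv_ne _ _ (by decide), hv' _ (by decide) (by decide), hvA'])
                l hor)
          obtain ⟨x', mm', hG', hor⟩ := key2
          refine ⟨x', mm', hext hG' fun _ _ => ?_⟩
          rcases hor with h5 | h5
          · exfalso
            have h6 := hG'.hmin.nonneg
            have h7 := hb.h3
            omega
          · exact h5
        · rw [if_neg hT, run_skip]
          rw [mem1_pos] at hT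
          exact ⟨x, mm, hext hGt fun _ h => absurd h hT⟩
      · rw [if_neg hS, run_skip]
        rw [mem1_pos] at hS
        exact ⟨x, mm, hext hGt fun h _ => absurd h hS⟩)
    (by
      rintro i hi s' ⟨x, mm, hG⟩
      refine ⟨x, mm, hG.hx, hG.hx0, hG.hxs, hG.hD, hG.hmin, hG.hmm, hG.htot, ?_⟩
      intro u v huv
      have := v.2
      exact hG.huse u v (by omega))
  obtain ⟨x, mm, hG⟩ := key
  have hmm0 : mm = 0 := by
    by_contra hne
    have h1 : 0 < mm := lt_of_le_of_ne hG.hmin.nonneg (Ne.symm hne)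
    obtain ⟨a, ha, b, hb', h2⟩ := hG.hmin.exists_useful h1
    have h3 := hG.huse a b (Or.inl a.2) ha hb'
    have := h3.unique h2
    omega
  subst hmm0
  refine ⟨x, hG.hx, ⟨hG.hx0, hG.hxs, ?_⟩, by linarith [hG.htot]⟩
  intro X hX
  obtain ⟨y, hy, hy0⟩ := hG.hmin.1
  have h1 := hy.2.2 X hX
  have h2 : cutw y X ≤ tot y := cutw_le_tot hy.1 X
  rw [cutw_add] at h1
  linarith

/-- the subroutine computes a minimum augmentation -/
theorem solve_spec {n : ℕ} {S T : Finset (Fin n)} {D : Fin n → Fin n → ℤ} {k m : ℤ}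
    {M0 T1 B : ℕ} {s : Mem} (hb : Bds n k M0 T1 B) (hE : Env0 S T k B T1 s) (hD : HasD D s)
    (hD0 : ∀ u v, 0 ≤ D u v) (hDB : ∀ u v, D u v + M0 + 1 ≤ B) (hm : IsMin S T D k m)
    (hmM : m ≤ M0) :
    ∃ x, (∀ u v : Fin n, (solveC.run s).a aXO (u : ℕ) (v : ℕ) = x u v) ∧ Covers S T D k x ∧
      tot x = m := by
  unfold solveC
  rw [run_seq]
  have h1 := opt_spec hb hE hD hD0 (fun u v => by
    have := hDB u v
    have : (0 : ℤ) ≤ M0 := Int.natCast_nonneg _
    linarith) hm hmM
  set s1 := optC.run s with hs1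
  have s1v : ∀ z, optC.wr z = false → s1.v z = s.v z := fun z hz => Cmd.run_v z _ hz s
  have s1a : ∀ b, optC.wra b = false → s1.a b = s.a b := fun b hb => Cmd.run_a b _ hb s
  clear_value s1
  refine greedy_spec hb (hE.congr (s1v _ (by decide)) (s1v _ (by decide)) (s1v _ (by decide))
    (s1v _ (by decide)) (s1a _ (by decide)) (s1a _ (by decide))) ?_ hD0 hDB hm hmM h1
  intro u v
  rw [s1a aD (by decide)]
  exact hD u v

end Pool.Agent.H87.ST
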