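import Pool.Agent.H87.ST.FF

namespace Pool.Agent.H87.ST

open Finset

/-! ### partial sums -/

def psum {n : ℕ} (f : Fin n → Fin n → ℤ) (i j : ℕ) : ℤ :=
  ∑ u : Fin n, ∑ v : Fin n, if (u : ℕ) < i ∨ ((u : ℕ) = i ∧ (v : ℕ) < j) then f u v else 0

lemma psum_zero {n : ℕ} (f : Fin n → Fin n → ℤ) : psum f 0 0 = 0 := by
  simp [psum]

lemma psum_succ {n : ℕ} (f : Fin n → Fin n → ℤ) {i j : ℕ} (hi : i < n) (hj : j < n) :
    psum f i (j + 1) = psum f i j + f ⟨i, hi⟩ ⟨j, hj⟩ := by
  have h1 : f ⟨i, hi⟩ ⟨j, hj⟩ = ∑ u : Fin n, ∑ v : Fin n,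
      if u = ⟨i, hi⟩ ∧ v = ⟨j, hj⟩ then f u v else 0 := by
    rw [Finset.sum_eq_single (⟨i, hi⟩ : Fin n), Finset.sum_eq_single (⟨j, hj⟩ : Fin n)]
    · simp
    · intro v _ hv; simp [hv]
    · simp
    · intro u _ hu
      exact Finset.sum_eq_zero fun v _ => by simp [hu]
    · simp
  rw [h1]
  unfold psum
  rw [← Finset.sum_add_distrib]
  refine Finset.sum_congr rfl fun u _ => ?_
  rw [← Finset.sum_add_distrib]
  refine Finset.sum_congr rfl fun v _ => ?_
  by_cases h2 : u = ⟨i, hi⟩ ∧ v = ⟨j, hj⟩
  · obtain ⟨rfl, rfl⟩ := h2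
    simp
  · rw [if_neg h2, add_zero]
    have h3 : ((u : ℕ) < i ∨ ((u : ℕ) = i ∧ (v : ℕ) < j + 1)) ↔
        ((u : ℕ) < i ∨ ((u : ℕ) = i ∧ (v : ℕ) < j)) := by
      have : ¬ ((u : ℕ) = i ∧ (v : ℕ) = j) := fun h => h2 ⟨Fin.ext h.1, Fin.ext h.2⟩
      omega
    simp only [h3]

lemma psum_wrap {n : ℕ} (f : Fin n → Fin n → ℤ) (i : ℕ) : psum f i n = psum f (i + 1) 0 := by
  unfold psum
  refine Finset.sum_congr rfl fun u _ => Finset.sum_congr rfl fun v _ => ?_
  have h3 : ((u : ℕ) < i ∨ ((u : ℕ) = i ∧ (v : ℕ) < n)) ↔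
      ((u : ℕ) < i + 1 ∨ ((u : ℕ) = i + 1 ∧ (v : ℕ) < 0)) := by
    have := v.2
    omega
  simp only [h3]

lemma psum_end {n : ℕ} (f : Fin n → Fin n → ℤ) : psum f n 0 = ∑ u, ∑ v, f u v := by
  unfold psum
  refine Finset.sum_congr rfl fun u _ => Finset.sum_congr rfl fun v _ => ?_
  rw [if_pos (Or.inl u.2)]

/-! ### weights -/

lemma wt_eq {n : ℕ} (S T : Finset (Fin n)) (R : Fin n → Fin n → ℤ) (u v : Fin n) :
    wt S T R u v = if 0 < mem1 u S then (if 0 < mem1 v T then
      (if 0 < R u v then R u v else 0) else 0) else 0 := by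
  unfold wt
  simp only [mem1_pos]
  by_cases hu : u ∈ S <;> by_cases hv : v ∈ T <;> simp [hu, hv]
  split_ifs with h
  · exact max_eq_right h.le
  · exact max_eq_left (not_lt.1 h)

theorem weight_spec {n : ℕ} (S T : Finset (Fin n)) (R : Fin n → Fin n → ℤ) (s : Mem)
    (hn : s.v vN = n) (hST : HasST S T s)
    (hR : ∀ u v : Fin n, s.a aR (u : ℕ) (v : ℕ) = R u v) :
    (weightC.run s).v vW = tot (wt S T R) ∧
      ∀ u v : Fin n, (weightC.run s).a aW (u : ℕ) (v : ℕ) = wt S T R u v := by
  unfold weightC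
  rw [Cmd.run]
  have key := loop2_inv vU vV (by decide) (by decide) (by decide) weightB (by decide) (by decide)
    ((Cmd.set vW (.lit 0)).run s) n
    (by simp only [Cmd.run]; rw [setv_ne _ _ (by decide), hn])
    (fun i j s' => s'.v vW = psum (wt S T R) i j ∧ ∀ u v : Fin n,
      ((u : ℕ) < i ∨ ((u : ℕ) = i ∧ (v : ℕ) < j)) → s'.a aW (u : ℕ) (v : ℕ) = wt S T R u v)
    ⟨by rw [psum_zero]; simp [Cmd.run, setv_v, Exp.val], fun u v h => by omega⟩
    (by
      rintro i hi s' ⟨h1, h2⟩
      exact ⟨by rw [setv_ne _ _ (by decide), h1], h2⟩)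
    (by
      rintro i hi j hj s' hv ha hs ⟨h1, h2⟩
      have g2 : ∀ b, weightB.wra b = false → (s'.setv vV j).a b = s.a b := by
        intro b hb
        rw [setv_a, ha b hb]; rfl
      have hvU : (s'.setv vV j).v vU = ((⟨i, hi⟩ : Fin n) : ℕ) := by
        rw [setv_ne _ _ (by decide), hs]
      have hvV : (s'.setv vV j).v vV = ((⟨j, hj⟩ : Fin n) : ℕ) := by simp [setv_v]
      set u0 : Fin n := ⟨i, hi⟩ with hu0
      set v0 : Fin n := ⟨j, hj⟩ with hv0
      set t := s'.setv vV j with ht
      clear_value t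
      have e1 : ∀ z, (get1 aS (.var vU)).val (t.setv vX z) = mem1 u0 S := by
        intro z
        simp only [get1, Exp.val, setv_a]
        rw [setv_ne _ _ (by decide), hvU, g2 aS (by decide)]; exact hST.1 _
      have e2 : ∀ z, (get1 aT (.var vV)).val (t.setv vX z) = mem1 v0 T := by
        intro z
        simp only [get1, Exp.val, setv_a]
        rw [setv_ne _ _ (by decide), hvV, g2 aT (by decide)]; exact hST.2 _
      have e3 : ∀ z, (Exp.get aR (.var vU) (.var vV)).val (t.setv vX z) = R u0 v0 := by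
        intro z
        simp only [Exp.val, setv_a]
        rw [setv_ne _ _ (by decide), setv_ne _ _ (by decide), hvU, hvV, g2 aR (by decide)]
        exact hR _ _
      have e4 : ∀ (z : ℤ) (m : Mem), (Exp.lit z).val m = z := fun z m => rfl
      have hrun : weightB.run t = ((t.setv vX (wt S T R u0 v0)).seta aW (u0 : ℕ) (v0 : ℕ)
          (wt S T R u0 v0)).setv vW (t.v vW + wt S T R u0 v0) := by
        have hss : ∀ z z', (t.setv vX z).setv vX z' = t.setv vX z' := by
          intro z z'
          simp only [Mem.setv, Mem.mk.injEq, and_true]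
          funext y
          split_ifs <;> rfl
        have hX : ∀ z, (Exp.var vX).val (t.setv vX z) = z := by
          intro z; simp [Exp.val, setv_v]
        have hfin : ∀ z, ((t.setv vX z).seta aW ((Exp.var vU).val (t.setv vX z))
            ((Exp.var vV).val (t.setv vX z)) ((Exp.var vX).val (t.setv vX z))).setv vW
            ((Exp.add (.var vW) (.var vX)).val ((t.setv vX z).seta aW
              ((Exp.var vU).val (t.setv vX z)) ((Exp.var vV).val (t.setv vX z))
              ((Exp.var vX).val (t.setv vX z)))) =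
            ((t.setv vX z).seta aW (u0 : ℕ) (v0 : ℕ) z).setv vW (t.v vW + z) := by
          intro z
          have k1 : (Exp.var vU).val (t.setv vX z) = (u0 : ℕ) := by
            simp only [Exp.val]; rw [setv_ne _ _ (by decide), hvU]
          have k2 : (Exp.var vV).val (t.setv vX z) = (v0 : ℕ) := by
            simp only [Exp.val]; rw [setv_ne _ _ (by decide), hvV]
          rw [k1, k2, hX]
          simp only [Exp.val, seta_v]
          rw [setv_ne _ _ (by decide : vW ≠ vX), setv_v, if_pos rfl]
        unfold weightB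
        simp only [Cmd.run, e1, e2, e3, e4]
        rw [wt_eq]
        split_ifs with c1 c2 c3
        · rw [hss]; exact hfin _
        · exact hfin _
        · exact hfin _
        · exact hfin _
      rw [hrun]
      refine ⟨?_, ?_⟩
      · rw [setv_v, if_pos rfl, psum_succ _ hi hj, ← h1, ht, setv_ne _ _ (by decide)]
      · intro u v huv
        rw [setv_a, seta_a]
        by_cases h3 : u = u0 ∧ v = v0
        · obtain ⟨rfl, rfl⟩ := h3
          simp
        · rw [if_neg]
          · rw [setv_a, ht, setv_a]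
            refine h2 u v ?_
            have : ¬ ((u : ℕ) = i ∧ (v : ℕ) = j) := fun h => h3 ⟨Fin.ext h.1, Fin.ext h.2⟩
            omega
          · rintro ⟨_, h4, h5⟩
            exact h3 ⟨Fin.ext (by exact_mod_cast h4), Fin.ext (by exact_mod_cast h5)⟩)
    (by
      rintro i hi s' ⟨h1, h2⟩
      refine ⟨by rw [h1, psum_wrap], fun u v huv => h2 u v ?_⟩
      have := v.2
      omega)
  refine ⟨?_, fun u v => key.2 u v (Or.inl u.2)⟩
  rw [psum_end] at key
  exact key.1

/-! ### capacities -/

theorem cap_spec {n : ℕ} (w D : Fin n → Fin n → ℤ) (W q k : ℤ) (B : ℕ) (s : Mem)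
    (hn : s.v vN = n) (hB : s.v vB = B) (hW : s.v vW = W) (hq : s.v vQ = q) (hk : s.v vKK = k)
    (hw : ∀ u v : Fin n, s.a aW (u : ℕ) (v : ℕ) = w u v)
    (hD : ∀ u v : Fin n, s.a aD (u : ℕ) (v : ℕ) = D u v)
    (hq0 : 0 ≤ q) (hqB : q ≤ B) (hk0 : 0 ≤ k) (hkB : k ≤ B)
    (hD0 : ∀ u v, 0 ≤ D u v) (hDB : ∀ u v, D u v ≤ B) :
    (capC.run s).v vL = k * (2 * W) ∧
      ∀ u v : Fin n, (capC.run s).a aC (u : ℕ) (v : ℕ) = q * w u v + D u v * (2 * W) := by
  unfold capC
  simp only [run_seq]
  set s1 := (Cmd.set vW2 (.add (.var vW) (.var vW))).run s with hs1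
  have f1 : ∀ z, z ≠ vW2 → s1.v z = s.v z := by
    intro z hz
    simp only [hs1, Cmd.run]
    rw [setv_ne _ _ hz]
  have hW2 : s1.v vW2 = 2 * W := by
    simp only [hs1, Cmd.run, setv_v, if_true, Exp.val]
    rw [hW]; ring
  have hmap := loop2_map vU vV (by decide) (by decide) (by decide) capB (by decide) (by decide)
    s1 n (by rw [f1 vN (by decide), hn]) aC
    (fun i j => q * s.a aW (i : ℕ) (j : ℕ) + s.a aD (i : ℕ) (j : ℕ) * (2 * W)) (by
      intro i hi j hj s' hv ha hs hun i' j'
      have f2 : ∀ z, z ≠ vU → z ≠ vV → capB.wr z = false → z ≠ vW2 →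
          (s'.setv vV j).v z = s.v z := by
        intro z h1 h2 h3 h4
        rw [setv_ne _ _ h2, hv z h1 h2 h3, f1 z h4]
      have g2 : ∀ b, capB.wra b = false → (s'.setv vV j).a b = s.a b := by
        intro b hb
        rw [setv_a, ha b hb]; rfl
      have hvU : (s'.setv vV j).v vU = i := by rw [setv_ne _ _ (by decide), hs]
      have hvV : (s'.setv vV j).v vV = j := by simp [setv_v]
      have hvW2 : (s'.setv vV j).v vW2 = 2 * W := by
        rw [setv_ne _ _ (by decide), hv vW2 (by decide) (by decide) (by decide), hW2]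
      set t := s'.setv vV j with ht
      have hsa : ∀ (i' j' : ℕ), t.a aC i' j' = s'.a aC i' j' := fun _ _ => rfl
      clear_value t
      unfold capB
      simp only [run_seq]
      have tB : t.v vB = B := by
        rw [f2 vB (by decide) (by decide) (by decide) (by decide), hB]
      have tQ : t.v vQ = q := by
        rw [f2 vQ (by decide) (by decide) (by decide) (by decide), hq]
      have m1 := mul_spec vX (.var vQ) (.get aW (.var vU) (.var vV)) t B tB
        (by decide) (by decide) (by decide) (by decide) (by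
          simp only [Exp.val, setv_a]
          rw [setv_ne _ _ (by decide), setv_ne _ _ (by decide)])
        (by simp only [Exp.val]; rw [tQ]; exact hq0)
        (by simp only [Exp.val]; rw [tQ]; exact hqB)
      have m1' : ((mulC vX (.var vQ) (.get aW (.var vU) (.var vV))).run t).v vX =
          q * s.a aW (i : ℕ) (j : ℕ) := by
        rw [m1]
        simp only [Exp.val]
        rw [tQ, hvU, hvV, g2 aW (by decide)]
      set t1 := (mulC vX (.var vQ) (.get aW (.var vU) (.var vV))).run t with ht1
      have t1v : ∀ z, (mulC vX (.var vQ) (.get aW (.var vU) (.var vV))).wr z = false →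
          t1.v z = t.v z := fun z hz => Cmd.run_v z _ hz t
      have t1a : ∀ b, t1.a b = t.a b := fun b => Cmd.run_a b _ rfl t
      have m2 := mul_spec vY (.get aD (.var vU) (.var vV)) (.var vW2) t1 B
        (by rw [t1v vB (by decide), tB])
        (by decide) (by decide) (by decide) (by decide) (by
          simp only [Exp.val]
          rw [setv_ne _ _ (by decide)])
        (by
          simp only [Exp.val]
          rw [t1v vU (by decide), t1v vV (by decide), hvU, hvV, t1a, g2 aD (by decide)]
          exact (hD ⟨i, hi⟩ ⟨j, hj⟩).symm ▸ hD0 _ _)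
        (by
          simp only [Exp.val]
          rw [t1v vU (by decide), t1v vV (by decide), hvU, hvV, t1a, g2 aD (by decide)]
          exact (hD ⟨i, hi⟩ ⟨j, hj⟩).symm ▸ hDB _ _)
      have m2' : ((mulC vY (.get aD (.var vU) (.var vV)) (.var vW2)).run t1).v vY =
          s.a aD (i : ℕ) (j : ℕ) * (2 * W) := by
        rw [m2]
        simp only [Exp.val]
        rw [t1v vU (by decide), t1v vV (by decide), t1v vW2 (by decide), hvU, hvV, hvW2, t1a,
          g2 aD (by decide)]
      set t2 := (mulC vY (.get aD (.var vU) (.var vV)) (.var vW2)).run t1 with ht2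
      have t2v : ∀ z, (mulC vY (.get aD (.var vU) (.var vV)) (.var vW2)).wr z = false →
          t2.v z = t1.v z := fun z hz => Cmd.run_v z _ hz t1
      have t2a : ∀ b, t2.a b = t1.a b := fun b => Cmd.run_a b _ rfl t1
      simp only [run_put, Exp.val]
      rw [t2v vX (by decide), m1', m2', seta_a, t2a, t1a,
        t2v vU (by decide), t1v vU (by decide), hvU, t2v vV (by decide), t1v vV (by decide), hvV,
        hsa]
      simp only [true_and, Nat.cast_inj])
  set s2 := (for2 capB).run s1 with hs2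
  have s2v : ∀ z, z ≠ vU → z ≠ vV → capB.wr z = false → s2.v z = s1.v z := by
    intro z h1 h2 h3
    refine Cmd.run_v z _ ?_ s1
    simp only [for2, Cmd.wr, h3, Bool.or_false, Bool.or_eq_false_iff, beq_eq_false_iff_ne]
    exact ⟨h1, h2⟩
  refine ⟨?_, ?_⟩
  · have m := mul_spec vL (.var vKK) (.var vW2) s2 B
      (by rw [s2v vB (by decide) (by decide) (by decide), f1 vB (by decide), hB])
      (by decide) (by decide) (by decide) (by decide)
      (by simp only [Exp.val]; rw [setv_ne _ _ (by decide)])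
      (by
        simp only [Exp.val]
        rw [s2v vKK (by decide) (by decide) (by decide), f1 vKK (by decide), hk]; exact hk0)
      (by
        simp only [Exp.val]
        rw [s2v vKK (by decide) (by decide) (by decide), f1 vKK (by decide), hk]; exact hkB)
    rw [m]
    simp only [Exp.val]
    rw [s2v vKK (by decide) (by decide) (by decide), f1 vKK (by decide), hk,
      s2v vW2 (by decide) (by decide) (by decide), hW2]
  · intro u v
    have h1 : ((mulC vL (.var vKK) (.var vW2)).run s2).a aC = s2.a aC := Cmd.run_a aC _ rfl s2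
    rw [h1, hs2, ← hw u v, ← hD u v]
    exact hmap u u.2 v v.2

/-! ### updating the potentials -/

theorem upd_spec {n : ℕ} (X : Finset (Fin n)) (D R : Fin n → Fin n → ℤ) (q k : ℤ) (s : Mem)
    (hn : s.v vN = n) (hq : s.v vQ = q) (hk : s.v vKK = k)
    (hX : ∀ v : Fin n, s.a aX (v : ℕ) 0 = mem1 v X)
    (hD : ∀ u v : Fin n, s.a aD (u : ℕ) (v : ℕ) = D u v)
    (hR : ∀ u v : Fin n, s.a aR (u : ℕ) (v : ℕ) = R u v) :
    ∀ u v : Fin n, (updC.run s).a aR (u : ℕ) (v : ℕ) =
      R u v - 2 * (k - cutw D X) + q * ind X u v := by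
  unfold updC
  simp only [run_seq]
  have hcond : ∀ u v : Fin n, (if mem1 u X < 1 then (if 0 < mem1 v X then (1 : ℤ) else 0) else 0) =
      ind X u v := by
    intro u v
    unfold ind mem1
    by_cases hu : u ∈ X <;> by_cases hv : v ∈ X <;> simp [hu, hv]
  have key := loop2_inv vU vV (by decide) (by decide) (by decide) degB (by decide) (by decide)
    ((Cmd.set vD (.lit 0)).run s) n
    (by simp only [Cmd.run]; rw [setv_ne _ _ (by decide), hn])
    (fun i j s' => s'.v vD = psum (fun u v => ind X u v * D u v) i j)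
    (by rw [psum_zero]; simp [Cmd.run, setv_v, Exp.val])
    (by
      intro i hi s' h1
      rw [setv_ne _ _ (by decide), h1])
    (by
      intro i hi j hj s' hv ha hs h1
      have g2 : ∀ b, (s'.setv vV j).a b = s.a b := by
        intro b
        rw [setv_a, ha b rfl]; rfl
      have hvU : (s'.setv vV j).v vU = ((⟨i, hi⟩ : Fin n) : ℕ) := by
        rw [setv_ne _ _ (by decide), hs]
      have hvV : (s'.setv vV j).v vV = ((⟨j, hj⟩ : Fin n) : ℕ) := by simp [setv_v]
      have hvD : (s'.setv vV j).v vD = s'.v vD := setv_ne _ _ (by decide)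
      rw [psum_succ _ hi hj, ← h1, ← hvD]
      set u0 : Fin n := ⟨i, hi⟩ with hu0
      set v0 : Fin n := ⟨j, hj⟩ with hv0
      set t := s'.setv vV j with ht
      have e1 : (get1 aX (.var vU)).val t = mem1 u0 X := by
        simp only [get1, Exp.val]
        rw [hvU, g2]; exact hX _
      have e2 : (get1 aX (.var vV)).val t = mem1 v0 X := by
        simp only [get1, Exp.val]
        rw [hvV, g2]; exact hX _
      have e3 : (Exp.get aD (.var vU) (.var vV)).val t = D u0 v0 := by
        simp only [Exp.val]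
        rw [hvU, hvV, g2]
        exact hD _ _
      have e4 : ∀ (z : ℤ) (m : Mem), (Exp.lit z).val m = z := fun z m => rfl
      have e5 : (Exp.add (.var vD) (.get aD (.var vU) (.var vV))).val t = t.v vD + D u0 v0 := by
        rw [← e3]; rfl
      unfold degB
      simp only [Cmd.run, e1, e2, e4, e5]
      rw [← hcond u0 v0]
      split_ifs with c1 c2
      · rw [setv_v, if_pos rfl]; ring
      · ring
      · ring)
    (by
      intro i hi s' h1
      rw [h1, psum_wrap])
  rw [psum_end] at key
  have hdeg : (∑ u, ∑ v, ind X u v * D u v) = cutw D X := (cutw_eq D X).symm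
  rw [hdeg] at key
  change ((for2 degB).run ((Cmd.set vD (.lit 0)).run s)).v vD = cutw D X at key
  set s1 := (for2 degB).run ((Cmd.set vD (.lit 0)).run s) with hs1
  have s1v : ∀ z, z ≠ vU → z ≠ vV → z ≠ vD → s1.v z = s.v z := by
    intro z h1 h2 h3
    rw [hs1, Cmd.run_v z _ ?_ _]
    · simp only [Cmd.run]; rw [setv_ne _ _ h3]
    · simp only [for2, degB, Cmd.wr, Bool.or_false, Bool.or_eq_false_iff, beq_eq_false_iff_ne]
      exact ⟨h1, h2, h3⟩
  have s1a : ∀ b, s1.a b = s.a b := by
    intro b
    rw [hs1, Cmd.run_a b _ rfl _]; rfl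
  set s2 := (Cmd.set vX (.sub (.var vKK) (.var vD))).run s1 with hs2
  have hX2 : s2.v vX = k - cutw D X := by
    simp only [hs2, Cmd.run, setv_v, if_true, Exp.val]
    rw [key, s1v vKK (by decide) (by decide) (by decide), hk]
  have s2v : ∀ z, z ≠ vU → z ≠ vV → z ≠ vD → z ≠ vX → s2.v z = s.v z := by
    intro z h1 h2 h3 h4
    simp only [hs2, Cmd.run]
    rw [setv_ne _ _ h4, s1v z h1 h2 h3]
  have s2a : ∀ b, s2.a b = s.a b := s1a
  have hmap := loop2_map vU vV (by decide) (by decide) (by decide) potB (by decide) (by decide)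
    s2 n (by rw [s2v vN (by decide) (by decide) (by decide) (by decide), hn]) aR
    (fun i j => s.a aR (i : ℕ) (j : ℕ) - 2 * (k - cutw D X) +
      q * (if s.a aX (i : ℕ) 0 < 1 then (if 0 < s.a aX (j : ℕ) 0 then (1 : ℤ) else 0) else 0)) (by
      intro i hi j hj s' hv ha hs hun i' j'
      have g2 : ∀ b, potB.wra b = false → (s'.setv vV j).a b = s.a b := by
        intro b hb
        rw [setv_a, ha b hb, s2a]
      have hvU : (s'.setv vV j).v vU = i := by rw [setv_ne _ _ (by decide), hs]
      have hvV : (s'.setv vV j).v vV = j := by simp [setv_v]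
      have hvX : (s'.setv vV j).v vX = k - cutw D X := by
        rw [setv_ne _ _ (by decide), hv vX (by decide) (by decide) rfl, hX2]
      have hvQ : (s'.setv vV j).v vQ = q := by
        rw [setv_ne _ _ (by decide), hv vQ (by decide) (by decide) rfl,
          s2v vQ (by decide) (by decide) (by decide) (by decide), hq]
      have hRt : (s'.setv vV j).a aR (i : ℕ) (j : ℕ) = s.a aR (i : ℕ) (j : ℕ) := by
        rw [setv_a, hun, s2a]
      have hsa : ∀ (i' j' : ℕ), (s'.setv vV j).a aR i' j' = s'.a aR i' j' := fun _ _ => rfl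
      set t := s'.setv vV j with ht
      unfold potB
      rw [Cmd.run, Cmd.run]
      have e0 : (Exp.sub (.sub (.get aR (.var vU) (.var vV)) (.var vX)) (.var vX)).val t =
          s.a aR (i : ℕ) (j : ℕ) - 2 * (k - cutw D X) := by
        simp only [Exp.val]
        rw [hvU, hvV, hvX, hRt]; ring
      have e1 : (Exp.var vU).val t = i := hvU
      have e2 : (Exp.var vV).val t = j := hvV
      rw [e0, e1, e2]
      set r := s.a aR (i : ℕ) (j : ℕ) - 2 * (k - cutw D X) with hr
      set t1 := t.seta aR (i : ℕ) (j : ℕ) r with ht1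
      have e3 : (get1 aX (.var vU)).val t1 = s.a aX (i : ℕ) 0 := by
        simp only [get1, Exp.val]
        rw [ht1, seta_v, hvU, seta_ne _ _ _ _ (by decide), g2 aX rfl]
      have e4 : (get1 aX (.var vV)).val t1 = s.a aX (j : ℕ) 0 := by
        simp only [get1, Exp.val]
        rw [ht1, seta_v, hvV, seta_ne _ _ _ _ (by decide), g2 aX rfl]
      have e5 : ∀ (z : ℤ) (m : Mem), (Exp.lit z).val m = z := fun z m => rfl
      have e6 : (Exp.add (.get aR (.var vU) (.var vV)) (.var vQ)).val t1 = r + q := by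
        simp only [Exp.val]
        rw [ht1, seta_v, hvU, hvV, hvQ, seta_a]
        simp
      have e7 : (Exp.var vU).val t1 = i := hvU
      have e8 : (Exp.var vV).val t1 = j := hvV
      simp only [Cmd.run, e3, e4, e5, e6, e7, e8]
      split_ifs with c1 c2 c3 c3 c3 c3
      · obtain ⟨rfl, rfl⟩ := c3
        rw [seta_a]; simp
      · rw [seta_a, if_neg, ht1, seta_a, if_neg, hsa]
        · rintro ⟨_, h1, h2⟩; exact c3 ⟨by exact_mod_cast h1, by exact_mod_cast h2⟩
        · rintro ⟨_, h1, h2⟩; exact c3 ⟨by exact_mod_cast h1, by exact_mod_cast h2⟩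
      · obtain ⟨rfl, rfl⟩ := c3
        rw [ht1, seta_a]; simp
      · rw [ht1, seta_a, if_neg, hsa]
        rintro ⟨_, h1, h2⟩; exact c3 ⟨by exact_mod_cast h1, by exact_mod_cast h2⟩
      · obtain ⟨rfl, rfl⟩ := c3
        rw [ht1, seta_a]; simp
      · rw [ht1, seta_a, if_neg, hsa]
        rintro ⟨_, h1, h2⟩; exact c3 ⟨by exact_mod_cast h1, by exact_mod_cast h2⟩)
  intro u v
  have h1 := hmap u u.2 v v.2
  rw [hX u, hX v, hcond u v, hR u v] at h1
  exact h1

end Pool.Agent.H87.ST
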